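import Pool.Agent.Lib.MP_97567f_al.F4.CertT
import Pool.Agent.Lib.MP_97567f_al.Pad.Htn
import Pool.Agent.Lib.MP_97567f_al.U.Art

/-!
# MP_97567f_al: F4: the certificate

`certF4`: every solution of the linear conditions near `p = q = m = 1` in the direction `(1, 1, 1)` over the field with
seven elements is a derivative of the family plus a scalar for each of the two classes of generators plus an infinitesimal
conjugation.
-/

set_option autoImplicit false

namespace Pool.Agent.Lib.MP_97567f_al.F4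

open Pool.Agent.Lib.MP_97567f_al.Pad Pool.Agent.Lib.MP_97567f_al.U Pool.Agent.Lib.MP_97567f_al.Ck

/-- The two classes of generators. -/
def clF4 (s : Fin 4) : Fin 2 := ![0, 0, 1, 1] s

/-- The derivatives of the squares of the generators. -/
def TF4 (l : Fin 3) (s : Fin 4) : Matrix (Fin 24) (Fin 24) (ZMod 7) :=
  Matrix.of fun i j => (f4Tt l s i j : ZMod 7)

private theorem rels (g : Fin 4 → Art CoxeterMatrix.F₄) (hg : g = gn CoxeterMatrix.F₄) :
    g 0 * g 1 * g 0 = g 1 * g 0 * g 1 ∧ g 2 * g 3 * g 2 = g 3 * g 2 * g 3 ∧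
    g 0 * g 2 = g 2 * g 0 ∧ g 0 * g 3 = g 3 * g 0 ∧ g 1 * g 3 = g 3 * g 1 ∧
    g 1 * g 2 * g 1 * g 2 = g 2 * g 1 * g 2 * g 1 := by
  subst hg
  have h := (pArt 4 CoxeterMatrix.F₄).1
  have h01 := h 0 1
  have h23 := h 2 3
  have h02 := h 0 2
  have h03 := h 0 3
  have h13 := h 1 3
  have h12 := h 1 2
  rw [show CoxeterMatrix.F₄.M 0 1 = 3 from rfl] at h01
  rw [show CoxeterMatrix.F₄.M 2 3 = 3 from rfl] at h23
  rw [show CoxeterMatrix.F₄.M 0 2 = 2 from rfl] at h02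
  rw [show CoxeterMatrix.F₄.M 0 3 = 2 from rfl] at h03
  rw [show CoxeterMatrix.F₄.M 1 3 = 2 from rfl] at h13
  rw [show CoxeterMatrix.F₄.M 1 2 = 4 from rfl] at h12
  simp only [alt, List.range, List.range.loop, List.map_cons, List.map_nil, List.prod_cons,
    List.prod_nil, mul_one] at h01 h23 h02 h03 h13 h12
  norm_num at h01 h23 h02 h03 h13 h12
  simp only [mul_assoc] at *
  exact ⟨h01, h23, h02, h03, h13, h12⟩

/-- The classes are invariant under conjugation. -/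
theorem clF4_conj (s t : Fin 4) (b : Art CoxeterMatrix.F₄)
    (h : b * gn CoxeterMatrix.F₄ s = gn CoxeterMatrix.F₄ t * b) : clF4 s = clF4 t := by
  obtain ⟨φ, hφ⟩ := (pArt 4 CoxeterMatrix.F₄).2.1 (Multiplicative ℤ)
    (fun s => Multiplicative.ofAdd (((clF4 s : Fin 2) : ℕ) : ℤ)) (by
      intro i j
      simp only [alt]
      fin_cases i <;> fin_cases j <;> decide)
  have h1 := congrArg φ h
  rw [map_mul, map_mul, mul_comm, hφ, hφ] at h1
  have h2 := mul_right_cancel h1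
  have h3 : (((clF4 s : Fin 2) : ℕ) : ℤ) = (((clF4 t : Fin 2) : ℕ) : ℤ) := h2
  exact Fin.ext (by exact_mod_cast h3)

private theorem hMV : ∀ m ∈ f4C.MV, ∃ t s : Fin 4, t.1 = m.1 ∧ s.1 = m.2.1 ∧
    Ck.wd (gn CoxeterMatrix.F₄) m.2.2 * gn CoxeterMatrix.F₄ s =
      gn CoxeterMatrix.F₄ t * Ck.wd (gn CoxeterMatrix.F₄) m.2.2 := by
  obtain ⟨h01, h23, h02, h03, h13, h12⟩ := rels _ rfl
  generalize gn CoxeterMatrix.F₄ = g at *
  have w0 : ∀ w, Ck.wd g (0 :: w) = g 0 * Ck.wd g w := fun w => rfl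
  have w1 : ∀ w, Ck.wd g (1 :: w) = g 1 * Ck.wd g w := fun w => rfl
  have w2 : ∀ w, Ck.wd g (2 :: w) = g 2 * Ck.wd g w := fun w => rfl
  have w3 : ∀ w, Ck.wd g (3 :: w) = g 3 * Ck.wd g w := fun w => rfl
  have wn : Ck.wd g [] = 1 := rfl
  simp only [f4C, List.forall_mem_cons, List.not_mem_nil, IsEmpty.forall_iff, implies_true,
    and_true]
  refine ⟨⟨0, 0, rfl, rfl, ?_⟩, ⟨1, 1, rfl, rfl, ?_⟩, ⟨2, 2, rfl, rfl, ?_⟩, ⟨3, 3, rfl, rfl, ?_⟩,
    ⟨1, 0, rfl, rfl, ?_⟩, ⟨0, 0, rfl, rfl, ?_⟩, ⟨0, 0, rfl, rfl, ?_⟩, ⟨0, 1, rfl, rfl, ?_⟩,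
    ⟨1, 1, rfl, rfl, ?_⟩, ⟨1, 1, rfl, rfl, ?_⟩, ⟨2, 2, rfl, rfl, ?_⟩, ⟨2, 2, rfl, rfl, ?_⟩,
    ⟨3, 2, rfl, rfl, ?_⟩, ⟨3, 3, rfl, rfl, ?_⟩, ⟨3, 3, rfl, rfl, ?_⟩, ⟨2, 3, rfl, rfl, ?_⟩⟩ <;>
    simp only [w0, w1, w2, w3, wn, mul_one]
  · exact h01.trans (mul_assoc _ _ _)
  · exact h02.symm
  · exact h03.symm
  · exact h01.symm.trans (mul_assoc _ _ _)
  · simpa only [mul_assoc] using h12.symm
  · exact h13.symm
  · exact h02
  · simpa only [mul_assoc] using h12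
  · exact h23.trans (mul_assoc _ _ _)
  · exact h03
  · exact h13
  · exact h23.symm.trans (mul_assoc _ _ _)

private theorem z2 {G : Type} [Group G] {a b : G} (h : a * b = b * a) :
    a * (b * b) * a * a = a * (a * (b * b) * a) ∧ a * (b * b) * a * b = b * (a * (b * b) * a) := by
  have h1 : Commute a b := h
  have h2 : Commute a (b * b) := h1.mul_right h1
  refine ⟨?_, ?_⟩
  · have := ((Commute.refl a).mul_right h2).mul_right (Commute.refl a)
    exact this.eq.symm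
  · have h3 : Commute b (a * (b * b) * a) :=
      ((h1.symm.mul_right ((Commute.refl b).mul_right (Commute.refl b))).mul_right h1.symm)
    exact h3.eq.symm

private theorem z3 {G : Type} [Group G] {a b : G} (h : a * b * a = b * a * b) :
    a * (b * (a * a) * b) * a * a = a * (a * (b * (a * a) * b) * a) ∧
    a * (b * (a * a) * b) * a * b = b * (a * (b * (a * a) * b) * a) := by
  -- the element is the square of `a b a`
  have e : a * (b * (a * a) * b) * a = (a * b * a) * (a * b * a) := by simp only [mul_assoc]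
  have ha : (a * b * a) * a = b * (a * b * a) := by
    rw [h]
    rw [show b * a * b * a = b * (a * b * a) by simp only [mul_assoc], h]
  have hb : (a * b * a) * b = a * (a * b * a) := by
    rw [show a * b * a * b = a * (b * a * b) by simp only [mul_assoc], ← h]
  rw [e]
  refine ⟨?_, ?_⟩
  · rw [mul_assoc, ha, ← mul_assoc, hb, mul_assoc]
  · rw [mul_assoc, hb, ← mul_assoc, ha, mul_assoc]

private theorem z4 {G : Type} [Group G] {a b : G} (h : a * b * a * b = b * a * b * a) :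
    a * (b * (a * (b * b) * a) * b) * a * a = a * (a * (b * (a * (b * b) * a) * b) * a) ∧
    a * (b * (a * (b * b) * a) * b) * a * b = b * (a * (b * (a * (b * b) * a) * b) * a) := by
  have e : a * (b * (a * (b * b) * a) * b) * a = (a * b * a * b) * (b * a * b * a) := by
    simp only [mul_assoc]
  have ha : Commute (a * b * a * b) a := by
    change a * b * a * b * a = a * (a * b * a * b)
    rw [show a * b * a * b * a = a * (b * a * b * a) by simp only [mul_assoc], ← h]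
  have hb : Commute (a * b * a * b) b := by
    change a * b * a * b * b = b * (a * b * a * b)
    rw [h, show b * (b * a * b * a) = b * (a * b * a * b) by rw [h]]
    simp only [mul_assoc]
  rw [e, ← h]
  exact ⟨(ha.mul_left ha).eq, (hb.mul_left hb).eq⟩

private theorem hHW : ∀ h ∈ f4C.HW, ∃ s : Fin 4, s.1 = h.2 ∧
    zw (gn CoxeterMatrix.F₄) (tF 4 h.1) * gn CoxeterMatrix.F₄ s =
      gn CoxeterMatrix.F₄ s * zw (gn CoxeterMatrix.F₄) (tF 4 h.1) := by
  obtain ⟨h01, h23, h02, h03, h13, h12⟩ := rels _ rfl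
  generalize gn CoxeterMatrix.F₄ = g at *
  have w0 : ∀ w, zw g (tF 4 (0 :: w)) = g 0 * zw g (tF 4 w) * g 0 := fun w => rfl
  have w1 : ∀ w, zw g (tF 4 (1 :: w)) = g 1 * zw g (tF 4 w) * g 1 := fun w => rfl
  have w2 : ∀ w, zw g (tF 4 (2 :: w)) = g 2 * zw g (tF 4 w) * g 2 := fun w => rfl
  have w3 : ∀ w, zw g (tF 4 (3 :: w)) = g 3 * zw g (tF 4 w) * g 3 := fun w => rfl
  have wn : zw g (tF 4 []) = 1 := rfl
  simp only [f4C, List.forall_mem_cons, List.not_mem_nil, IsEmpty.forall_iff, implies_true,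
    and_true]
  refine ⟨⟨0, rfl, ?_⟩, ⟨1, rfl, ?_⟩, ⟨0, rfl, ?_⟩, ⟨2, rfl, ?_⟩, ⟨0, rfl, ?_⟩, ⟨3, rfl, ?_⟩,
    ⟨1, rfl, ?_⟩, ⟨2, rfl, ?_⟩, ⟨1, rfl, ?_⟩, ⟨3, rfl, ?_⟩, ⟨2, rfl, ?_⟩, ⟨3, rfl, ?_⟩⟩ <;>
    simp only [w0, w1, w2, w3, wn, mul_one]
  · exact (z3 h01).1
  · exact (z3 h01).2
  · exact (z2 h02).1
  · exact (z2 h02).2
  · exact (z2 h03).1
  · exact (z2 h03).2
  · exact (z4 h12).1
  · exact (z4 h12).2
  · exact (z2 h13).1
  · exact (z2 h13).2
  · exact (z3 h23).1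
  · exact (z3 h23).2

/-- **The certificate.** -/
theorem certF4 [Fact (Nat.Prime 7)] (Φ : NFam (Art CoxeterMatrix.F₄) (Fin 24) (Fin 3))
    (π : Art CoxeterMatrix.F₄ →* Equiv.Perm (Fin 24))
    (hp : ∀ (s : Fin 4) (i : Fin 24), (π (gn CoxeterMatrix.F₄ s) i).1 = dg f4_P (s * 24 + i))
    (hW : WPt 7 Φ (gn CoxeterMatrix.F₄) π TF4) :
    CertC 7 clF4 (gn CoxeterMatrix.F₄) π TF4 (fun _ => 1) := by
  refine certC_of f4C f4K (gn CoxeterMatrix.F₄) π rfl rfl rfl rfl hp hW.sq f4_ckW f4_ckA f4_ckB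
    f4_ckK (pArt 4 CoxeterMatrix.F₄).2.2.2.1 hMV hHW TF4 (fun _ => 1) clF4 ?_ ?_ ?_ clF4_conj ?_
  · intro l s i j
    rfl
  · intro l
    exact Nat.cast_one.symm
  · intro s
    fin_cases s <;> rfl
  · intro a c m hm hc
    exact pHtn 7 (by norm_num) _ _ _ _ Φ (gn CoxeterMatrix.F₄) π TF4 hW (fun _ => 1) a c m hm hc

end Pool.Agent.Lib.MP_97567f_al.F4
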