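import Pool.Agent.Lib.MP_97567f_al.F4.Fam
import Pool.Agent.Lib.MP_97567f_al.Pad.Ord

/-!
# MP_97567f_al: type F4: the family near the point `p = q = m = 1`

`pg s`: the permutation of the generator `s`. `T0 l s`: the derivatives of the matrix of the square of the generator `s`.
`wpt`: the hypothesis `WPt` of Theorem R.
-/

set_option autoImplicit false

namespace Pool.Agent.Lib.MP_97567f_al.F4

open Pool.Agent.Lib.MP_97567f_al.U

/-- The images of the roots under the reflections. -/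
def pt (s : Fin 4) : List (Fin 24) :=
  match s with
  | 0 => [0, 4, 2, 3, 1, 7, 6, 5, 10, 11, 8, 9, 14, 13, 12, 17, 16, 15, 18, 19, 20, 21, 23, 22]
  | 1 => [4, 1, 5, 3, 0, 2, 9, 7, 8, 6, 13, 11, 12, 10, 16, 15, 14, 19, 18, 17, 20, 22, 21, 23]
  | 2 => [0, 8, 2, 6, 10, 5, 3, 7, 1, 12, 4, 14, 9, 13, 11, 15, 18, 17, 16, 21, 20, 19, 22, 23]
  | 3 => [0, 1, 6, 3, 4, 9, 2, 11, 15, 5, 17, 7, 12, 19, 14, 8, 16, 10, 20, 13, 18, 21, 22, 23]

/-- The reflections as maps. -/
def pf (s : Fin 4) (j : Fin 24) : Fin 24 := (pt s).getD j 0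

theorem pf_inv : ∀ s j, pf s (pf s j) = j := by decide +kernel

/-- The permutation of the generator `s`. -/
def pg (s : Fin 4) : Equiv.Perm (Fin 24) := ⟨pf s, pf s, pf_inv s, pf_inv s⟩

theorem pg_apply (s : Fin 4) (j : Fin 24) : pg s j = pf s j := rfl

theorem pg_rel (i j : Fin 4) : alt (pg i) (pg j) (CoxeterMatrix.F₄.M i j) =
    alt (pg j) (pg i) (CoxeterMatrix.F₄.M i j) := by
  refine f4_rel pg ?_ ?_ ?_ ?_ ?_ ?_ i j <;> refine Equiv.ext ?_ <;>
    simp only [Equiv.Perm.mul_apply, pg_apply] <;> decide +kernel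

theorem pi_exists : ∃ π : Art CoxeterMatrix.F₄ →* Equiv.Perm (Fin 24),
    ∀ s, π (gn CoxeterMatrix.F₄ s) = pg s :=
  (pArt 4 CoxeterMatrix.F₄).2.1 _ _ pg_rel

/-- The sum of the coefficients, with multiplicities. -/
def sw (w : ℕ × ℕ × ℕ → ℤ) (x : Pl) : ℤ := x.foldr (fun t z => t.1 * w t.2 + z) 0

theorem sw_cons (w : ℕ × ℕ × ℕ → ℤ) (t : ℤ × ℕ × ℕ × ℕ) (x : Pl) :
    sw w (t :: x) = t.1 * w t.2 + sw w x := rfl

theorem ev_one_one {R : Type*} [CommRing R] (x : Pl) :
    ev (1 : R) 1 1 x = ((sw (fun _ => 1) x : ℤ) : R) := by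
  induction x with
  | nil => simp [ev, sw]
  | cons t x ih =>
    rw [ev_cons, ih, sw_cons]
    simp [evm]

/-- The entry of the matrix of the generator `s`. -/
def en (s : Fin 4) (i j : ℕ) : Pl := coef j ((D s).getD i [])

theorem gm_one (s : Fin 4) : gm (1 : ℤ) 1 1 s = Pad.Pm (pg s) := by
  have key : ∀ (s : Fin 4) (i j : Fin 24), sw (fun _ => 1) (en s i j) =
      if i = pf s j then 1 else 0 := by decide +kernel
  ext i j
  rw [gm_apply, ev_one_one]
  exact key s i j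

theorem fam_one {π : Art CoxeterMatrix.F₄ →* Equiv.Perm (Fin 24)}
    (hπ : ∀ s, π (gn CoxeterMatrix.F₄ s) = pg s) (x : Art CoxeterMatrix.F₄) :
    fam.rep ℤ 1 x = Pad.Pm (π x) := by
  have h : rep ℤ 1 = (Pad.Pmh ℤ π).toHomUnits := by
    refine (pArt 4 CoxeterMatrix.F₄).2.2.1 _ _ _ fun s => Units.ext ?_
    rw [rep_gn]
    change gm (1 : ℤ) 1 1 s = Pad.Pm (π (gn CoxeterMatrix.F₄ s))
    rw [hπ s, gm_one]
  rw [fam_rep, h]
  rfl

/-- The derivatives of the matrix of the generator `s`. -/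
def gl (l : Fin 3) (s : Fin 4) : Matrix (Fin 24) (Fin 24) (ZMod 7) := fun i j =>
  ((sw (fun e => match l with
    | 0 => e.1
    | 1 => e.2.1
    | 2 => e.2.2) (en s i j) : ℤ) : ZMod 7)

/-- The matrix of the generator `s` at the point. -/
def g0 (s : Fin 4) : Matrix (Fin 24) (Fin 24) (ZMod 7) := Pad.Pm (pg s)

/-- The derivatives of the matrix of the square of the generator `s`. -/
def T0 (l : Fin 3) (s : Fin 4) : Matrix (Fin 24) (Fin 24) (ZMod 7) := g0 s * gl l s + gl l s * g0 s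

open TrivSqZeroExt in
theorem ep_pow (a : ZMod 7) (n : ℕ) :
    ((Pad.eu a : (DualNumber (ZMod 7))ˣ) : DualNumber (ZMod 7)) ^ n =
      inl 1 + inr ((n : ZMod 7) * a) := by
  induction n with
  | zero => ext <;> simp
  | succ n ih =>
    rw [pow_succ, ih]
    change (inl 1 + inr ((n : ZMod 7) * a)) * (inl 1 + inr a) = _
    ext
    · simp
    · simp
      ring

open TrivSqZeroExt in
theorem ev_ep (a : Fin 3 → ZMod 7) (x : Pl) :
    ev ((Pad.eu (a 0) : (DualNumber (ZMod 7))ˣ) : DualNumber (ZMod 7))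
      ((Pad.eu (a 1) : (DualNumber (ZMod 7))ˣ) : DualNumber (ZMod 7))
      ((Pad.eu (a 2) : (DualNumber (ZMod 7))ˣ) : DualNumber (ZMod 7)) x =
      inl ((sw (fun _ => 1) x : ℤ) : ZMod 7) +
        inr (a 0 * ((sw (fun e => e.1) x : ℤ) : ZMod 7) +
          a 1 * ((sw (fun e => e.2.1) x : ℤ) : ZMod 7) +
          a 2 * ((sw (fun e => e.2.2) x : ℤ) : ZMod 7)) := by
  induction x with
  | nil =>
    ext <;> simp [ev, sw]
  | cons t x ih =>
    rw [ev_cons, ih, evm, ep_pow, ep_pow, ep_pow]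
    simp only [sw_cons]
    have h1 : ((t.1 : ℤ) : DualNumber (ZMod 7)) = inl ((t.1 : ℤ) : ZMod 7) :=
      (map_intCast (inlHom (ZMod 7) (ZMod 7)) t.1).symm
    rw [h1]
    ext
    · simp
    · simp
      ring

theorem g0_eq (s : Fin 4) (i j : Fin 24) :
    ((sw (fun _ => 1) (en s i j) : ℤ) : ZMod 7) = g0 s i j := by
  have h := congrFun (congrFun (gm_one s) i) j
  rw [gm_apply, ev_one_one] at h
  have h2 : sw (fun _ => 1) (en s i j) = Pad.Pm (pg s) i j := h
  rw [h2]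
  unfold g0 Pad.Pm
  simp only [Matrix.of_apply]
  split_ifs <;> simp

theorem g0_sq (s : Fin 4) : g0 s * g0 s = 1 := by
  unfold g0
  rw [← Pad.Pm_mul]
  have h : pg s * pg s = 1 := Equiv.ext (pf_inv s)
  rw [h, Pad.Pm_one]

open TrivSqZeroExt in
/-- **The family near the point `1`.** -/
theorem wpt {π : Art CoxeterMatrix.F₄ →* Equiv.Perm (Fin 24)}
    (hπ : ∀ s, π (gn CoxeterMatrix.F₄ s) = pg s) [Fact (Nat.Prime 7)] :
    Pad.WPt 7 fam (gn CoxeterMatrix.F₄) π T0 where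
  sq s := by
    rw [map_mul, hπ s]
    exact Equiv.ext (pf_inv s)
  fi := Pad.ordF4.1
  cop := Pad.ordF4.2
  one := fam_one hπ
  eps a s i j := by
    have h1 : ∀ i j : Fin 24,
        fam.rep (DualNumber (ZMod 7)) (fun l => Pad.eu (a l)) (gn CoxeterMatrix.F₄ s) i j =
          inl (g0 s i j) + inr ((∑ l, a l • gl l s) i j) := by
      intro i j
      rw [fam_gn, gm_apply, ev_ep]
      have e1 : (∑ l, a l • gl l s) i j =
          a 0 * ((sw (fun e => e.1) (en s i j) : ℤ) : ZMod 7) +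
          a 1 * ((sw (fun e => e.2.1) (en s i j) : ℤ) : ZMod 7) +
          a 2 * ((sw (fun e => e.2.2) (en s i j) : ℤ) : ZMod 7) := by
        rw [Fin.sum_univ_three]
        rfl
      rw [e1, ← g0_eq]
      rfl
    have h2 : (g0 s * g0 s) i j = (1 : Matrix (Fin 24) (Fin 24) (ZMod 7)) i j := by rw [g0_sq]
    have h3 : (∑ l, a l • T0 l s) = g0 s * (∑ l, a l • gl l s) + (∑ l, a l • gl l s) * g0 s := by
      unfold T0
      rw [Matrix.mul_sum, Matrix.sum_mul, ← Finset.sum_add_distrib]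
      refine Finset.sum_congr rfl fun l _ => ?_
      rw [Matrix.mul_smul, Matrix.smul_mul, smul_add]
    rw [map_mul, Matrix.mul_apply, h3, ← h2]
    simp only [h1]
    rw [Matrix.mul_apply, Matrix.add_apply, Matrix.mul_apply, Matrix.mul_apply]
    have h4 : ∀ x : Fin 24, (inl (g0 s i x) + inr ((∑ l, a l • gl l s) i x) :
        DualNumber (ZMod 7)) * (inl (g0 s x j) + inr ((∑ l, a l • gl l s) x j)) =
        inl (g0 s i x * g0 s x j) + inr (g0 s i x * (∑ l, a l • gl l s) x j +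
          (∑ l, a l • gl l s) i x * g0 s x j) := by
      intro x
      ext
      · simp
      · simp [mul_comm]
    rw [Finset.sum_congr rfl fun x _ => h4 x, Finset.sum_add_distrib, ← inl_sum, ← inr_sum,
      Finset.sum_add_distrib]

end Pool.Agent.Lib.MP_97567f_al.F4
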