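import Pool.Agent.Lib.MP_97567f_al.F4.Cert
import Pool.Agent.Lib.MP_97567f_al.F4.Wp

/-!
# MP_97567f_al: F4: the certificate for the family `fam`
-/

set_option autoImplicit false

namespace Pool.Agent.Lib.MP_97567f_al.F4

open Pool.Agent.Lib.MP_97567f_al.Pad Pool.Agent.Lib.MP_97567f_al.U Pool.Agent.Lib.MP_97567f_al.Ck

/-- The weights for the derivatives. -/
def wl (l : ℕ) (e : ℕ × ℕ × ℕ) : ℤ := if l = 0 then e.1 else if l = 1 then e.2.1 else e.2.2

private theorem gl_eq (l : Fin 3) (s : Fin 4) (i j : Fin 24) :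
    gl l s i j = ((sw (wl l) (en s i j) : ℤ) : ZMod 7) := by
  fin_cases l <;> rfl

/-- The comparison of the tables. -/
def cmpT : Bool := allN 3 fun l => allN 4 fun s => allN 24 fun i => allN 24 fun j =>
  ((if h : s < 4 then sw (wl l) (en ⟨s, h⟩ (dg f4_P (s * 24 + i)) j) +
    sw (wl l) (en ⟨s, h⟩ i (dg f4_P (s * 24 + j))) else 0) - (f4Tt l s i j : ℤ)) % 7 == 0

private theorem cmpT_ok : cmpT = true := by decide +kernel

theorem pf_P : ∀ (s : Fin 4) (i : Fin 24), (pf s i).1 = dg f4_P (s * 24 + i) := by decide +kernel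

theorem T0_eq : T0 = TF4 := by
  have h := cmpT_ok
  simp only [cmpT, allN_iff, beq_iff_eq] at h
  funext l s
  ext i j
  have h1 := h l l.2 s s.2 i i.2 j j.2
  rw [dif_pos s.2] at h1
  change (g0 s * gl l s + gl l s * g0 s) i j = ((f4Tt l s i j : ℕ) : ZMod 7)
  rw [Matrix.add_apply, g0, Pm_mul_apply, mul_Pm_apply]
  change gl l s (pf s i) j + gl l s i (pf s j) = _
  rw [gl_eq, gl_eq, pf_P, pf_P, ← Int.cast_add, ← sub_eq_zero, ← Int.cast_natCast (f4Tt l s i j),
    ← Int.cast_sub]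
  exact (ZMod.intCast_zmod_eq_zero_iff_dvd _ 7).2 (Int.dvd_of_emod_eq_zero h1)

/-- **The certificate for the family.** -/
theorem certF4_fam [Fact (Nat.Prime 7)] {π : Art CoxeterMatrix.F₄ →* Equiv.Perm (Fin 24)}
    (hπ : ∀ s, π (gn CoxeterMatrix.F₄ s) = pg s) :
    CertC 7 clF4 (gn CoxeterMatrix.F₄) π T0 (fun _ => 1) := by
  rw [T0_eq]
  refine certF4 fam π (fun s i => ?_) ?_
  · rw [hπ s]
    exact pf_P s i
  · rw [← T0_eq]
    exact wpt hπ

end Pool.Agent.Lib.MP_97567f_al.F4
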