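import Pool.Agent.Lib.MP_97567f_al.F4.Fam

/-!
# MP_97567f_al: type F4: the characteristic polynomials of the generators

Over every commutative ring: `(X - 1)^16 (X + p)^7 (X - p^2 m)` for a long generator, and
`(X - 1)^13 (X + q)^7 (X - p q)^3 (X - q^2 m)` for a short generator.
-/

set_option autoImplicit false

namespace Pool.Agent.Lib.MP_97567f_al.F4

open Polynomial

private theorem Chp_multiset {Ω : Type} [Field Ω] (x y z t : Ω) (s : Multiset Ω)
    (h : ∀ μ ∈ s, μ = x ∨ μ = y ∨ μ = z ∨ μ = t) :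
    ∃ m a b c : ℕ, (s.map fun w => X - C w).prod =
        (X - C x) ^ m * (X - C y) ^ a * (X - C z) ^ b * (X - C t) ^ c ∧
      s.sum = m * x + a * y + b * z + c * t := by
  induction s using Multiset.induction_on with
  | empty => exact ⟨0, 0, 0, 0, by simp, by simp⟩
  | cons w s ih =>
    obtain ⟨m, a, b, c, h1, h2⟩ := ih fun μ hμ => h μ (Multiset.mem_cons_of_mem hμ)
    rcases h w (Multiset.mem_cons_self w s) with h | h | h | h
    · refine ⟨m + 1, a, b, c, ?_, ?_⟩
      · rw [Multiset.map_cons, Multiset.prod_cons, h1, h]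
        ring
      · rw [Multiset.sum_cons, h2, h]
        push_cast
        ring
    · refine ⟨m, a + 1, b, c, ?_, ?_⟩
      · rw [Multiset.map_cons, Multiset.prod_cons, h1, h]
        ring
      · rw [Multiset.sum_cons, h2, h]
        push_cast
        ring
    · refine ⟨m, a, b + 1, c, ?_, ?_⟩
      · rw [Multiset.map_cons, Multiset.prod_cons, h1, h]
        ring
      · rw [Multiset.sum_cons, h2, h]
        push_cast
        ring
    · refine ⟨m, a, b, c + 1, ?_, ?_⟩
      · rw [Multiset.map_cons, Multiset.prod_cons, h1, h]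
        ring
      · rw [Multiset.sum_cons, h2, h]
        push_cast
        ring

private theorem Chp_split {ι Ω : Type} [Fintype ι] [DecidableEq ι] [Field Ω] [IsAlgClosed Ω]
    (G : Matrix ι ι Ω) (x y z t : Ω)
    (hG : (G - x • 1) * (G - y • 1) * (G - z • 1) * (G - t • 1) = 0) :
    ∃ m a b c : ℕ, G.charpoly = (X - C x) ^ m * (X - C y) ^ a * (X - C z) ^ b * (X - C t) ^ c ∧
      G.trace = m * x + a * y + b * z + c * t := by
  have hs : G.charpoly.Splits := IsAlgClosed.splits _
  have h3 : ∀ μ ∈ G.charpoly.roots, μ = x ∨ μ = y ∨ μ = z ∨ μ = t := by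
    intro μ hμ
    have h4 : G.charpoly.eval μ = 0 := (mem_roots'.1 hμ).2
    rw [Matrix.eval_charpoly] at h4
    obtain ⟨v, hv, h5⟩ := Matrix.exists_mulVec_eq_zero_iff.2 h4
    have h6 : G.mulVec v = μ • v := by
      rw [Matrix.sub_mulVec, sub_eq_zero] at h5
      rw [← h5]
      ext i
      simp [Matrix.scalar_apply, Matrix.mulVec_diagonal]
    have h7 : ∀ w : Ω, (G - w • (1 : Matrix ι ι Ω)).mulVec v = (μ - w) • v := by
      intro w
      rw [Matrix.sub_mulVec, Matrix.smul_mulVec, Matrix.one_mulVec, h6, ← sub_smul]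
    have h8 : ((G - x • (1 : Matrix ι ι Ω)) * (G - y • 1) * (G - z • 1) * (G - t • 1)).mulVec v =
        ((μ - x) * (μ - y) * (μ - z) * (μ - t)) • v := by
      simp only [← Matrix.mulVec_mulVec, h7, Matrix.mulVec_smul, smul_smul]
      congr 1
      ring
    rw [hG, Matrix.zero_mulVec] at h8
    have h9 := (smul_eq_zero_iff_left hv).1 h8.symm
    rcases mul_eq_zero.1 h9 with h9 | h9
    · rcases mul_eq_zero.1 h9 with h9 | h9
      · rcases mul_eq_zero.1 h9 with h9 | h9
        · exact Or.inl (sub_eq_zero.1 h9)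
        · exact Or.inr (Or.inl (sub_eq_zero.1 h9))
      · exact Or.inr (Or.inr (Or.inl (sub_eq_zero.1 h9)))
    · exact Or.inr (Or.inr (Or.inr (sub_eq_zero.1 h9)))
  obtain ⟨m, a, b, c, h1, h2⟩ := Chp_multiset x y z t _ h3
  refine ⟨m, a, b, c, ?_, ?_⟩
  · rw [← h1]
    exact hs.eq_prod_roots_of_monic (Matrix.charpoly_monic G)
  · rw [← h2]
    exact Matrix.trace_eq_sum_roots_charpoly_of_splits hs

/-! ### Traces -/

/-- The trace as a polynomial. -/
def trl (C : List Sv) : Pl := (List.range 24).flatMap fun i => ent C i i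

theorem ev_trl {R : Type*} [CommRing R] (p q m : R) (C : List Sv) :
    (matr p q m 24 C).trace = ev p q m (trl C) := by
  unfold trl
  rw [ev_flatMap, sum_range_fin 24 fun i => ev p q m (ent C i i)]
  rfl

private theorem Chp_ev0 (x : Pl) (h : (∀ t ∈ x, t.2.1 < 8 ∧ t.2.2.1 < 8 ∧ t.2.2.2 < 2) ∧
    nrm x < 1000 ∧ ev (1000 : ℤ) ((1000 : ℤ) ^ 8) ((1000 : ℤ) ^ (8 * 8)) x = 0) {R : Type*}
    [CommRing R] (p q m : R) : ev p q m x = 0 :=
  ev_zero (A := 8) (B := 8) (C := 2) (X := 1000) h.1 h.2.1 (by exact_mod_cast h.2.2) p q m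

private theorem Chp_trl (s : Fin 4) : (∀ t ∈ (trl (D s) ++ (if s = 0 ∨ s = 1 then
      [(-16, 0, 0, 0), (7, 1, 0, 0), (-1, 2, 0, 1)] else
      [(-13, 0, 0, 0), (7, 0, 1, 0), (-3, 1, 1, 0), (-1, 0, 2, 1)] : Pl)),
      t.2.1 < 8 ∧ t.2.2.1 < 8 ∧ t.2.2.2 < 2) ∧
    nrm (trl (D s) ++ (if s = 0 ∨ s = 1 then
      [(-16, 0, 0, 0), (7, 1, 0, 0), (-1, 2, 0, 1)] else
      [(-13, 0, 0, 0), (7, 0, 1, 0), (-3, 1, 1, 0), (-1, 0, 2, 1)] : Pl)) < 1000 ∧
    ev (1000 : ℤ) ((1000 : ℤ) ^ 8) ((1000 : ℤ) ^ (8 * 8)) (trl (D s) ++ (if s = 0 ∨ s = 1 then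
      [(-16, 0, 0, 0), (7, 1, 0, 0), (-1, 2, 0, 1)] else
      [(-13, 0, 0, 0), (7, 0, 1, 0), (-3, 1, 1, 0), (-1, 0, 2, 1)] : Pl)) = 0 := by
  revert s
  decide +kernel

/-- The traces of the long generators. -/
theorem tr_long {R : Type*} [CommRing R] (p q m : R) (s : Fin 4) (hs : s = 0 ∨ s = 1) :
    (gm p q m s).trace = 16 - 7 * p + p ^ 2 * m := by
  have h := Chp_ev0 _ (Chp_trl s) p q m
  rw [if_pos hs, ev_append, ← ev_trl] at h
  have e1 : ev p q m [(-16, 0, 0, 0), (7, 1, 0, 0), (-1, 2, 0, 1)] =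
      -(16 - 7 * p + p ^ 2 * m) := by
    simp [ev, evm]
    ring
  rw [e1] at h
  unfold gm
  linear_combination h

/-- The traces of the short generators. -/
theorem tr_short {R : Type*} [CommRing R] (p q m : R) (s : Fin 4) (hs : s = 2 ∨ s = 3) :
    (gm p q m s).trace = 13 - 7 * q + 3 * (p * q) + q ^ 2 * m := by
  have h := Chp_ev0 _ (Chp_trl s) p q m
  have hs' : ¬ (s = 0 ∨ s = 1) := by
    rcases hs with rfl | rfl <;> decide
  rw [if_neg hs', ev_append, ← ev_trl] at h
  have e1 : ev p q m [(-13, 0, 0, 0), (7, 0, 1, 0), (-3, 1, 1, 0), (-1, 0, 2, 1)] =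
      -(13 - 7 * q + 3 * (p * q) + q ^ 2 * m) := by
    simp [ev, evm]
    ring
  rw [e1] at h
  unfold gm
  linear_combination h

/-! ### The universal ring -/

private abbrev Chp_U : Type := MvPolynomial (Fin 3) ℤ

private noncomputable abbrev Chp_Om : Type := AlgebraicClosure (FractionRing Chp_U)

private noncomputable def Chp_ι : Chp_U →+* Chp_Om :=
  (algebraMap (FractionRing Chp_U) Chp_Om).comp (algebraMap Chp_U (FractionRing Chp_U))

private theorem Chp_inj : Function.Injective Chp_ι :=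
  (RingHom.injective (algebraMap (FractionRing Chp_U) Chp_Om)).comp
    (IsFractionRing.injective Chp_U (FractionRing Chp_U))

private theorem Chp_long0 (s : Fin 4) (hs : s = 0 ∨ s = 1) :
    (gm (MvPolynomial.X 0 : Chp_U) (MvPolynomial.X 1) (MvPolynomial.X 2) s).charpoly =
      (X - C 1) ^ 16 * (X + C (MvPolynomial.X 0)) ^ 7 *
        (X - C (MvPolynomial.X 0 ^ 2 * MvPolynomial.X 2)) := by
  set p : Chp_U := MvPolynomial.X 0 with hp
  set q : Chp_U := MvPolynomial.X 1 with hq
  set m : Chp_U := MvPolynomial.X 2 with hm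
  have h0 := gm_long (Chp_ι p) (Chp_ι q) (Chp_ι m) s hs
  obtain ⟨k, a, b, c, h1, h2⟩ := Chp_split (gm (Chp_ι p) (Chp_ι q) (Chp_ι m) s) 1 1
    (-Chp_ι p) (Chp_ι p ^ 2 * Chp_ι m) (by
      rw [one_smul, neg_smul, sub_neg_eq_add, mul_assoc (_ - 1) (_ - 1), mul_assoc (_ - 1),
        h0, mul_zero])
  rw [tr_long _ _ _ s hs] at h2
  have h3 : (16 - 7 * p + p ^ 2 * m : Chp_U) = (k : Chp_U) * 1 + a * 1 + b * (-p) +
      c * (p ^ 2 * m) := by
    apply Chp_inj
    simp only [map_add, map_mul, map_neg, map_sub, map_one, map_natCast, map_pow, map_ofNat]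
    exact h2
  have key : ∀ x y : ℤ, 16 - 7 * x + x ^ 2 * y = (k : ℤ) * 1 + a * 1 + b * (-x) +
      c * (x ^ 2 * y) := by
    intro x y
    have h4 := congrArg (MvPolynomial.eval (![x, 0, y] : Fin 3 → ℤ)) h3
    simpa [hp, hm] using h4
  have k1 := key 0 0
  have k2 := key 1 0
  have k3 := key 1 1
  have hka : k + a = 16 := by
    have : (k : ℤ) + a = 16 := by linarith
    exact_mod_cast this
  have hb : b = 7 := by
    have : (b : ℤ) = 7 := by linarith
    exact_mod_cast this
  have hc : c = 1 := by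
    have : (c : ℤ) = 1 := by linarith
    exact_mod_cast this
  apply Polynomial.map_injective Chp_ι Chp_inj
  rw [← Matrix.charpoly_map, gm_map, h1, hb, hc, ← hka, pow_add]
  simp only [Polynomial.map_mul, Polynomial.map_pow, Polynomial.map_sub, Polynomial.map_add,
    Polynomial.map_X, Polynomial.map_C, Polynomial.map_one, map_one, map_pow, map_mul, map_neg, sub_neg_eq_add,
    pow_one]

private theorem Chp_short0 (s : Fin 4) (hs : s = 2 ∨ s = 3) :
    (gm (MvPolynomial.X 0 : Chp_U) (MvPolynomial.X 1) (MvPolynomial.X 2) s).charpoly =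
      (X - C 1) ^ 13 * (X + C (MvPolynomial.X 1)) ^ 7 *
        (X - C (MvPolynomial.X 0 * MvPolynomial.X 1)) ^ 3 *
        (X - C (MvPolynomial.X 1 ^ 2 * MvPolynomial.X 2)) := by
  set p : Chp_U := MvPolynomial.X 0 with hp
  set q : Chp_U := MvPolynomial.X 1 with hq
  set m : Chp_U := MvPolynomial.X 2 with hm
  have h0 := gm_short (Chp_ι p) (Chp_ι q) (Chp_ι m) s hs
  obtain ⟨k, a, b, c, h1, h2⟩ := Chp_split (gm (Chp_ι p) (Chp_ι q) (Chp_ι m) s) 1
    (-Chp_ι q) (Chp_ι p * Chp_ι q) (Chp_ι q ^ 2 * Chp_ι m) (by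
      rw [one_smul, neg_smul, sub_neg_eq_add]
      exact h0)
  rw [tr_short _ _ _ s hs] at h2
  have h3 : (13 - 7 * q + 3 * (p * q) + q ^ 2 * m : Chp_U) = (k : Chp_U) * 1 + a * (-q) +
      b * (p * q) + c * (q ^ 2 * m) := by
    apply Chp_inj
    simp only [map_add, map_mul, map_neg, map_sub, map_one, map_natCast, map_pow, map_ofNat]
    exact h2
  have key : ∀ x y z : ℤ, 13 - 7 * y + 3 * (x * y) + y ^ 2 * z = (k : ℤ) * 1 + a * (-y) +
      b * (x * y) + c * (y ^ 2 * z) := by
    intro x y z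
    have h4 := congrArg (MvPolynomial.eval (![x, y, z] : Fin 3 → ℤ)) h3
    simpa [hp, hq, hm] using h4
  have k1 := key 0 0 0
  have k2 := key 0 1 0
  have k3 := key 1 1 0
  have k4 := key 0 1 1
  have hk : k = 13 := by
    have : (k : ℤ) = 13 := by linarith
    exact_mod_cast this
  have ha : a = 7 := by
    have : (a : ℤ) = 7 := by linarith
    exact_mod_cast this
  have hb : b = 3 := by
    have : (b : ℤ) = 3 := by linarith
    exact_mod_cast this
  have hc : c = 1 := by
    have : (c : ℤ) = 1 := by linarith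
    exact_mod_cast this
  apply Polynomial.map_injective Chp_ι Chp_inj
  rw [← Matrix.charpoly_map, gm_map, h1, hb, hc, hk, ha]
  simp only [Polynomial.map_mul, Polynomial.map_pow, Polynomial.map_sub, Polynomial.map_add,
    Polynomial.map_X, Polynomial.map_C, Polynomial.map_one, map_one, map_pow, map_mul, map_neg, sub_neg_eq_add,
    pow_one]

section general

variable {R : Type} [CommRing R] (p q m : R)

/-- The homomorphism from the universal ring. -/
private theorem Chp_hom : ∃ f : Chp_U →+* R, f (MvPolynomial.X 0) = p ∧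
    f (MvPolynomial.X 1) = q ∧ f (MvPolynomial.X 2) = m :=
  ⟨MvPolynomial.eval₂Hom (Int.castRingHom R) ![p, q, m], by simp, by simp, by simp⟩

/-- **The characteristic polynomial of a long generator.** -/
theorem chp_long (s : Fin 4) (hs : s = 0 ∨ s = 1) : (gm p q m s).charpoly =
    (X - C 1) ^ 16 * (X + C p) ^ 7 * (X - C (p ^ 2 * m)) := by
  obtain ⟨f, h0, h1, h2⟩ := Chp_hom p q m
  have h := congrArg (Polynomial.map f) (Chp_long0 s hs)
  rw [← Matrix.charpoly_map, gm_map, h0, h1, h2] at h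
  rw [h]
  simp only [Polynomial.map_mul, Polynomial.map_pow, Polynomial.map_sub, Polynomial.map_add,
    Polynomial.map_X, Polynomial.map_C, Polynomial.map_one, map_one, map_pow, map_mul, h0, h2]

/-- **The characteristic polynomial of a short generator.** -/
theorem chp_short (s : Fin 4) (hs : s = 2 ∨ s = 3) : (gm p q m s).charpoly =
    (X - C 1) ^ 13 * (X + C q) ^ 7 * (X - C (p * q)) ^ 3 * (X - C (q ^ 2 * m)) := by
  obtain ⟨f, h0, h1, h2⟩ := Chp_hom p q m
  have h := congrArg (Polynomial.map f) (Chp_short0 s hs)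
  rw [← Matrix.charpoly_map, gm_map, h0, h1, h2] at h
  rw [h]
  simp only [Polynomial.map_mul, Polynomial.map_pow, Polynomial.map_sub, Polynomial.map_add,
    Polynomial.map_X, Polynomial.map_C, Polynomial.map_one, map_one, map_pow, map_mul, h0, h1, h2]

end general

end Pool.Agent.Lib.MP_97567f_al.F4
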