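import Pool.Agent.Lib.MP_97567f_al.F4.Kr

/-!
# MP_97567f_al: type F4: the matrices of the representation of dimension 24 with three parameters

The basis is indexed by the positive roots of `F₄` in the following order (coefficients of the simple roots):
1000, 0100, 0010, 0001, 1100, 0110, 0011, 1110, 0120, 0111, 1120, 1111,
0121, 1220, 1121, 0122, 1221, 1122, 1231, 1222, 1232, 1242, 1342, 2342.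
The nodes 0, 1 are long, the nodes 2, 3 are short. A monomial `(c, i, j, k)` stands for `c p^i q^j m^k`. `c0`, .., `c3`: the
rows of the matrices of the generators, `(j, x)` in row `i` is the entry `x` in column `j`.
-/

set_option autoImplicit false

namespace Pool.Agent.Lib.MP_97567f_al.F4

/-- The rows of the matrix of the generator 0. -/
def c0 : List Sv :=
  [[(0, [(1, 2, 0, 1)]), (4, [(-1, 2, 0, 1), (1, 3, 0, 1)]), (7, [(-1, 2, 1, 1), (-1, 3, 0, 1), (1,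
   3, 1, 1), (1, 4, 0, 1)]), (10, [(-1, 2, 2, 1), (1, 3, 2, 1)]), (11, [(-1, 2, 2, 1), (-1, 3, 1,
   1), (1, 3, 2, 1), (1, 4, 1, 1)]), (13, [(1, 2, 1, 1), (-1, 3, 1, 1), (-1, 3, 2, 1), (1, 4, 2,
   1)]), (14, [(-1, 2, 3, 1), (-1, 3, 2, 1), (1, 3, 3, 1), (1, 4, 2, 1)]), (16, [(1, 2, 2, 1), (1,
   3, 1, 1), (-1, 3, 2, 1), (-1, 3, 3, 1), (-1, 4, 1, 1), (-1, 4, 2, 1), (1, 4, 3, 1), (1, 5, 2,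
   1)]), (17, [(-1, 2, 4, 1), (1, 3, 4, 1)]), (18, [(1, 2, 3, 1), (1, 3, 2, 1), (-1, 3, 3, 1), (-1,
   3, 4, 1), (-1, 4, 2, 1), (-1, 4, 3, 1), (1, 4, 4, 1), (1, 5, 3, 1)]), (19, [(1, 2, 3, 1), (-1, 3,
   3, 1), (-1, 3, 4, 1), (1, 4, 4, 1)]), (20, [(1, 2, 4, 1), (1, 3, 3, 1), (-1, 3, 4, 1), (-1, 3, 5,
   1), (-1, 4, 3, 1), (-1, 4, 4, 1), (1, 4, 5, 1), (1, 5, 4, 1)]), (21, [(1, 2, 5, 1), (-1, 3, 5,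
   1), (-1, 3, 6, 1), (1, 4, 6, 1)]), (22, [(-1, 2, 3, 1), (1, 3, 3, 1), (1, 3, 4, 1), (1, 3, 5, 1),
   (-1, 4, 4, 1), (-1, 4, 5, 1), (-1, 4, 6, 1), (1, 5, 6, 1)]), (23, [(-1, 5, 6, 1), (1, 6, 6,
   1)])], [(1, [(1, 0, 0, 0), (-1, 1, 0, 0)]), (4, [(1, 1, 0, 0)])], [(2, [(1, 0, 0, 0)])], [(3,
   [(1, 0, 0, 0)])], [(1, [(1, 0, 0, 0)])], [(5, [(1, 0, 0, 0), (-1, 1, 0, 0)]), (7, [(1, 1, 0,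
   0)])], [(6, [(1, 0, 0, 0)])], [(5, [(1, 0, 0, 0)])], [(8, [(1, 0, 0, 0), (-1, 1, 0, 0)]), (10,
   [(1, 1, 0, 0)])], [(9, [(1, 0, 0, 0), (-1, 1, 0, 0)]), (11, [(1, 1, 0, 0)])], [(8, [(1, 0, 0,
   0)])], [(9, [(1, 0, 0, 0)])], [(12, [(1, 0, 0, 0), (-1, 1, 0, 0)]), (14, [(1, 1, 0, 0)])], [(13,
   [(1, 0, 0, 0)])], [(12, [(1, 0, 0, 0)])], [(15, [(1, 0, 0, 0), (-1, 1, 0, 0)]), (17, [(1, 1, 0,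
   0)])], [(16, [(1, 0, 0, 0)])], [(15, [(1, 0, 0, 0)])], [(18, [(1, 0, 0, 0)])], [(19, [(1, 0, 0,
   0)])], [(20, [(1, 0, 0, 0)])], [(21, [(1, 0, 0, 0)])], [(22, [(1, 0, 0, 0), (-1, 1, 0, 0)]), (23,
   [(1, 1, 0, 0)])], [(22, [(1, 0, 0, 0)])]]

/-- The rows of the matrix of the generator 1. -/
def c1 : List Sv :=
  [[(0, [(1, 0, 0, 0), (-1, 1, 0, 0)]), (4, [(1, 1, 0, 0)])], [(1, [(1, 2, 0, 1)]), (4, [(-1, 2, 0,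
   1), (1, 3, 0, 1)]), (5, [(-1, 1, 1, 1), (-1, 2, 0, 1), (1, 2, 1, 1), (1, 3, 0, 1)]), (7, [(1, 1,
   1, 1), (1, 2, 0, 1), (-2, 2, 1, 1), (-2, 3, 0, 1), (1, 3, 1, 1), (1, 4, 0, 1)]), (8, [(1, 1, 1,
   1), (-1, 1, 2, 1), (-1, 2, 1, 1), (1, 2, 2, 1)]), (9, [(-1, 1, 2, 1), (-1, 2, 1, 1), (1, 2, 2,
   1), (1, 3, 1, 1)]), (10, [(-1, 1, 1, 1), (1, 1, 2, 1), (2, 2, 1, 1), (-2, 2, 2, 1), (-1, 3, 1,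
   1), (1, 3, 2, 1)]), (11, [(1, 1, 2, 1), (1, 2, 1, 1), (-2, 2, 2, 1), (-2, 3, 1, 1), (1, 3, 2, 1),
   (1, 4, 1, 1)]), (12, [(1, 1, 2, 1), (-1, 1, 3, 1), (1, 2, 1, 1), (-2, 2, 2, 1), (1, 2, 3, 1),
   (-1, 3, 1, 1), (1, 3, 2, 1)]), (13, [(-1, 3, 2, 1), (1, 4, 2, 1)]), (14, [(-1, 1, 2, 1), (1, 1,
   3, 1), (-1, 2, 1, 1), (3, 2, 2, 1), (-2, 2, 3, 1), (2, 3, 1, 1), (-3, 3, 2, 1), (1, 3, 3, 1),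
   (-1, 4, 1, 1), (1, 4, 2, 1)]), (15, [(1, 1, 3, 1), (-1, 1, 4, 1), (-1, 2, 3, 1), (1, 2, 4, 1)]),
   (16, [(-1, 3, 3, 1), (-1, 4, 2, 1), (1, 4, 3, 1), (1, 5, 2, 1)]), (17, [(-1, 1, 3, 1), (1, 1, 4,
   1), (2, 2, 3, 1), (-2, 2, 4, 1), (-1, 3, 3, 1), (1, 3, 4, 1)]), (18, [(1, 2, 3, 1), (1, 3, 2, 1),
   (-1, 3, 3, 1), (-1, 3, 4, 1), (-1, 4, 2, 1), (-1, 4, 3, 1), (1, 4, 4, 1), (1, 5, 3, 1)]), (19,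
   [(-1, 3, 4, 1), (1, 4, 4, 1)]), (20, [(1, 2, 4, 1), (1, 3, 3, 1), (-1, 3, 4, 1), (-1, 3, 5, 1),
   (-1, 4, 3, 1), (-1, 4, 4, 1), (1, 4, 5, 1), (1, 5, 4, 1)]), (21, [(-1, 2, 3, 1), (1, 2, 5, 1),
   (1, 3, 3, 1), (1, 3, 4, 1), (-1, 3, 5, 1), (-1, 3, 6, 1), (-1, 4, 4, 1), (1, 4, 6, 1)]), (22,
   [(-1, 4, 6, 1), (1, 5, 6, 1)]), (23, [(1, 3, 5, 1), (-1, 4, 5, 1), (-1, 5, 6, 1), (1, 6, 6,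
   1)])], [(2, [(1, 0, 0, 0), (-1, 1, 0, 0)]), (5, [(1, 1, 0, 0)])], [(3, [(1, 0, 0, 0)])], [(0,
   [(1, 0, 0, 0)])], [(2, [(1, 0, 0, 0)])], [(6, [(1, 0, 0, 0), (-1, 1, 0, 0)]), (9, [(1, 1, 0,
   0)])], [(7, [(1, 0, 0, 0)])], [(8, [(1, 0, 0, 0)])], [(6, [(1, 0, 0, 0)])], [(10, [(1, 0, 0, 0),
   (-1, 1, 0, 0)]), (13, [(1, 1, 0, 0)])], [(11, [(1, 0, 0, 0)])], [(12, [(1, 0, 0, 0)])], [(10,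
   [(1, 0, 0, 0)])], [(14, [(1, 0, 0, 0), (-1, 1, 0, 0)]), (16, [(1, 1, 0, 0)])], [(15, [(1, 0, 0,
   0)])], [(14, [(1, 0, 0, 0)])], [(17, [(1, 0, 0, 0), (-1, 1, 0, 0)]), (19, [(1, 1, 0, 0)])], [(18,
   [(1, 0, 0, 0)])], [(17, [(1, 0, 0, 0)])], [(20, [(1, 0, 0, 0)])], [(21, [(1, 0, 0, 0), (-1, 1, 0,
   0)]), (22, [(1, 1, 0, 0)])], [(21, [(1, 0, 0, 0)])], [(23, [(1, 0, 0, 0)])]]

/-- The rows of the matrix of the generator 2. -/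
def c2 : List Sv :=
  [[(0, [(1, 0, 0, 0)])], [(1, [(1, 0, 0, 0), (-1, 0, 1, 0), (-1, 1, 0, 0), (1, 1, 1, 0)]), (5, [(1,
   0, 1, 0), (1, 1, 0, 0), (-1, 1, 1, 0), (-1, 2, 0, 0)]), (8, [(1, 0, 2, 0)])], [(2, [(1, 0, 2,
   1)]), (5, [(-1, 0, 2, 1), (1, 1, 2, 1)]), (6, [(-1, 0, 2, 1), (1, 0, 3, 1)]), (7, [(-1, 1, 2, 1),
   (1, 2, 2, 1)]), (8, [(-1, 1, 2, 1), (1, 1, 3, 1)]), (9, [(1, 0, 2, 1), (-1, 0, 3, 1), (-1, 1, 2,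
   1), (1, 1, 3, 1)]), (10, [(-1, 2, 2, 1), (1, 2, 3, 1)]), (11, [(1, 1, 2, 1), (-1, 1, 3, 1), (-1,
   2, 2, 1), (1, 2, 3, 1)]), (12, [(1, 1, 2, 1), (-2, 1, 3, 1), (1, 1, 4, 1), (-1, 2, 2, 1), (1, 2,
   3, 1)]), (13, [(1, 1, 2, 1), (-1, 1, 3, 1), (-1, 3, 2, 1), (1, 3, 3, 1)]), (14, [(1, 2, 2, 1),
   (-2, 2, 3, 1), (1, 2, 4, 1), (-1, 3, 2, 1), (1, 3, 3, 1)]), (15, [(1, 1, 3, 1), (-2, 1, 4, 1),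
   (1, 1, 5, 1)]), (16, [(-1, 1, 2, 1), (2, 1, 3, 1), (-1, 1, 4, 1), (1, 2, 2, 1), (-1, 2, 3, 1),
   (1, 3, 2, 1), (-2, 3, 3, 1), (1, 3, 4, 1), (-1, 4, 2, 1), (1, 4, 3, 1)]), (17, [(1, 2, 3, 1),
   (-2, 2, 4, 1), (1, 2, 5, 1)]), (18, [(1, 2, 3, 1), (-1, 2, 4, 1), (-1, 3, 4, 1), (1, 3, 5, 1),
   (-1, 4, 3, 1), (1, 4, 4, 1)]), (19, [(-1, 1, 3, 1), (2, 1, 4, 1), (-1, 1, 5, 1), (1, 3, 3, 1),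
   (-2, 3, 4, 1), (1, 3, 5, 1)]), (20, [(-1, 2, 3, 1), (1, 2, 4, 1), (-1, 2, 5, 1), (1, 3, 3, 1),
   (-1, 3, 5, 1), (1, 3, 6, 1), (1, 4, 3, 1), (-2, 4, 4, 1), (1, 4, 5, 1)]), (21, [(-1, 3, 6, 1),
   (1, 3, 7, 1)]), (22, [(1, 2, 5, 1), (-1, 2, 6, 1), (-1, 4, 6, 1), (1, 4, 7, 1)]), (23, [(1, 3, 5,
   1), (-1, 3, 6, 1), (-1, 5, 6, 1), (1, 5, 7, 1)])], [(3, [(1, 0, 0, 0), (-1, 0, 1, 0)]), (6, [(1,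
   0, 1, 0)])], [(4, [(1, 0, 0, 0), (-1, 0, 1, 0), (-1, 1, 0, 0), (1, 1, 1, 0)]), (7, [(1, 0, 1, 0),
   (1, 1, 0, 0), (-1, 1, 1, 0), (-1, 2, 0, 0)]), (10, [(1, 0, 2, 0)])], [(1, [(1, 0, 0, 0), (-1, 0,
   1, 0)]), (5, [(1, 1, 0, 0)])], [(3, [(1, 0, 0, 0)])], [(4, [(1, 0, 0, 0), (-1, 0, 1, 0)]), (7,
   [(1, 1, 0, 0)])], [(1, [(1, 0, 0, 0)])], [(9, [(1, 0, 0, 0), (-1, 0, 1, 0)]), (12, [(1, 0, 1,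
   0)])], [(4, [(1, 0, 0, 0)])], [(11, [(1, 0, 0, 0), (-1, 0, 1, 0)]), (14, [(1, 0, 1, 0)])], [(9,
   [(1, 0, 0, 0)])], [(13, [(1, 0, 0, 0)])], [(11, [(1, 0, 0, 0)])], [(15, [(1, 0, 0, 0)])], [(16,
   [(1, 0, 0, 0), (-1, 0, 1, 0)]), (18, [(1, 0, 1, 0)])], [(17, [(1, 0, 0, 0)])], [(16, [(1, 0, 0,
   0)])], [(19, [(1, 0, 0, 0), (-1, 0, 1, 0), (-1, 1, 0, 0), (1, 1, 1, 0)]), (20, [(1, 0, 1, 0), (1,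
   1, 0, 0), (-1, 1, 1, 0), (-1, 2, 0, 0)]), (21, [(1, 0, 2, 0)])], [(19, [(1, 0, 0, 0), (-1, 0, 1,
   0)]), (20, [(1, 1, 0, 0)])], [(19, [(1, 0, 0, 0)])], [(22, [(1, 0, 0, 0)])], [(23, [(1, 0, 0,
   0)])]]

/-- The rows of the matrix of the generator 3. -/
def c3 : List Sv :=
  [[(0, [(1, 0, 0, 0)])], [(1, [(1, 0, 0, 0)])], [(2, [(1, 0, 0, 0), (-1, 0, 1, 0)]), (6, [(1, 0, 1,
   0)])], [(3, [(1, 0, 2, 1)]), (6, [(-1, 0, 2, 1), (1, 0, 3, 1)]), (9, [(-1, 1, 2, 1), (1, 1, 3,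
   1)]), (11, [(-1, 2, 2, 1), (1, 2, 3, 1)]), (12, [(-1, 0, 3, 1), (1, 1, 2, 1), (-1, 1, 3, 1), (1,
   1, 4, 1)]), (14, [(-1, 1, 3, 1), (1, 2, 2, 1), (-1, 2, 3, 1), (1, 2, 4, 1)]), (15, [(-1, 1, 4,
   1), (1, 1, 5, 1)]), (16, [(-1, 2, 3, 1), (1, 3, 2, 1), (-1, 3, 3, 1), (1, 3, 4, 1)]), (17, [(-1,
   2, 4, 1), (1, 2, 5, 1)]), (18, [(1, 1, 3, 1), (-1, 1, 4, 1), (1, 2, 3, 1), (-1, 2, 4, 1), (-1, 3,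
   2, 1), (1, 3, 3, 1), (-1, 3, 4, 1), (1, 3, 5, 1)]), (19, [(-1, 3, 4, 1), (1, 3, 5, 1)]), (20,
   [(1, 1, 4, 1), (-1, 1, 5, 1), (-1, 3, 5, 1), (1, 3, 6, 1), (-1, 4, 4, 1), (1, 4, 5, 1)]), (21,
   [(1, 1, 5, 1), (-1, 1, 6, 1), (-1, 3, 6, 1), (1, 3, 7, 1)]), (22, [(1, 2, 5, 1), (-1, 2, 6, 1),
   (-1, 4, 6, 1), (1, 4, 7, 1)]), (23, [(1, 3, 5, 1), (-1, 3, 6, 1), (-1, 5, 6, 1), (1, 5, 7, 1)])],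
   [(4, [(1, 0, 0, 0)])], [(5, [(1, 0, 0, 0), (-1, 0, 1, 0)]), (9, [(1, 0, 1, 0)])], [(2, [(1, 0, 0,
   0)])], [(7, [(1, 0, 0, 0), (-1, 0, 1, 0)]), (11, [(1, 0, 1, 0)])], [(8, [(1, 0, 0, 0), (-1, 0, 1,
   0), (-1, 1, 0, 0), (1, 1, 1, 0)]), (12, [(1, 0, 1, 0), (1, 1, 0, 0), (-1, 1, 1, 0), (-1, 2, 0,
   0)]), (15, [(1, 0, 2, 0)])], [(5, [(1, 0, 0, 0)])], [(10, [(1, 0, 0, 0), (-1, 0, 1, 0), (-1, 1,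
   0, 0), (1, 1, 1, 0)]), (14, [(1, 0, 1, 0), (1, 1, 0, 0), (-1, 1, 1, 0), (-1, 2, 0, 0)]), (17,
   [(1, 0, 2, 0)])], [(7, [(1, 0, 0, 0)])], [(8, [(1, 0, 0, 0), (-1, 0, 1, 0)]), (12, [(1, 1, 0,
   0)])], [(13, [(1, 0, 0, 0), (-1, 0, 1, 0), (-1, 1, 0, 0), (1, 1, 1, 0)]), (16, [(1, 0, 1, 0), (1,
   1, 0, 0), (-1, 1, 1, 0), (-1, 2, 0, 0)]), (19, [(1, 0, 2, 0)])], [(10, [(1, 0, 0, 0), (-1, 0, 1,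
   0)]), (14, [(1, 1, 0, 0)])], [(8, [(1, 0, 0, 0)])], [(13, [(1, 0, 0, 0), (-1, 0, 1, 0)]), (16,
   [(1, 1, 0, 0)])], [(10, [(1, 0, 0, 0)])], [(18, [(1, 0, 0, 0), (-1, 0, 1, 0)]), (20, [(1, 0, 1,
   0)])], [(13, [(1, 0, 0, 0)])], [(18, [(1, 0, 0, 0)])], [(21, [(1, 0, 0, 0)])], [(22, [(1, 0, 0,
   0)])], [(23, [(1, 0, 0, 0)])]]

/-- The rows of the matrices of the generators. -/
def D (s : Fin 4) : List Sv :=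
  match s with
  | 0 => c0
  | 1 => c1
  | 2 => c2
  | 3 => c3

/-- The multiple `x` of the identity is added. -/
def addD (x : Pl) (C : List Sv) : List Sv := C.mapIdx fun i r => (i, x) :: r

theorem ok0 : okC 24 128 6 7 1 c0 = true := by decide +kernel

theorem ok1 : okC 24 128 6 7 1 c1 = true := by decide +kernel

theorem ok2 : okC 24 128 6 7 1 c2 = true := by decide +kernel

theorem ok3 : okC 24 128 6 7 1 c3 = true := by decide +kernel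

end Pool.Agent.Lib.MP_97567f_al.F4
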