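import Pool.Agent.Lib.MP_97567f_al.F4.Un
import Pool.Agent.Lib.MP_97567f_al.Pad.Rtu

/-!
# MP_97567f_al: type F4: the eigenvalues
-/

set_option autoImplicit false

namespace Pool.Agent.Lib.MP_97567f_al.F4

open Polynomial Pool.Agent.Lib.MP_97567f_al.U

section Eg

variable {p : ℕ} [Fact p.Prime]

/-- `x = 1 + p y` with `y = a` modulo `p`. -/
private def Eg_N (x : ℤ_[p]) (a : ZMod p) : Prop :=
  ∃ y : ℤ_[p], x = 1 + (p : ℤ_[p]) * y ∧ PadicInt.toZMod y = a

private theorem Eg_p : PadicInt.toZMod (p : ℤ_[p]) = 0 := by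
  rw [map_natCast, ZMod.natCast_self]

private theorem Eg_one : Eg_N (1 : ℤ_[p]) 0 := ⟨0, by simp, map_zero _⟩

private theorem Eg_mul {x x' : ℤ_[p]} {a a' : ZMod p} (h : Eg_N x a) (h' : Eg_N x' a') :
    Eg_N (x * x') (a + a') := by
  obtain ⟨y, rfl, rfl⟩ := h
  obtain ⟨y', rfl, rfl⟩ := h'
  refine ⟨y + y' + (p : ℤ_[p]) * (y * y'), by ring, ?_⟩
  rw [map_add, map_add, map_mul, Eg_p, zero_mul, add_zero]

private theorem Eg_red {x : ℤ_[p]} {a : ZMod p} (h : Eg_N x a) : PadicInt.toZMod x = 1 := by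
  obtain ⟨y, rfl, -⟩ := h
  rw [map_add, map_mul, Eg_p, zero_mul, add_zero, map_one]

private theorem Eg_ne {x x' : ℤ_[p]} {a a' : ZMod p} (h : Eg_N x a) (h' : Eg_N x' a')
    (haa : a ≠ a') : (x : ℚ_[p]) ≠ (x' : ℚ_[p]) := by
  intro he
  have he' : x = x' := Subtype.ext he
  obtain ⟨y, rfl, rfl⟩ := h
  obtain ⟨y', h1, rfl⟩ := h'
  have hp0 : (p : ℤ_[p]) ≠ 0 := by exact_mod_cast (Fact.out : p.Prime).ne_zero
  have h2 : (1 : ℤ_[p]) + (p : ℤ_[p]) * y = 1 + (p : ℤ_[p]) * y' := he'.trans h1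
  have h3 : y = y' := mul_left_cancel₀ hp0 (add_left_cancel h2)
  exact haa (by rw [h3])

private theorem Eg_neg {x x' : ℤ_[p]} {a a' : ZMod p} (h : Eg_N x a) (h' : Eg_N x' a')
    (hp : p ≠ 2) : (x : ℚ_[p]) ≠ -(x' : ℚ_[p]) := by
  intro he
  have he' : x = -x' := by
    apply Subtype.ext
    rw [he]
    push_cast
    rfl
  have h1 := Eg_red h
  rw [he', map_neg, Eg_red h'] at h1
  have h3 : ((2 : ℕ) : ZMod p) = 0 := by
    push_cast
    linear_combination -h1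
  rw [ZMod.natCast_eq_zero_iff] at h3
  exact hp ((Nat.prime_dvd_prime_iff_eq (Fact.out : p.Prime) Nat.prime_two).1 h3)

end Eg

/-- The roots of the characteristic polynomial of a multiple are images of units. -/
private theorem Eg_key {L F : Type} [CommRing L] [IsDomain L] [IsIntegrallyClosed L] [CharZero L]
    [Field F] [Infinite F] (ψ : L →+* F) (hψ : Function.Injective ψ) {ι : Type} [Fintype ι]
    [DecidableEq ι] (A : Matrix ι ι F) {k : ℕ} (w : Fin k → F) (m : Fin k → ℕ)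
    (hw : Function.Injective w) (hm : Function.Injective m) (hpos : ∀ j, 0 < m j)
    (hA : A.charpoly = ∏ j, (X - C (w j)) ^ m j) (e : F) (he : e ≠ 0)
    (hP : ∃ P : L[X], P.Monic ∧ IsUnit (P.coeff 0) ∧ P.map ψ = (e • A).charpoly) :
    ∀ j, ∃ v : Lˣ, ψ v = e * w j := by
  obtain ⟨P, hP1, hP2, hP3⟩ := hP
  rw [chp_scale A e he w m hA] at hP3
  have h := (Pad.pRtu L F ψ hψ P k (fun j => e * w j) m hP1 hP2 hpos hP3).1
    (fun i j hij => hw (mul_left_cancel₀ he hij))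
  intro j
  exact h j fun i hi h' => hi (hm h')

/-- Images of units. -/
private def Eg_U {L F : Type} [CommRing L] [Field F] (ψ : L →+* F) (x : F) : Prop :=
  ∃ v : Lˣ, ψ v = x

private theorem Eg_Umul {L F : Type} [CommRing L] [Field F] {ψ : L →+* F} {x y : F}
    (hx : Eg_U ψ x) (hy : Eg_U ψ y) : Eg_U ψ (x * y) := by
  obtain ⟨v, rfl⟩ := hx
  obtain ⟨w, rfl⟩ := hy
  exact ⟨v * w, by rw [Units.val_mul, map_mul]⟩

private theorem Eg_Uneg {L F : Type} [CommRing L] [Field F] {ψ : L →+* F} {x : F}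
    (hx : Eg_U ψ x) : Eg_U ψ (-x) := by
  obtain ⟨v, rfl⟩ := hx
  exact ⟨-v, by rw [Units.val_neg, map_neg]⟩

private theorem Eg_Uinv {L F : Type} [CommRing L] [Field F] {ψ : L →+* F} {x : F}
    (hx : Eg_U ψ x) : Eg_U ψ x⁻¹ := by
  obtain ⟨v, rfl⟩ := hx
  refine ⟨v⁻¹, ?_⟩
  have h3 : ψ ((v⁻¹ : Lˣ) : L) * ψ v = 1 := by
    rw [← map_mul, Units.inv_mul, map_one]
  exact eq_inv_of_mul_eq_one_left h3

/-- **The eigenvalues.** -/
theorem eigF4 (p : ℕ) [Fact p.Prime] (hp : p ≠ 2) (u : Fin 3 → ZMod p) (h1 : 2 * u 0 + u 2 ≠ 0)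
    (h2 : u 0 + u 1 ≠ 0) (h3 : 2 * u 1 + u 2 ≠ 0) (h4 : u 0 ≠ u 1 + u 2) :
    Pad.EigU p fam (gn CoxeterMatrix.F₄) u := by
  intro L _ _ _ _ ψ hψ θ γ hN hP
  have n0 : Eg_N (θ 0 : ℤ_[p]) (u 0) := hN 0
  have n1 : Eg_N (θ 1 : ℤ_[p]) (u 1) := hN 1
  have n2 : Eg_N (θ 2 : ℤ_[p]) (u 2) := hN 2
  set P : ℚ_[p] := ((θ 0 : ℤ_[p]) : ℚ_[p]) with hPd
  set Q : ℚ_[p] := ((θ 1 : ℤ_[p]) : ℚ_[p]) with hQd
  set M : ℚ_[p] := ((θ 2 : ℤ_[p]) : ℚ_[p]) with hMd
  have P0 : P ≠ 0 := fun h => (θ 0).ne_zero (Subtype.ext h)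
  have Q0 : Q ≠ 0 := fun h => (θ 1).ne_zero (Subtype.ext h)
  have e0 : ∀ s, (((γ s : ℤ_[p]) : ℚ_[p])) ≠ 0 := fun s h => (γ s).ne_zero (Subtype.ext h)
  -- the matrices over the field
  have hmat : ∀ s, ∃ T : L[X], T.Monic ∧ IsUnit (T.coeff 0) ∧
      T.map ψ = ((((γ s : ℤ_[p]) : ℚ_[p])) • gm P Q M s).charpoly := by
    intro s
    obtain ⟨T, t1, t2, t3⟩ := hP s
    refine ⟨T, t1, t2, ?_⟩
    rw [t3, ← Matrix.charpoly_map, fam_gn]
    have h5 : ((γ s : ℤ_[p]) • gm (θ 0 : ℤ_[p]) (θ 1 : ℤ_[p]) (θ 2 : ℤ_[p]) s).map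
        (algebraMap ℤ_[p] ℚ_[p]) = (((γ s : ℤ_[p]) : ℚ_[p])) • gm P Q M s := by
      have h6 := gm_map (θ 0 : ℤ_[p]) (θ 1 : ℤ_[p]) (θ 2 : ℤ_[p]) (algebraMap ℤ_[p] ℚ_[p]) s
      have h7 : (gm (θ 0 : ℤ_[p]) (θ 1 : ℤ_[p]) (θ 2 : ℤ_[p]) s).map (algebraMap ℤ_[p] ℚ_[p]) =
          gm P Q M s := h6
      rw [← h7]
      ext i j
      simp only [Matrix.map_apply, Matrix.smul_apply, smul_eq_mul, map_mul]
      rfl
    rw [h5]
  -- different eigenvalues of the long generators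
  have dl : Function.Injective (![1, -P, P ^ 2 * M] : Fin 3 → ℚ_[p]) := by
    have nl := Eg_mul (Eg_mul n0 n0) n2
    have q1 : (1 : ℚ_[p]) ≠ -P := by
      have := Eg_neg Eg_one n0 hp
      rwa [PadicInt.coe_one] at this
    have q2 : (1 : ℚ_[p]) ≠ P ^ 2 * M := by
      have := Eg_ne Eg_one nl (by
        intro h
        apply h1
        linear_combination -h)
      rw [PadicInt.coe_one] at this
      intro h
      apply this
      rw [h]
      push_cast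
      ring
    have q3 : P ^ 2 * M ≠ -P := by
      have := Eg_neg nl n0 hp
      intro h
      apply this
      rw [← hPd, ← h]
      push_cast
      ring
    intro i j hij
    fin_cases i <;> fin_cases j <;> first
      | rfl
      | exact absurd hij q1
      | exact absurd hij.symm q1
      | exact absurd hij q2
      | exact absurd hij.symm q2
      | exact absurd hij q3
      | exact absurd hij.symm q3
  have ds : Function.Injective (![1, -Q, P * Q, Q ^ 2 * M] : Fin 4 → ℚ_[p]) := by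
    have npq := Eg_mul n0 n1
    have nl := Eg_mul (Eg_mul n1 n1) n2
    have q1 : (1 : ℚ_[p]) ≠ -Q := by
      have := Eg_neg Eg_one n1 hp
      rwa [PadicInt.coe_one] at this
    have q2 : (1 : ℚ_[p]) ≠ P * Q := by
      have := Eg_ne Eg_one npq (by
        intro h
        exact h2 h.symm)
      rw [PadicInt.coe_one] at this
      intro h
      apply this
      rw [h]
      push_cast
      ring
    have q3 : (1 : ℚ_[p]) ≠ Q ^ 2 * M := by
      have := Eg_ne Eg_one nl (by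
        intro h
        apply h3
        linear_combination -h)
      rw [PadicInt.coe_one] at this
      intro h
      apply this
      rw [h]
      push_cast
      ring
    have q4 : P * Q ≠ -Q := by
      have := Eg_neg npq n1 hp
      intro h
      apply this
      rw [← hQd, ← h]
      push_cast
      ring
    have q5 : Q ^ 2 * M ≠ -Q := by
      have := Eg_neg nl n1 hp
      intro h
      apply this
      rw [← hQd, ← h]
      push_cast
      ring
    have q6 : P * Q ≠ Q ^ 2 * M := by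
      have := Eg_ne npq nl (by
        intro h
        apply h4
        linear_combination h)
      intro h
      apply this
      push_cast
      rw [← hPd, ← hQd, ← hMd, h]
      ring
    intro i j hij
    fin_cases i <;> fin_cases j <;> first
      | rfl
      | exact absurd hij q1
      | exact absurd hij.symm q1
      | exact absurd hij q2
      | exact absurd hij.symm q2
      | exact absurd hij q3
      | exact absurd hij.symm q3
      | exact absurd hij q4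
      | exact absurd hij.symm q4
      | exact absurd hij q5
      | exact absurd hij.symm q5
      | exact absurd hij q6
      | exact absurd hij.symm q6
  have long : ∀ s : Fin 4, (s = 0 ∨ s = 1) → ∀ j : Fin 3, Eg_U ψ
      ((((γ s : ℤ_[p]) : ℚ_[p])) * (![1, -P, P ^ 2 * M] : Fin 3 → ℚ_[p]) j) := by
    intro s hs
    refine Eg_key ψ hψ (gm P Q M s) _ ![16, 7, 1] dl (by decide) (by decide) ?_ _ (e0 s) (hmat s)
    rw [chp_long P Q M s hs, Fin.prod_univ_three]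
    simp
  have short : ∀ s : Fin 4, (s = 2 ∨ s = 3) → ∀ j : Fin 4, Eg_U ψ
      ((((γ s : ℤ_[p]) : ℚ_[p])) * (![1, -Q, P * Q, Q ^ 2 * M] : Fin 4 → ℚ_[p]) j) := by
    intro s hs
    refine Eg_key ψ hψ (gm P Q M s) _ ![13, 7, 3, 1] ds (by decide) (by decide) ?_ _ (e0 s)
      (hmat s)
    rw [chp_short P Q M s hs, Fin.prod_univ_four]
    simp
  have hc : ∀ s : Fin 4, Eg_U ψ (((γ s : ℤ_[p]) : ℚ_[p])) := by
    intro s
    have h5 : (s = 0 ∨ s = 1) ∨ (s = 2 ∨ s = 3) := by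
      fin_cases s <;> simp
    rcases h5 with h5 | h5
    · have h6 := long s h5 0
      change Eg_U ψ (_ * 1) at h6
      rwa [mul_one] at h6
    · have h6 := short s h5 0
      change Eg_U ψ (_ * 1) at h6
      rwa [mul_one] at h6
  have hPu : Eg_U ψ P := by
    have h6 := Eg_Umul (Eg_Uinv (hc 0)) (Eg_Uneg (long 0 (Or.inl rfl) 1))
    change Eg_U ψ ((((γ 0 : ℤ_[p]) : ℚ_[p]))⁻¹ * -((((γ 0 : ℤ_[p]) : ℚ_[p])) * -P)) at h6
    have h7 : (((γ 0 : ℤ_[p]) : ℚ_[p]))⁻¹ * -((((γ 0 : ℤ_[p]) : ℚ_[p])) * -P) = P := by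
      have := e0 0
      field_simp
    rwa [h7] at h6
  have hQu : Eg_U ψ Q := by
    have h6 := Eg_Umul (Eg_Uinv (hc 2)) (Eg_Uneg (short 2 (Or.inl rfl) 1))
    change Eg_U ψ ((((γ 2 : ℤ_[p]) : ℚ_[p]))⁻¹ * -((((γ 2 : ℤ_[p]) : ℚ_[p])) * -Q)) at h6
    have h7 : (((γ 2 : ℤ_[p]) : ℚ_[p]))⁻¹ * -((((γ 2 : ℤ_[p]) : ℚ_[p])) * -Q) = Q := by
      have := e0 2
      field_simp
    rwa [h7] at h6
  have hMu : Eg_U ψ M := by
    have h6 := Eg_Umul (Eg_Umul (Eg_Uinv (hc 0)) (long 0 (Or.inl rfl) 2))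
      (Eg_Umul (Eg_Uinv hPu) (Eg_Uinv hPu))
    change Eg_U ψ ((((γ 0 : ℤ_[p]) : ℚ_[p]))⁻¹ * ((((γ 0 : ℤ_[p]) : ℚ_[p])) * (P ^ 2 * M)) *
      (P⁻¹ * P⁻¹)) at h6
    have h7 : (((γ 0 : ℤ_[p]) : ℚ_[p]))⁻¹ * ((((γ 0 : ℤ_[p]) : ℚ_[p])) * (P ^ 2 * M)) *
        (P⁻¹ * P⁻¹) = M := by
      have := e0 0
      field_simp
    rwa [h7] at h6
  refine ⟨hc, fun j => ?_⟩
  fin_cases j
  · exact hPu
  · exact hQu
  · exact hMu

end Pool.Agent.Lib.MP_97567f_al.F4
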