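import Pool.Agent.Lib.MP_97567f_al.F4.Dat
import Pool.Agent.Lib.MP_97567f_al.U.HeeR
import Pool.Agent.Lib.MP_97567f_al.U.UnfF

/-!
# MP_97567f_al: type F4: faithfulness

The criterion of Hee at `p = q = 1 / 2`, `m = 0`, where the matrices of the generators have entries `≥ 0`.
-/

set_option autoImplicit false

namespace Pool.Agent.Lib.MP_97567f_al.F4

open Pool.Agent.Lib.MP_97567f_al.U

/-- The value at `p = q = 1 / 2`, `m = 0`, multiplied by `2 ^ 10`. -/
def nn (x : Pl) : ℤ :=
  (x.map fun t => if t.2.2.2 = 0 then t.1 * 2 ^ (10 - (t.2.1 + t.2.2.1)) else 0).sum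

/-- The degrees of the terms without `m` are small. -/
def sml (x : Pl) : Prop := ∀ t ∈ x, t.2.2.2 = 0 → t.2.1 + t.2.2.1 ≤ 10

instance (x : Pl) : Decidable (sml x) := by
  unfold sml
  infer_instance

private theorem ev_half {x : Pl} (h : sml x) :
    ev (1 / 2 : ℚ) (1 / 2) 0 x * 2 ^ 10 = (nn x : ℚ) := by
  induction x with
  | nil => simp [ev, nn]
  | cons t x ih =>
    have h1 := ih fun t ht => h t (List.mem_cons_of_mem _ ht)
    have h2 := h t List.mem_cons_self
    have h3 : nn (t :: x) =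
        (if t.2.2.2 = 0 then t.1 * 2 ^ (10 - (t.2.1 + t.2.2.1)) else 0) + nn x := by
      simp [nn]
    rw [ev_cons, add_mul, h1, h3, Int.cast_add]
    congr 1
    unfold evm
    split_ifs with h4
    · have h5 := h2 h4
      obtain ⟨d, hd⟩ := Nat.exists_eq_add_of_le h5
      have h6 : 10 - (t.2.1 + t.2.2.1) = d := by omega
      have k : ∀ n : ℕ, (1 / 2 : ℚ) ^ n * 2 ^ n = 1 := fun n => by
        rw [← mul_pow]
        norm_num
      have e : (1 / 2 : ℚ) ^ t.2.1 * (1 / 2) ^ t.2.2.1 * 2 ^ 10 = 2 ^ d := by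
        rw [hd, pow_add, pow_add]
        calc (1 / 2 : ℚ) ^ t.2.1 * (1 / 2) ^ t.2.2.1 * (2 ^ t.2.1 * 2 ^ t.2.2.1 * 2 ^ d)
            = ((1 / 2 : ℚ) ^ t.2.1 * 2 ^ t.2.1) * ((1 / 2 : ℚ) ^ t.2.2.1 * 2 ^ t.2.2.1) * 2 ^ d := by
              ring
          _ = 2 ^ d := by rw [k, k, one_mul, one_mul]
      rw [h6, h4, pow_zero, mul_one, mul_assoc, e]
      push_cast
      ring
    · rw [zero_pow h4, mul_zero, mul_zero, zero_mul, Int.cast_zero]

private theorem sml_all : ∀ (s : Fin 4) (i j : Fin 24), sml (ent (D s) i j) := by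
  decide +kernel

private theorem nn_all : ∀ (s : Fin 4) (i j : Fin 24), 0 ≤ nn (ent (D s) i j) := by
  decide +kernel

/-- The matrices at `p = q = 1 / 2`, `m = 0`. -/
private noncomputable def N0 (s : Fin 4) : Matrix (Fin 24) (Fin 24) ℚ :=
  matr (1 / 2) (1 / 2) 0 24 (D s)

private theorem N0_eq (s : Fin 4) (i j : Fin 24) :
    N0 s i j = (nn (ent (D s) i j) : ℚ) / 2 ^ 10 := by
  rw [eq_div_iff (by norm_num), ← ev_half (sml_all s i j)]
  rfl

private theorem N0_nonneg (s : Fin 4) (i j : Fin 24) : 0 ≤ N0 s i j := by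
  rw [N0_eq]
  have := nn_all s i j
  positivity

private theorem N0_pos {s : Fin 4} {i j : Fin 24} (h : 0 < nn (ent (D s) i j)) : 0 < N0 s i j := by
  rw [N0_eq]
  positivity

private theorem N0_zero {s : Fin 4} {i j : Fin 24} (h : nn (ent (D s) i j) = 0) : N0 s i j = 0 := by
  rw [N0_eq, h, Int.cast_zero, zero_div]

/-- The matrix of a word. -/
private noncomputable def P0 (w : List (Fin 4)) : Matrix (Fin 24) (Fin 24) ℚ := (w.map N0).prod

private theorem P0_nil : P0 [] = 1 := rfl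

private theorem P0_cons (t : Fin 4) (w : List (Fin 4)) : P0 (t :: w) = N0 t * P0 w := by
  unfold P0
  rw [List.map_cons, List.prod_cons]

private theorem P0_nonneg (w : List (Fin 4)) (i j : Fin 24) : 0 ≤ P0 w i j := by
  induction w generalizing i j with
  | nil =>
    rw [P0_nil, Matrix.one_apply]
    split_ifs <;> norm_num
  | cons s w ih =>
    rw [P0_cons, Matrix.mul_apply]
    exact Finset.sum_nonneg fun k _ => mul_nonneg (N0_nonneg s i k) (ih k j)

private theorem P0_row {t : Fin 4} {w : List (Fin 4)} {i j : Fin 24}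
    (h : 0 < nn (ent (D t) i j)) (h0 : ∀ k, P0 (t :: w) i k = 0) (k : Fin 24) : P0 w j k = 0 := by
  have h1 := h0 k
  rw [P0_cons, Matrix.mul_apply] at h1
  have h2 := (Finset.sum_eq_zero_iff_of_nonneg
    fun l _ => mul_nonneg (N0_nonneg t i l) (P0_nonneg w l k)).1 h1
  exact (mul_eq_zero.1 (h2 j (Finset.mem_univ j))).resolve_left (N0_pos h).ne'

private theorem P0_gen {t : Fin 4} {w : List (Fin 4)} {i : Fin 24}
    (h : ∀ j : Fin 24, nn (ent (D t) i j) = 0) (k : Fin 24) : P0 (t :: w) i k = 0 := by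
  rw [P0_cons, Matrix.mul_apply]
  exact Finset.sum_eq_zero fun l _ => by rw [N0_zero (h l), zero_mul]

/-- The rows of the generators. -/
private def rr (s : Fin 4) : Fin 24 := ⟨s.1, by omega⟩

private theorem rr_zero : ∀ (s : Fin 4) (j : Fin 24), nn (ent (D s) (rr s) j) = 0 := by
  decide +kernel

private theorem rows2 : ∀ s t : Fin 4, s ≠ t → CoxeterMatrix.F₄.M s t = 2 →
    0 < nn (ent (D t) (rr s) (rr s)) := by
  decide +kernel

private theorem rows3 : ∀ s t : Fin 4, s ≠ t → CoxeterMatrix.F₄.M s t = 3 →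
    ∃ u : Fin 24, 0 < nn (ent (D t) (rr s) (rr s)) ∧ 0 < nn (ent (D t) (rr s) u) ∧
      0 < nn (ent (D s) u (rr t)) := by
  decide +kernel

private theorem rows4 : ∀ s t : Fin 4, s ≠ t → CoxeterMatrix.F₄.M s t = 4 →
    ∃ u v : Fin 24, 0 < nn (ent (D t) (rr s) (rr s)) ∧ 0 < nn (ent (D t) (rr s) u) ∧
      0 < nn (ent (D t) (rr s) v) ∧ 0 < nn (ent (D s) u (rr t)) ∧ 0 < nn (ent (D s) v v) ∧
      0 < nn (ent (D t) v (rr s)) := by
  decide +kernel

private theorem m234 : ∀ s t : Fin 4, s ≠ t → CoxeterMatrix.F₄.M s t = 2 ∨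
    CoxeterMatrix.F₄.M s t = 3 ∨ CoxeterMatrix.F₄.M s t = 4 := by
  decide

/-- The row `i` is zero. -/
private def Z (i : Fin 24) (x : Art CoxeterMatrix.F₄) : Prop :=
  ∀ w : List (Fin 4), x = (w.map (gn CoxeterMatrix.F₄)).prod → ∀ j, P0 w i j = 0

section main

variable {R : Type} [CommRing R] {p q m : R}
  {ρ : Art CoxeterMatrix.F₄ →* Matrix (Fin 24) (Fin 24) R}

/-- The image of a word. -/
private theorem rho_word (hρ : ∀ s, ρ (gn CoxeterMatrix.F₄ s) = matr p q m 24 (D s)) (w : List (Fin 4)) :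
    ρ ((w.map (gn CoxeterMatrix.F₄)).prod) = (w.map fun s => matr p q m 24 (D s)).prod := by
  rw [map_list_prod, List.map_map]
  congr 1
  exact List.map_congr_left fun s _ => hρ s

private theorem map_prod' {R S : Type} [CommRing R] [CommRing S] (f : R →+* S) (p q m : R)
    (w : List (Fin 4)) : ((w.map fun s => matr p q m 24 (D s)).prod).map f =
      (w.map fun s => matr (f p) (f q) (f m) 24 (D s)).prod := by
  induction w with
  | nil =>
    rw [List.map_nil, List.prod_nil, List.map_nil, List.prod_nil]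
    exact Matrix.map_one f (map_zero f) (map_one f)
  | cons s w ih =>
    rw [List.map_cons, List.prod_cons, List.map_cons, List.prod_cons, Matrix.map_mul, ih,
      matr_map]

/-- The matrices of words with the same image are equal. -/
private theorem P0_eq (hρ : ∀ s, ρ (gn CoxeterMatrix.F₄ s) = matr p q m 24 (D s))
    (f : R →+* FractionRing (Polynomial ℂ)) (hp : f p = 1 / 2) (hq : f q = 1 / 2)
    (hm : f m = algebraMap (Polynomial ℂ) _ Polynomial.X) {w v : List (Fin 4)}
    (h : ρ ((w.map (gn CoxeterMatrix.F₄)).prod) = ρ ((v.map (gn CoxeterMatrix.F₄)).prod)) : P0 w = P0 v := by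
  rw [rho_word hρ, rho_word hρ] at h
  have h1 := congrArg (fun A => A.map f) h
  simp only [map_prod', hp, hq, hm] at h1
  -- the same over `ℚ[X]`
  let g : Polynomial ℚ →+* FractionRing (Polynomial ℂ) :=
    (algebraMap (Polynomial ℂ) (FractionRing (Polynomial ℂ))).comp
      (Polynomial.mapRingHom (algebraMap ℚ ℂ))
  have hg : Function.Injective g := (IsFractionRing.injective (Polynomial ℂ) _).comp
    (Polynomial.map_injective _ (algebraMap ℚ ℂ).injective)
  have g1 : g (Polynomial.C (1 / 2)) = 1 / 2 := by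
    simp only [g, RingHom.comp_apply, Polynomial.coe_mapRingHom, Polynomial.map_C]
    have : Polynomial.C ((algebraMap ℚ ℂ) (1 / 2)) * 2 = (1 : Polynomial ℂ) := by
      rw [← Polynomial.C_ofNat, ← Polynomial.C_mul]
      norm_num
    rw [eq_div_iff (by norm_num)]
    have h2 := congrArg (algebraMap (Polynomial ℂ) (FractionRing (Polynomial ℂ))) this
    rw [map_mul, map_one, map_ofNat] at h2
    exact h2
  have g2 : g Polynomial.X = algebraMap (Polynomial ℂ) _ Polynomial.X := by
    simp only [g, RingHom.comp_apply, Polynomial.coe_mapRingHom, Polynomial.map_X]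
  have h2 : (w.map fun s => matr (Polynomial.C (1 / 2 : ℚ)) (Polynomial.C (1 / 2))
      Polynomial.X 24 (D s)).prod = (v.map fun s => matr (Polynomial.C (1 / 2 : ℚ))
      (Polynomial.C (1 / 2)) Polynomial.X 24 (D s)).prod := by
    apply Matrix.map_injective hg
    simp only [map_prod', g1, g2]
    exact h1
  have h3 := congrArg (fun A => A.map (Polynomial.evalRingHom (0 : ℚ))) h2
  rw [map_prod', map_prod'] at h3
  simp only [Polynomial.coe_evalRingHom, Polynomial.eval_C, Polynomial.eval_X] at h3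
  exact h3

/-- **Faithfulness.** -/
theorem faithful (hρ : ∀ s, ρ (gn CoxeterMatrix.F₄ s) = matr p q m 24 (D s))
    (f : R →+* FractionRing (Polynomial ℂ)) (hp : f p = 1 / 2) (hq : f q = 1 / 2)
    (hm : f m = algebraMap (Polynomial ℂ) _ Polynomial.X) : Function.Injective ρ := by
  obtain ⟨D', hD, hDc, hDd⟩ := gar_F4
  obtain ⟨L, hL⟩ := (pArt 4 CoxeterMatrix.F₄).2.1 (Multiplicative ℤ)
    (fun _ => Multiplicative.ofAdd 1) (fun _ _ => rfl)
  have hrel := (pArt 4 CoxeterMatrix.F₄).1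
  -- rows of positive elements
  have hZ : ∀ {i j : Fin 24} {t : Fin 4}, 0 < nn (ent (D t) i j) → ∀ x, Ps (gn CoxeterMatrix.F₄) x →
      Z i ((gn CoxeterMatrix.F₄) t * x) → Z j x := by
    intro i j t h x _ h1 w hw k
    refine P0_row h (h1 (t :: w) ?_) k
    rw [hw, List.map_cons, List.prod_cons]
  have hH : HeeZ (gn CoxeterMatrix.F₄) CoxeterMatrix.F₄.M rr Z L := by
    refine ⟨hL, m234, ?_, ?_, ?_, ?_, ?_, ?_, ?_, ?_⟩
    · intro s t _ h
      have := hrel s t
      rwa [h, alt_2, alt_2] at this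
    · intro s t _ h
      have := hrel s t
      rwa [h, alt_3, alt_3] at this
    · intro s t _ h
      have := hrel s t
      rwa [h, alt_4, alt_4] at this
    · intro s h
      have := h [] (by simp) (rr s)
      rw [P0_nil, Matrix.one_apply_eq] at this
      exact one_ne_zero this
    · rintro s x ⟨v, rfl⟩ w hw j
      have h1 : P0 w = P0 (s :: v) := by
        apply P0_eq hρ f hp hq hm
        rw [← hw, List.map_cons, List.prod_cons]
      rw [h1]
      exact P0_gen (rr_zero s) j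
    · intro s t hst h x hx hz
      exact hZ (rows2 s t hst h) x hx hz
    · intro s t hst h
      obtain ⟨u, a1, a2, a3⟩ := rows3 s t hst h
      exact ⟨Z u, fun x hx hz => ⟨hZ a1 x hx hz, hZ a2 x hx hz⟩, fun x hx hz => hZ a3 x hx hz⟩
    · intro s t hst h
      obtain ⟨u, v, a1, a2, a3, a4, a5, a6⟩ := rows4 s t hst h
      exact ⟨fun x => Z u x ∧ Z v x, Z v, fun x hx hz => ⟨hZ a1 x hx hz, hZ a2 x hx hz,
        hZ a3 x hx hz⟩, fun x hx hz => ⟨hZ a4 x hx hz.1, hZ a5 x hx hz.2⟩,
        fun x hx hz => hZ a6 x hx hz⟩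
  let ρ' : Art CoxeterMatrix.F₄ →* (Matrix (Fin 24) (Fin 24) R)ˣ := ρ.toHomUnits
  have hinj : Function.Injective ρ' := by
    refine hee_inj hH ρ' ?_ (art_closure _) hD hDc hDd
    rintro _ _ ⟨w, rfl⟩ ⟨v, rfl⟩ h s hz u hu j
    have h1 : ρ ((w.map (gn CoxeterMatrix.F₄)).prod) = ρ ((v.map (gn CoxeterMatrix.F₄)).prod) := congrArg Units.val h
    have h2 : P0 w = P0 v := P0_eq hρ f hp hq hm h1
    have h3 : P0 v = P0 u := P0_eq hρ f hp hq hm (by rw [hu])
    rw [← h3, ← h2]
    exact hz w rfl j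
  intro x y h
  apply hinj
  apply Units.ext
  exact h

end main

end Pool.Agent.Lib.MP_97567f_al.F4
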