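import Pool.Agent.Lib.MP_97567f_al.F4.Rel2
import Pool.Agent.Lib.MP_97567f_al.U.Art
import Pool.Agent.Lib.MP_97567f_al.U.R3
import Pool.Agent.Lib.MP_97567f_al.Pad.Base

/-!
# MP_97567f_al: type F4: the family of representations of dimension 24 with three parameters

`gm p q m s`: the matrix of the generator `s`. `gu`: as a unit. `fam`: the natural family of representations of
`Art CoxeterMatrix.F₄`. `rho3`: the representation over the ring of Laurent polynomials.
-/

set_option autoImplicit false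

namespace Pool.Agent.Lib.MP_97567f_al.F4

open Pool.Agent.Lib.MP_97567f_al.U

section mats

variable {R : Type*} [CommRing R] (p q m : R)

/-- The matrix of the generator `s`. -/
def gm (s : Fin 4) : Matrix (Fin 24) (Fin 24) R := matr p q m 24 (D s)

theorem gm_map {S : Type*} [CommRing S] (f : R →+* S) (s : Fin 4) :
    (gm p q m s).map f = gm (f p) (f q) (f m) s := matr_map p q m 24 f (D s)

theorem gm_apply (s : Fin 4) (i j : Fin 24) :
    gm p q m s i j = ev p q m (coef j ((D s).getD i [])) := rfl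

theorem matr_addD {N : ℕ} {C : List Sv} (hC : C.length = N) (x : Pl) :
    matr p q m N (addD x C) = matr p q m N C + ev p q m x • (1 : Matrix (Fin N) (Fin N) R) := by
  ext i j
  have h1 : (addD x C).getD i [] = ((i : ℕ), x) :: C.getD i [] := by
    have hi : (i : ℕ) < C.length := by rw [hC]; exact i.2
    unfold addD
    rw [List.getD_eq_getElem?_getD, List.getD_eq_getElem?_getD, List.getElem?_mapIdx,
      List.getElem?_eq_getElem hi]
    rfl
  have h2 : ent (addD x C) i j = (if (i : ℕ) = j then x else []) ++ ent C i j := by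
    unfold ent
    rw [h1]
    rfl
  simp only [matr, evM, h2, ev_append, Matrix.add_apply, Matrix.smul_apply, smul_eq_mul]
  rw [add_comm]
  congr 1
  by_cases h : i = j
  · rw [h, if_pos rfl, Matrix.one_apply_eq, mul_one]
  · rw [if_neg fun h' => h (Fin.ext h'), Matrix.one_apply_ne h, mul_zero, ev_nil]

theorem matr_zz : matr p q m 24 zz = 0 := by
  ext i j
  have h : zz.getD i [] = [] := by
    unfold zz
    rw [List.getD_eq_getElem?_getD, List.getElem?_replicate]
    split_ifs <;> rfl
  simp only [matr, evM, ent, h]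
  rfl

/-- The equation of the long generators. -/
theorem gm_long (s : Fin 4) (hs : s = 0 ∨ s = 1) :
    (gm p q m s - 1) * (gm p q m s + p • 1) * (gm p q m s - (p ^ 2 * m) • 1) = 0 := by
  have key : ∀ C : List Sv, C.length = 24 → (e3 C ++ [zz]).all (okC 24 128 6 7 1) = true →
      tst (e3 C) [zz] → (matr p q m 24 C - 1) * (matr p q m 24 C + p • 1) *
        (matr p q m 24 C - (p ^ 2 * m) • 1) = 0 := by
    intro C hC ho ht
    have h := of_tst ho (by simp [e3]) (by simp) ht p q m
    simp only [e3, List.map_cons, List.map_nil, List.prod_cons, List.prod_nil, mul_one,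
      matr_addD p q m hC, matr_zz] at h
    have e1 : ev p q m [(-1, 0, 0, 0)] = -1 := by simp [ev, evm]
    have e2 : ev p q m [(1, 1, 0, 0)] = p := by simp [ev, evm]
    have e3' : ev p q m [(-1, 2, 0, 1)] = -(p ^ 2 * m) := by simp [ev, evm]
    rw [e1, e2, e3', neg_smul, neg_smul, one_smul, ← sub_eq_add_neg, ← sub_eq_add_neg,
      ← Matrix.mul_assoc] at h
    exact h
  rcases hs with rfl | rfl
  · exact key c0 (by decide) o0 t0
  · exact key c1 (by decide) o1 t1

/-- The equation of the short generators. -/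
theorem gm_short (s : Fin 4) (hs : s = 2 ∨ s = 3) :
    (gm p q m s - 1) * (gm p q m s + q • 1) * (gm p q m s - (p * q) • 1) *
      (gm p q m s - (q ^ 2 * m) • 1) = 0 := by
  have key : ∀ C : List Sv, C.length = 24 → (e4 C ++ [zz]).all (okC 24 128 6 7 1) = true →
      tst (e4 C) [zz] → (matr p q m 24 C - 1) * (matr p q m 24 C + q • 1) *
        (matr p q m 24 C - (p * q) • 1) * (matr p q m 24 C - (q ^ 2 * m) • 1) = 0 := by
    intro C hC ho ht
    have h := of_tst ho (by simp [e4]) (by simp) ht p q m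
    simp only [e4, List.map_cons, List.map_nil, List.prod_cons, List.prod_nil, mul_one,
      matr_addD p q m hC, matr_zz] at h
    have e1 : ev p q m [(-1, 0, 0, 0)] = -1 := by simp [ev, evm]
    have e2 : ev p q m [(1, 0, 1, 0)] = q := by simp [ev, evm]
    have e3' : ev p q m [(-1, 1, 1, 0)] = -(p * q) := by simp [ev, evm]
    have e4' : ev p q m [(-1, 0, 2, 1)] = -(q ^ 2 * m) := by simp [ev, evm]
    rw [e1, e2, e3', e4', neg_smul, neg_smul, neg_smul, one_smul, ← sub_eq_add_neg,
      ← sub_eq_add_neg, ← sub_eq_add_neg, ← Matrix.mul_assoc, ← Matrix.mul_assoc] at h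
    exact h
  rcases hs with rfl | rfl
  · exact key c2 (by decide) o2 t2
  · exact key c3 (by decide) o3 t3

/-- The braid relations. -/
theorem gm_rel : (gm p q m 0 * gm p q m 1 * gm p q m 0 = gm p q m 1 * gm p q m 0 * gm p q m 1) ∧
    (gm p q m 2 * gm p q m 3 * gm p q m 2 = gm p q m 3 * gm p q m 2 * gm p q m 3) ∧
    (gm p q m 1 * gm p q m 2 * gm p q m 1 * gm p q m 2 =
      gm p q m 2 * gm p q m 1 * gm p q m 2 * gm p q m 1) ∧
    (gm p q m 0 * gm p q m 2 = gm p q m 2 * gm p q m 0) ∧
    (gm p q m 0 * gm p q m 3 = gm p q m 3 * gm p q m 0) ∧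
    (gm p q m 1 * gm p q m 3 = gm p q m 3 * gm p q m 1) := by
  have h1 := of_tst (by decide +kernel) (by decide) (by decide) t01 p q m
  have h2 := of_tst (by decide +kernel) (by decide) (by decide) t23 p q m
  have h3 := of_tst (by decide +kernel) (by decide) (by decide) t12 p q m
  have h4 := of_tst (by decide +kernel) (by decide) (by decide) t02 p q m
  have h5 := of_tst (by decide +kernel) (by decide) (by decide) t03 p q m
  have h6 := of_tst (by decide +kernel) (by decide) (by decide) t13 p q m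
  simp only [List.map_cons, List.map_nil, List.prod_cons, List.prod_nil, mul_one,
    ← Matrix.mul_assoc] at h1 h2 h3 h4 h5 h6
  exact ⟨h1, h2, h3, h4, h5, h6⟩

end mats

section units

variable {R : Type*} [CommRing R] (p q m : Rˣ)

/-- The matrices are units. -/
theorem gm_unit (s : Fin 4) : IsUnit (gm (p : R) (q : R) (m : R) s) := by
  -- a polynomial equation with a unit as constant coefficient
  have key : ∀ (G H : Matrix (Fin 24) (Fin 24) R) (u : Rˣ), G * H = (u : R) • 1 → IsUnit G := by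
    intro G H u h
    have h1 : G * (((u⁻¹ : Rˣ) : R) • H) = 1 := by
      rw [Matrix.mul_smul, h, smul_smul, Units.inv_mul, one_smul]
    exact ⟨⟨G, ((u⁻¹ : Rˣ) : R) • H, h1, mul_eq_one_comm.mp h1⟩, rfl⟩
  by_cases hs : s = 0 ∨ s = 1
  · have h := gm_long (p : R) (q : R) (m : R) s hs
    set G := gm (p : R) (q : R) (m : R) s with hG
    refine key G (G * G + ((p : R) - 1 - p ^ 2 * m) • G +
      (-(p : R) - (p : R) * (p ^ 2 * m) + p ^ 2 * m) • 1) (-(p * (p ^ 2 * m))) ?_
    have e : (G - 1) * (G + (p : R) • 1) * (G - ((p : R) ^ 2 * m) • 1) =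
        G * (G * G + ((p : R) - 1 - p ^ 2 * m) • G +
          (-(p : R) - (p : R) * (p ^ 2 * m) + p ^ 2 * m) • 1) +
        ((p : R) * (p ^ 2 * m)) • 1 := by
      simp only [mul_add, add_mul, mul_sub, sub_mul, Matrix.mul_smul, Matrix.smul_mul,
        Matrix.mul_one, Matrix.one_mul, smul_smul, mul_assoc]
      module
    rw [e] at h
    rw [eq_neg_of_add_eq_zero_left h]
    simp [neg_smul]
  · have hs' : s = 2 ∨ s = 3 := by
      revert hs
      fin_cases s <;> simp
    have h := gm_short (p : R) (q : R) (m : R) s hs'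
    set G := gm (p : R) (q : R) (m : R) s with hG
    let a : R := q
    let b : R := p * q
    let c : R := q ^ 2 * m
    refine key G (G * (G * G) + (a - 1 - b - c) • (G * G) +
      (-a - a * b + b - a * c + c + b * c) • G +
      (a * b + a * c + a * b * c - b * c) • 1) (q * (p * q) * (q ^ 2 * m)) ?_
    have e : (G - 1) * (G + a • 1) * (G - b • 1) * (G - c • 1) =
        G * (G * (G * G) + (a - 1 - b - c) • (G * G) +
          (-a - a * b + b - a * c + c + b * c) • G +
          (a * b + a * c + a * b * c - b * c) • 1) - (a * b * c) • 1 := by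
      simp only [mul_add, add_mul, mul_sub, sub_mul, Matrix.mul_smul, Matrix.smul_mul,
        Matrix.mul_one, Matrix.one_mul, smul_smul, mul_assoc]
      module
    have h' : (G - 1) * (G + a • 1) * (G - b • 1) * (G - c • 1) = 0 := h
    rw [e] at h'
    rw [sub_eq_zero.mp h']
    simp [a, b, c]

/-- The matrix of the generator as a unit. -/
noncomputable def gu (s : Fin 4) : (Matrix (Fin 24) (Fin 24) R)ˣ := (gm_unit p q m s).unit

theorem gu_val (s : Fin 4) : (gu p q m s : Matrix (Fin 24) (Fin 24) R) =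
    gm (p : R) (q : R) (m : R) s := rfl

end units

private theorem alt1 {G : Type} [Monoid G] (a b : G) : alt a b 1 = a := by
  simp [alt, List.range_succ]

private theorem alt2 {G : Type} [Monoid G] (a b : G) : alt a b 2 = a * b := by
  simp [alt, List.range_succ]

private theorem alt3 {G : Type} [Monoid G] (a b : G) : alt a b 3 = a * b * a := by
  simp [alt, List.range_succ, mul_assoc]

private theorem alt4 {G : Type} [Monoid G] (a b : G) : alt a b 4 = a * b * a * b := by
  simp [alt, List.range_succ, mul_assoc]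

theorem f4_rel {G : Type} [Monoid G] (f : Fin 4 → G) (h1 : f 0 * f 1 * f 0 = f 1 * f 0 * f 1)
    (h2 : f 2 * f 3 * f 2 = f 3 * f 2 * f 3)
    (h3 : f 1 * f 2 * f 1 * f 2 = f 2 * f 1 * f 2 * f 1) (h4 : f 0 * f 2 = f 2 * f 0)
    (h5 : f 0 * f 3 = f 3 * f 0) (h6 : f 1 * f 3 = f 3 * f 1) (i j : Fin 4) :
    alt (f i) (f j) (CoxeterMatrix.F₄.M i j) = alt (f j) (f i) (CoxeterMatrix.F₄.M i j) := by
  have e01 : CoxeterMatrix.F₄.M 0 1 = 3 := rfl
  have e10 : CoxeterMatrix.F₄.M 1 0 = 3 := rfl
  have e23 : CoxeterMatrix.F₄.M 2 3 = 3 := rfl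
  have e32 : CoxeterMatrix.F₄.M 3 2 = 3 := rfl
  have e12 : CoxeterMatrix.F₄.M 1 2 = 4 := rfl
  have e21 : CoxeterMatrix.F₄.M 2 1 = 4 := rfl
  have e02 : CoxeterMatrix.F₄.M 0 2 = 2 := rfl
  have e20 : CoxeterMatrix.F₄.M 2 0 = 2 := rfl
  have e03 : CoxeterMatrix.F₄.M 0 3 = 2 := rfl
  have e30 : CoxeterMatrix.F₄.M 3 0 = 2 := rfl
  have e13 : CoxeterMatrix.F₄.M 1 3 = 2 := rfl
  have e31 : CoxeterMatrix.F₄.M 3 1 = 2 := rfl
  generalize CoxeterMatrix.F₄.M = M at *
  fin_cases i <;> fin_cases j <;>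
    simp only [Fin.zero_eta, Fin.mk_one, Fin.reduceFinMk, Fin.isValue, e01, e10, e23, e32, e12,
      e21, e02, e20, e03, e30, e13, e31, alt2, alt3, alt4, h1, h2, h3, h4, h5, h6]

theorem gu_rel {R : Type} [CommRing R] (p q m : Rˣ) (i j : Fin 4) :
    alt (gu p q m i) (gu p q m j) (CoxeterMatrix.F₄.M i j) =
      alt (gu p q m j) (gu p q m i) (CoxeterMatrix.F₄.M i j) := by
  obtain ⟨h1, h2, h3, h4, h5, h6⟩ := gm_rel (p : R) (q : R) (m : R)
  exact f4_rel (gu p q m) (Units.ext h1) (Units.ext h2) (Units.ext h3) (Units.ext h4)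
    (Units.ext h5) (Units.ext h6) i j

theorem rep_exists (R : Type) [CommRing R] (θ : Fin 3 → Rˣ) :
    ∃ φ : Art CoxeterMatrix.F₄ →* (Matrix (Fin 24) (Fin 24) R)ˣ,
      ∀ s, φ (gn CoxeterMatrix.F₄ s) = gu (θ 0) (θ 1) (θ 2) s :=
  (pArt 4 CoxeterMatrix.F₄).2.1 _ _ (gu_rel (θ 0) (θ 1) (θ 2))

/-- The representation over the ring `R` with the parameters `θ`. -/
noncomputable def rep (R : Type) [CommRing R] (θ : Fin 3 → Rˣ) :
    Art CoxeterMatrix.F₄ →* GL (Fin 24) R := (rep_exists R θ).choose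

theorem rep_gn (R : Type) [CommRing R] (θ : Fin 3 → Rˣ) (s : Fin 4) :
    (rep R θ (gn CoxeterMatrix.F₄ s)).1 = gm (θ 0 : R) (θ 1 : R) (θ 2 : R) s := by
  have h := (rep_exists R θ).choose_spec s
  unfold rep
  rw [h]
  rfl

/-- The natural family. -/
noncomputable def fam : Pad.NFam (Art CoxeterMatrix.F₄) (Fin 24) (Fin 3) where
  rep R _ θ := (Units.coeHom _).comp (rep R θ)
  nat R R' _ _ f θ x := by
    let φ : Art CoxeterMatrix.F₄ →* GL (Fin 24) R' := rep R' fun j => Units.map f.toMonoidHom (θ j)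
    let ψ : Art CoxeterMatrix.F₄ →* GL (Fin 24) R' :=
      (Units.map (RingHom.mapMatrix f).toMonoidHom).comp (rep R θ)
    have h : φ = ψ := by
      refine (pArt 4 CoxeterMatrix.F₄).2.2.1 _ φ ψ fun s => Units.ext ?_
      have e1 : (φ (gn CoxeterMatrix.F₄ s)).1 = _ := rep_gn R' _ s
      rw [e1]
      have e2 : (ψ (gn CoxeterMatrix.F₄ s)).1 = (rep R θ (gn CoxeterMatrix.F₄ s)).1.map f := rfl
      rw [e2, rep_gn, gm_map]
      rfl
    change (φ x).1 = ((rep R θ x).1).map f
    rw [h]
    rfl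

theorem fam_rep (R : Type) [CommRing R] (θ : Fin 3 → Rˣ) (x : Art CoxeterMatrix.F₄) :
    fam.rep R θ x = (rep R θ x).1 := rfl

theorem fam_gn (R : Type) [CommRing R] (θ : Fin 3 → Rˣ) (s : Fin 4) :
    fam.rep R θ (gn CoxeterMatrix.F₄ s) = gm (θ 0 : R) (θ 1 : R) (θ 2 : R) s := rep_gn R θ s

/-- The generic parameters. -/
noncomputable def th3 : Fin 3 → R3ˣ := ![r0_unit.unit, r1_unit.unit, r2_unit.unit]

/-- The representation over the ring of Laurent polynomials. -/
noncomputable def rho3 : Art CoxeterMatrix.F₄ →* GL (Fin 24) R3 := rep R3 th3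

theorem rho3_gn (s : Fin 4) : (rho3 (gn CoxeterMatrix.F₄ s)).1 = gm r0 r1 r2 s := rep_gn R3 th3 s

end Pool.Agent.Lib.MP_97567f_al.F4
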