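import Pool.Agent.Lib.MP_97567f_al.F4.IrrA

/-!
# MP_97567f_al: type F4: absolute irreducibility (main part)
-/

set_option autoImplicit false

namespace Pool.Agent.Lib.MP_97567f_al.F4

open Pool.Agent.Lib.MP_97567f_al.U

section abs

variable {ι : Type} [Fintype ι] [DecidableEq ι] {K G : Type} [Field K] [Group G]

/-- A matrix of rank one in the span, and enough vectors and functionals. -/
private theorem Irr_abs (ρ : G → Matrix ι ι K) (hmul : ∀ x y, ρ (x * y) = ρ x * ρ y)
    (u w : ι → K) (h1 : Matrix.vecMulVec u w ∈ Submodule.span K (Set.range ρ))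
    (g : ι → G) (h2 : (Matrix.of fun b c => ((ρ (g b)).mulVec u) c).det ≠ 0)
    (h : ι → G) (h3 : (Matrix.of fun b c => (Matrix.vecMul w (ρ (h b))) c).det ≠ 0) :
    Submodule.span K (Set.range ρ) = ⊤ := by
  let A := Submodule.span K (Set.range ρ)
  have hl : ∀ x, ∀ a ∈ A, ρ x * a ∈ A := by
    intro x a ha
    have h4 : A ≤ A.comap (LinearMap.mulLeft K (ρ x)) := by
      refine Submodule.span_le.2 ?_
      rintro _ ⟨y, rfl⟩
      refine Submodule.subset_span ⟨x * y, ?_⟩
      rw [hmul]
      rfl
    exact h4 ha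
  have hr : ∀ x, ∀ a ∈ A, a * ρ x ∈ A := by
    intro x a ha
    have h4 : A ≤ A.comap (LinearMap.mulRight K (ρ x)) := by
      refine Submodule.span_le.2 ?_
      rintro _ ⟨y, rfl⟩
      refine Submodule.subset_span ⟨y * x, ?_⟩
      rw [hmul]
      rfl
    exact h4 ha
  have e1 : ∀ u' : ι → K, Matrix.vecMulVec u' w ∈ A := by
    intro u'
    let Q : Matrix ι ι K := Matrix.of fun b c => ((ρ (g b)).mulVec u) c
    have h4 : u' = Matrix.vecMul (Matrix.vecMul u' Q⁻¹) Q := by
      rw [Matrix.vecMul_vecMul, Matrix.nonsing_inv_mul Q (isUnit_iff_ne_zero.2 h2),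
        Matrix.vecMul_one]
    rw [h4, Matrix.vecMul_eq_sum]
    have h5 : Matrix.vecMulVec (∑ i, Matrix.vecMul u' Q⁻¹ i • Q i) w =
        ∑ i, Matrix.vecMul u' Q⁻¹ i • Matrix.vecMulVec (Q i) w := by
      ext a b
      simp only [Matrix.vecMulVec_apply, Finset.sum_apply, Pi.smul_apply, Matrix.sum_apply,
        Matrix.smul_apply, smul_eq_mul, Finset.sum_mul, mul_assoc]
    rw [h5]
    refine Submodule.sum_mem _ fun i _ => A.smul_mem _ ?_
    have h6 : Matrix.vecMulVec (Q i) w = ρ (g i) * Matrix.vecMulVec u w := by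
      rw [Matrix.mul_vecMulVec]
      rfl
    rw [h6]
    exact hl _ _ h1
  have e2 : ∀ (u' : ι → K) (x : G), Matrix.vecMulVec u' (Matrix.vecMul w (ρ x)) ∈ A := by
    intro u' x
    rw [← Matrix.vecMulVec_mul]
    exact hr x _ (e1 u')
  have e3 : ∀ u' w' : ι → K, Matrix.vecMulVec u' w' ∈ A := by
    intro u' w'
    let Q : Matrix ι ι K := Matrix.of fun b c => (Matrix.vecMul w (ρ (h b))) c
    have h4 : w' = Matrix.vecMul (Matrix.vecMul w' Q⁻¹) Q := by
      rw [Matrix.vecMul_vecMul, Matrix.nonsing_inv_mul Q (isUnit_iff_ne_zero.2 h3),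
        Matrix.vecMul_one]
    rw [h4, Matrix.vecMul_eq_sum]
    have h5 : Matrix.vecMulVec u' (∑ i, Matrix.vecMul w' Q⁻¹ i • Q i) =
        ∑ i, Matrix.vecMul w' Q⁻¹ i • Matrix.vecMulVec u' (Q i) := by
      ext a b
      simp only [Matrix.vecMulVec_apply, Finset.sum_apply, Pi.smul_apply, Matrix.sum_apply,
        Matrix.smul_apply, smul_eq_mul, Finset.mul_sum]
      refine Finset.sum_congr rfl fun i _ => ?_
      ring
    rw [h5]
    exact Submodule.sum_mem _ fun i _ => A.smul_mem _ (e2 u' (h i))
  rw [eq_top_iff]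
  intro N _
  have h4 : N = ∑ i, Matrix.vecMulVec (Pi.single i 1) (N i) := by
    ext a b
    rw [Matrix.sum_apply, Finset.sum_eq_single a]
    · rw [Matrix.vecMulVec_apply, Pi.single_eq_same, one_mul]
    · intro i _ hi
      rw [Matrix.vecMulVec_apply, Pi.single_eq_of_ne (Ne.symm hi), zero_mul]
    · intro ha
      exact absurd (Finset.mem_univ _) ha
  rw [h4]
  exact Submodule.sum_mem _ fun i _ => e3 _ _

end abs

/-- The integer matrix is not singular. -/
private theorem Irr_det (T W : List (List ℤ)) (h : tinv T W) (f : Fin 24 → Fin 24 → ℤ)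
    (hf : ∀ i j : Fin 24, f i j % 101 = (T.getD i []).getD j 0) :
    (Matrix.of f).det ≠ 0 := by
  intro h0
  have : Fact (1 < 101) := ⟨by norm_num⟩
  have hmod : ∀ z : ℤ, ((z % 101 : ℤ) : ZMod 101) = z := fun z => by
    exact_mod_cast ZMod.intCast_mod z 101
  have h1 : ((Matrix.of f).map (Int.castRingHom (ZMod 101))).det = 0 := by
    rw [← RingHom.mapMatrix_apply, ← RingHom.map_det, h0, map_zero]
  have h2 : (Matrix.of f).map (Int.castRingHom (ZMod 101)) *
      (Matrix.of fun i j : Fin 24 => ((((W.getD i []).getD j 0 : ℤ)) : ZMod 101)) = 1 := by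
    ext i j
    rw [Matrix.mul_apply, Matrix.one_apply]
    have h3 := h i j
    rw [sum_range_fin 24 fun k => (T.getD i []).getD k 0 * (W.getD k []).getD j 0] at h3
    have h4 : ((∑ k : Fin 24, (T.getD i []).getD k 0 * (W.getD k []).getD j 0 : ℤ) : ZMod 101) =
        (((∑ k : Fin 24, (T.getD i []).getD k 0 * (W.getD k []).getD j 0) % 101 : ℤ) :
          ZMod 101) := (hmod _).symm
    rw [h3, Int.cast_sum] at h4
    have h5 : (((if i = j then 1 else 0 : ℤ)) : ZMod 101) = if i = j then 1 else 0 := by
      split_ifs <;> simp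
    rw [h5] at h4
    rw [← h4]
    refine Finset.sum_congr rfl fun k _ => ?_
    rw [Matrix.map_apply, Matrix.of_apply, Matrix.of_apply, ← hf, Int.cast_mul, hmod]
    rfl
  have h6 := congrArg Matrix.det h2
  rw [Matrix.det_mul, h1, zero_mul, Matrix.det_one] at h6
  exact zero_ne_one h6

private theorem Irr_len (s : Fin 4) : (D s).length = 24 := by
  fin_cases s <;> decide +kernel

private theorem Irr_lenT (C : List Sv) : (trp C).length = 24 := by
  unfold trp
  rw [List.length_map, List.length_range]

/-- Values at the point `(2, 4, 2)`. -/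
private theorem Irr_val {R : Type} [CommRing R] {p q m : R} (φ : R →+* ℂ) (hp : φ p = 2)
    (hq : φ q = 4) (hm : φ m = 2) (W : List (List Sv)) (hW : ∀ C ∈ W, C.length ≤ 24)
    (i : Fin 24) :
    φ (((W.map (matr p q m 24)).prod.mulVec (Pi.single 0 1)) i) =
      (((runZ 1 2 1 W [1]).getD i 0 : ℤ) : ℂ) := by
  have h1 := (runZ_eq 1 2 1 hW (v := [1]) (by simp)).2
  have h2 := congrFun h1 i
  have h3 : (fun i : Fin 24 => ([1] : List ℤ).getD i 0) = Pi.single 0 1 := by
    funext i
    rcases i with ⟨i, hi⟩
    rcases i with _ | i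
    · rfl
    · rw [Pi.single_eq_of_ne (by simp)]
      rfl
  rw [h3] at h2
  have h4 : ∀ (W : List (List Sv)), ((W.map (matr p q m 24)).prod).map φ =
      ((W.map (matr ((2 : ℤ) ^ 1) ((2 : ℤ) ^ 2) ((2 : ℤ) ^ 1) 24)).prod).map
        (Int.castRingHom ℂ) := by
    intro W
    induction W with
    | nil =>
      simp only [List.map_nil, List.prod_nil]
      rw [Matrix.map_one _ (map_zero _) (map_one _), Matrix.map_one _ (map_zero _) (map_one _)]
    | cons C W ih =>
      simp only [List.map_cons, List.prod_cons]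
      rw [Matrix.map_mul, Matrix.map_mul, ih, matr_map, matr_map, hp, hq, hm]
      norm_num
  have h5 : φ (((W.map (matr p q m 24)).prod.mulVec (Pi.single 0 1)) i) =
      (((W.map (matr p q m 24)).prod).map φ) i 0 := by
    rw [Matrix.mulVec_single_one]
    rfl
  have h6 : (((W.map (matr ((2 : ℤ) ^ 1) ((2 : ℤ) ^ 2) ((2 : ℤ) ^ 1) 24)).prod).map
      (Int.castRingHom ℂ)) i 0 = (((runZ 1 2 1 W [1]).getD i 0 : ℤ) : ℂ) := by
    rw [h2, Matrix.mulVec_single_one]
    rfl
  rw [h5, h4, h6]

private theorem Irr_red (v : List ℤ) (i : Fin 24) : (red v).getD i 0 = v.getD i 0 % 101 := by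
  unfold red
  rw [List.getD_eq_getElem?_getD, List.getElem?_map, List.getElem?_range i.2]
  rfl

private theorem Irr_ws (f : List (Fin 4) → List ℤ) (T : List (List ℤ))
    (h : (ws.map fun w => red (f w)) = T) (i j : Fin 24) :
    ((f (ws.getD i [])).getD j 0) % 101 = (T.getD i []).getD j 0 := by
  have hl : (i : ℕ) < ws.length := i.2
  have h1 : (ws.map fun w => red (f w)).getD i [] = red (f (ws.getD i [])) := by
    rw [List.getD_eq_getElem _ _ (by rw [List.length_map]; exact hl), List.getElem_map,
      List.getD_eq_getElem _ _ hl]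
  rw [← h, h1, Irr_red]

/-- The diagonal matrix with zero in the first row. -/
def f0 : List Sv := [] :: (List.range 23).map fun i => [(i + 1, [(1, 0, 0, 0)])]

private theorem Irr_f0 (i : Fin 24) (hi : i ≠ 0) : f0.getD i [] = [((i : ℕ), [(1, 0, 0, 0)])] := by
  rcases i with ⟨i, hi'⟩
  rcases i with _ | i
  · exact absurd rfl hi
  · unfold f0
    rw [List.getD_cons_succ, List.getD_eq_getElem?_getD, List.getElem?_map,
      List.getElem?_range (by omega)]
    rfl

private theorem Irr_o : ([f0, addD [(-1, 0, 0, 0)] c0, addD [(1, 1, 0, 0)] c0] ++ [zz]).all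
    (okC 24 128 6 7 1) = true := by decide +kernel

private theorem Irr_t : tst [f0, addD [(-1, 0, 0, 0)] c0, addD [(1, 1, 0, 0)] c0] [zz] := by
  decide +kernel

/-- **Absolute irreducibility.** -/
theorem irrF4 {R : Type} [CommRing R] [IsDomain R] {p q m : R}
    (ρ : Art CoxeterMatrix.F₄ →* GL (Fin 24) R)
    (hρ : ∀ s, (ρ (gn CoxeterMatrix.F₄ s)).1 = matr p q m 24 (D s)) (φ : R →+* ℂ)
    (hp : φ p = 2) (hq : φ q = 4) (hm : φ m = 2) :
    Submodule.span (FractionRing R) (Set.range fun x : Art CoxeterMatrix.F₄ => mK ρ x) = ⊤ := by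
  set A0 := matr p q m 24 c0 with hA0
  set E := (addD [(-1, 0, 0, 0)] c0 :: [addD [(1, 1, 0, 0)] c0]) with hE
  set EM := (E.map (matr p q m 24)).prod with hEM
  have hl0 : c0.length = 24 := Irr_len 0
  have hE1 : EM = (A0 - 1) * (A0 + p • (1 : Matrix (Fin 24) (Fin 24) R)) := by
    rw [hEM, hE]
    simp only [List.map_cons, List.map_nil, List.prod_cons, List.prod_nil, mul_one]
    rw [irr_addD _ _ _ _ _ hl0, irr_addD _ _ _ _ _ hl0]
    have e1 : ev p q m [(-1, 0, 0, 0)] = -1 := by simp [ev, evm]
    have e2 : ev p q m [(1, 1, 0, 0)] = p := by simp [ev, evm]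
    rw [e1, e2, ← hA0, neg_smul, one_smul, neg_add_eq_sub, add_comm (p • _)]
  -- rank one
  have hrow : ∀ i j : Fin 24, i ≠ 0 → EM i j = 0 := by
    intro i j hi
    have h := of_tst Irr_o (by simp) (by simp) Irr_t p q m
    have h1 : matr p q m 24 f0 * EM = matr p q m 24 zz := by
      rw [hEM, hE]
      simp only [List.map_cons, List.map_nil, List.prod_cons, List.prod_nil, mul_one] at h ⊢
      exact h
    have h2 := congrFun (congrFun h1 i) j
    have h3 : matr p q m 24 zz i j = 0 := by
      change ev p q m (coef j (zz.getD i [])) = 0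
      have h4 : zz.getD i [] = [] := by
        unfold zz
        rw [List.getD_eq_getElem?_getD, List.getElem?_replicate]
        split_ifs <;> rfl
      rw [h4]
      rfl
    rw [h3, Matrix.mul_apply, Finset.sum_eq_single i] at h2
    · have h5 : matr p q m 24 f0 i i = 1 := by
        change ev p q m (coef i (f0.getD i [])) = 1
        rw [Irr_f0 i hi]
        simp [coef, ev, evm]
      rwa [h5, one_mul] at h2
    · intro k _ hk
      have h5 : matr p q m 24 f0 i k = 0 := by
        change ev p q m (coef k (f0.getD i [])) = 0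
        rw [Irr_f0 i hi]
        have h7 : (i : ℕ) ≠ k := fun h => hk (Fin.ext h.symm)
        simp [coef, ev, h7]
      rw [h5, zero_mul]
    · intro h
      exact absurd (Finset.mem_univ _) h
  let K := FractionRing R
  let ι := algebraMap R K
  have hι : Function.Injective ι := IsFractionRing.injective R K
  have hmul : ∀ x y, mK ρ (x * y) = mK ρ x * mK ρ y := by
    intro x y
    unfold mK
    rw [map_mul, Units.val_mul, Matrix.map_mul]
  have hone : mK ρ 1 = 1 := by
    unfold mK
    rw [map_one, Units.val_one, Matrix.map_one _ (map_zero _) (map_one _)]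
  -- the product of the generators of a word
  have hword : ∀ w : List (Fin 4), mK ρ ((w.map (gn CoxeterMatrix.F₄)).prod) =
      ((w.map fun s => matr p q m 24 (D s)).prod).map ι := by
    intro w
    induction w with
    | nil =>
      simp only [List.map_nil, List.prod_nil]
      rw [hone, Matrix.map_one _ (map_zero _) (map_one _)]
    | cons s w ih =>
      simp only [List.map_cons, List.prod_cons]
      rw [hmul, ih, Matrix.map_mul, ← hρ s]
      rfl
  -- the rank one matrix
  let lam : Fin 24 → K := fun j => ι (EM 0 j)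
  have hrk : EM.map ι = Matrix.vecMulVec (Pi.single 0 1) lam := by
    ext i j
    rw [Matrix.map_apply, Matrix.vecMulVec_apply]
    by_cases hi : i = 0
    · rw [hi, Pi.single_eq_same, one_mul]
    · rw [hrow i j hi, map_zero, Pi.single_eq_of_ne hi, zero_mul]
  refine Irr_abs (fun x => mK ρ x) hmul (Pi.single 0 1) lam ?_
    (fun i => ((ws.getD i []).map (gn CoxeterMatrix.F₄)).prod) ?_
    (fun i => ((ws.getD i []).reverse.map (gn CoxeterMatrix.F₄)).prod) ?_
  · rw [← hrk, hE1]
    have h1 : (A0 - 1) * (A0 + p • (1 : Matrix (Fin 24) (Fin 24) R)) =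
        A0 * A0 + (p • A0 - A0) - p • (1 : Matrix (Fin 24) (Fin 24) R) := by
      rw [sub_mul, mul_add, one_mul, mul_smul_comm, mul_one]
      abel
    have h2 : (A0.map ι) = mK ρ (gn CoxeterMatrix.F₄ 0) := by
      unfold mK
      rw [hρ]
      rfl
    have h3 : ((A0 - 1) * (A0 + p • (1 : Matrix (Fin 24) (Fin 24) R))).map ι =
        mK ρ (gn CoxeterMatrix.F₄ 0 * gn CoxeterMatrix.F₄ 0) +
          (ι p • mK ρ (gn CoxeterMatrix.F₄ 0) - mK ρ (gn CoxeterMatrix.F₄ 0)) -
          ι p • mK ρ 1 := by
      rw [h1, hmul, hone, ← h2]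
      ext i j
      simp only [Matrix.map_apply, Matrix.sub_apply, Matrix.add_apply, Matrix.smul_apply,
        Matrix.mul_apply, smul_eq_mul, map_sub, map_add, map_mul, map_sum, Matrix.one_apply]
      split_ifs <;> simp
    rw [h3]
    have hm : ∀ x, mK ρ x ∈ Submodule.span K (Set.range fun x => mK ρ x) := fun x =>
      Submodule.subset_span ⟨x, rfl⟩
    exact Submodule.sub_mem _ (Submodule.add_mem _ (hm _) (Submodule.sub_mem _
      (Submodule.smul_mem _ _ (hm _)) (hm _))) (Submodule.smul_mem _ _ (hm _))
  · -- vectors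
    have h1 : (Matrix.of fun b c : Fin 24 =>
        ((mK ρ (((ws.getD b []).map (gn CoxeterMatrix.F₄)).prod)).mulVec (Pi.single 0 1)) c) = (Matrix.of fun b c : Fin 24 =>
        ((((ws.getD b []).map D).map (matr p q m 24)).prod.mulVec (Pi.single 0 1)) c).map ι := by
      ext b c
      rw [Matrix.of_apply, Matrix.map_apply, Matrix.of_apply, hword, List.map_map,
        Matrix.mulVec_single_one, Matrix.mulVec_single_one]
      rfl
    rw [h1, ← RingHom.mapMatrix_apply, ← RingHom.map_det]
    intro h2
    have h3 := hι (h2.trans (map_zero ι).symm)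
    have h4 := congrArg φ h3
    rw [RingHom.map_det, map_zero] at h4
    have h5 : φ.mapMatrix (Matrix.of fun b c : Fin 24 =>
        ((((ws.getD b []).map D).map (matr p q m 24)).prod.mulVec (Pi.single 0 1)) c) =
        (Int.castRingHom ℂ).mapMatrix (Matrix.of fun b c : Fin 24 =>
          (cV (ws.getD b [])).getD c 0) := by
      ext b c
      rw [RingHom.mapMatrix_apply, RingHom.mapMatrix_apply, Matrix.map_apply, Matrix.map_apply,
        Matrix.of_apply, Matrix.of_apply]
      refine Irr_val φ hp hq hm _ ?_ c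
      intro C hC
      obtain ⟨s, -, rfl⟩ := List.mem_map.1 hC
      exact (Irr_len s).le
    rw [h5, ← RingHom.map_det] at h4
    have h6 : (Matrix.of fun b c : Fin 24 => (cV (ws.getD b [])).getD c 0).det = 0 := by
      have : ((Matrix.of fun b c : Fin 24 => (cV (ws.getD b [])).getD c 0).det : ℂ) = 0 := h4
      exact_mod_cast this
    exact Irr_det tV iV nV _ (Irr_ws cV tV kV) h6
  · -- functionals
    have hlam : ∀ w : List (Fin 4), ∀ c : Fin 24,
        Matrix.vecMul lam (mK ρ ((w.reverse.map (gn CoxeterMatrix.F₄)).prod)) c =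
        ι (((((w.map fun s => trp (D s)) ++ fL).map (matr p q m 24)).prod.mulVec
          (Pi.single 0 1)) c) := by
      intro w c
      have e1 : ((fL.map (matr p q m 24)).prod) = EM.transpose := by
        rw [hEM, hE]
        unfold fL
        simp only [List.map_cons, List.map_nil, List.prod_cons, List.prod_nil, mul_one]
        rw [matr_trp, matr_trp, Matrix.transpose_mul]
      have e2 : ((w.map fun s => trp (D s)).map (matr p q m 24)).prod =
          (((w.reverse.map fun s => matr p q m 24 (D s)).prod)).transpose := by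
        rw [Matrix.transpose_list_prod, List.map_map, List.map_map, List.map_reverse,
          List.reverse_reverse]
        congr 1
        refine List.map_congr_left fun s _ => ?_
        exact matr_trp p q m (D s)
      have e3 : (((((w.map fun s => trp (D s)) ++ fL).map (matr p q m 24)).prod.mulVec
          (Pi.single 0 1)) c) =
          (EM * (w.reverse.map fun s => matr p q m 24 (D s)).prod) 0 c := by
        rw [List.map_append, List.prod_append, e1, e2, ← Matrix.transpose_mul,
          Matrix.mulVec_single_one]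
        rfl
      rw [e3, hword, Matrix.vecMul, dotProduct, Matrix.mul_apply, map_sum]
      refine Finset.sum_congr rfl fun k _ => ?_
      rw [map_mul]
      rfl
    have h1 : (Matrix.of fun b c : Fin 24 => Matrix.vecMul lam
        (mK ρ (((ws.getD b []).reverse.map (gn CoxeterMatrix.F₄)).prod)) c) =
        (Matrix.of fun b c : Fin 24 => (((((ws.getD b []).map fun s => trp (D s)) ++ fL).map
          (matr p q m 24)).prod.mulVec (Pi.single 0 1)) c).map ι := by
      ext b c
      rw [Matrix.of_apply, Matrix.map_apply, Matrix.of_apply, hlam]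
    rw [h1, ← RingHom.mapMatrix_apply, ← RingHom.map_det]
    intro h2
    have h3 := hι (h2.trans (map_zero ι).symm)
    have h4 := congrArg φ h3
    rw [RingHom.map_det, map_zero] at h4
    have h5 : φ.mapMatrix (Matrix.of fun b c : Fin 24 =>
        (((((ws.getD b []).map fun s => trp (D s)) ++ fL).map
          (matr p q m 24)).prod.mulVec (Pi.single 0 1)) c) =
        (Int.castRingHom ℂ).mapMatrix (Matrix.of fun b c : Fin 24 =>
          (cL (ws.getD b [])).getD c 0) := by
      ext b c
      rw [RingHom.mapMatrix_apply, RingHom.mapMatrix_apply, Matrix.map_apply, Matrix.map_apply,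
        Matrix.of_apply, Matrix.of_apply]
      refine Irr_val φ hp hq hm _ ?_ c
      intro C hC
      rcases List.mem_append.1 hC with hC | hC
      · obtain ⟨s, -, rfl⟩ := List.mem_map.1 hC
        exact (Irr_lenT _).le
      · unfold fL at hC
        rcases List.mem_cons.1 hC with rfl | hC
        · exact (Irr_lenT _).le
        · rw [List.mem_singleton] at hC
          subst hC
          exact (Irr_lenT _).le
    rw [h5, ← RingHom.map_det] at h4
    have h6 : (Matrix.of fun b c : Fin 24 => (cL (ws.getD b [])).getD c 0).det = 0 := by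
      have : ((Matrix.of fun b c : Fin 24 => (cL (ws.getD b [])).getD c 0).det : ℂ) = 0 := h4
      exact_mod_cast this
    exact Irr_det tL iL nL _ (Irr_ws cL tL kL) h6

end Pool.Agent.Lib.MP_97567f_al.F4
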