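import Pool.Agent.Lib.MP_97567f_al.F4.FinA
import Pool.Agent.Lib.MP_97567f_al.F4.Irr
import Pool.Agent.Lib.MP_97567f_al.U.Jle
import Pool.Agent.Lib.MP_97567f_al.U.Jnz
import Pool.Agent.Lib.MP_97567f_al.U.Jst
import Pool.Agent.Lib.MP_97567f_al.U.TB.Rf
import Pool.Agent.Lib.MP_97567f_al.U.TB.Rs
import Pool.Agent.Lib.MP_97567f_al.U.TB.Ru

/-!
# MP_97567f_al: type F4: the special surfaces
-/

set_option autoImplicit false

namespace Pool.Agent.Lib.MP_97567f_al.F4

open Pool.Agent.Lib.MP_97567f_al.U Pool.Agent.Lib.MP_97567f_al.U.TB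

section general

variable {A : Type} [Group A] {K : Type} [Field K] {ι : Type} [Fintype ι] [DecidableEq ι]

/-- A subspace stable under generators is stable. -/
private theorem Fin_stab (ρ : A →* GL ι K) (W : Submodule K (ι → K)) (S : Set A)
    (hS : Subgroup.closure S = ⊤) (h : ∀ s ∈ S, ∀ v ∈ W, (ρ s).1.mulVec v ∈ W) (x : A) :
    ∀ v ∈ W, (ρ x).1.mulVec v ∈ W := by
  let P : Subgroup A :=
    { carrier := {x | ∀ v ∈ W, (ρ x).1.mulVec v ∈ W}
      one_mem' := by
        intro v hv
        rw [map_one, Units.val_one, Matrix.one_mulVec]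
        exact hv
      mul_mem' := by
        intro a b ha hb v hv
        rw [map_mul, Units.val_mul, ← Matrix.mulVec_mulVec]
        exact ha _ (hb v hv)
      inv_mem' := by
        intro a ha v hv
        have hinj : Function.Injective (Matrix.mulVecLin (ρ a).1) := by
          intro u w huw
          have h1 : (ρ a).1.mulVec u = (ρ a).1.mulVec w := huw
          have h2 := congrArg (fun y => ((ρ a)⁻¹).1.mulVec y) h1
          simp only [Matrix.mulVec_mulVec] at h2
          rwa [← Units.val_mul, inv_mul_cancel, Units.val_one, Matrix.one_mulVec,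
            Matrix.one_mulVec] at h2
        have hle : W.map (Matrix.mulVecLin (ρ a).1) ≤ W := by
          rintro _ ⟨u, hu, rfl⟩
          exact ha u hu
        have heq : W.map (Matrix.mulVecLin (ρ a).1) = W := by
          refine Submodule.eq_of_le_of_finrank_eq hle ?_
          exact (Submodule.equivMapOfInjective _ hinj W).finrank_eq.symm
        have hv' : v ∈ W.map (Matrix.mulVecLin (ρ a).1) := by rw [heq]; exact hv
        obtain ⟨u, hu, hu'⟩ := hv'
        have h3 : (ρ a⁻¹).1.mulVec v = u := by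
          rw [← hu', Matrix.mulVecLin_apply, Matrix.mulVec_mulVec, ← Units.val_mul, ← map_mul,
            inv_mul_cancel, map_one, Units.val_one, Matrix.one_mulVec]
        rw [h3]
        exact hu }
  have hx : x ∈ P := by
    have h1 : Subgroup.closure S ≤ P := (Subgroup.closure_le P).2 h
    exact h1 (by rw [hS]; trivial)
  exact hx

omit [Group A] in
/-- If a proper subspace is stable then the matrices do not span. -/
private theorem Fin_span (X : A → Matrix ι ι K) (W : Submodule K (ι → K)) (h0 : W ≠ ⊥)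
    (h1 : W ≠ ⊤) (h : ∀ x, ∀ v ∈ W, (X x).mulVec v ∈ W) :
    Submodule.span K (Set.range X) ≠ ⊤ := by
  intro htop
  apply h1
  obtain ⟨w, hw, hw0⟩ := (Submodule.ne_bot_iff W).1 h0
  obtain ⟨b, hb⟩ := Function.ne_iff.1 hw0
  have hb' : w b ≠ 0 := hb
  rw [eq_top_iff]
  intro v _
  have key : ∀ Y : Matrix ι ι K, Y ∈ Submodule.span K (Set.range X) → Y.mulVec w ∈ W := by
    intro Y hY
    induction hY using Submodule.span_induction with
    | mem y hy =>
      obtain ⟨x, rfl⟩ := hy
      exact h x w hw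
    | zero => rw [Matrix.zero_mulVec]; exact W.zero_mem
    | add y z _ _ hy hz => rw [Matrix.add_mulVec]; exact W.add_mem hy hz
    | smul c y _ hy => rw [Matrix.smul_mulVec]; exact W.smul_mem c hy
  have h2 := key (Matrix.vecMulVec v (Pi.single b (w b)⁻¹)) (by rw [htop]; trivial)
  have h3 : (Matrix.vecMulVec v (Pi.single b (w b)⁻¹)).mulVec w = v := by
    ext i
    rw [Matrix.mulVec, dotProduct, Finset.sum_eq_single b]
    · rw [Matrix.vecMulVec_apply, Pi.single_eq_same, mul_assoc, inv_mul_cancel₀ hb', mul_one]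
    · intro c _ hc
      rw [Matrix.vecMulVec_apply, Pi.single_eq_of_ne hc, mul_zero, zero_mul]
    · intro hh
      exact absurd (Finset.mem_univ _) hh
  rwa [h3] at h2

end general

/-- The change of variables. -/
theorem chg : ∃ α : R3 ≃ₐ[ℂ] R3, α r0 = r0 ∧ α r1 = r1 ∧ α r2 = r0 ^ 6 * r1 ^ 6 * r2 := by
  let u : R3ˣ := r0_unit.unit ^ 6 * r1_unit.unit ^ 6
  have hu : (u : R3) = r0 ^ 6 * r1 ^ 6 := rfl
  obtain ⟨φ, f0, f1, f2⟩ := R3_lift r0_unit r1_unit (u.isUnit.mul r2_unit)
  obtain ⟨ψ, g0, g1, g2⟩ := R3_lift r0_unit r1_unit ((u⁻¹).isUnit.mul r2_unit)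
  have hf : ∀ χ : R3 →ₐ[ℂ] R3, χ r0 = r0 → χ r1 = r1 →
      χ (u : R3) = u ∧ χ ((u⁻¹ : R3ˣ) : R3) = ((u⁻¹ : R3ˣ) : R3) := by
    intro χ h0 h1
    have e1 : χ (u : R3) = u := by rw [hu, map_mul, map_pow, map_pow, h0, h1]
    refine ⟨e1, ?_⟩
    have e2 : χ ((u⁻¹ : R3ˣ) : R3) * u = 1 := by
      conv_lhs => rw [← e1]
      rw [← map_mul, Units.inv_mul, map_one]
    exact Units.eq_inv_of_mul_eq_one_left (by rw [mul_comm]; exact e2)
  refine ⟨AlgEquiv.ofAlgHom φ ψ ?_ ?_, f0, f1, f2⟩
  · refine R3_ext ?_ ?_ ?_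
    · change φ (ψ r0) = r0
      rw [g0, f0]
    · change φ (ψ r1) = r1
      rw [g1, f1]
    · change φ (ψ r2) = r2
      rw [g2, map_mul, (hf φ f0 f1).2, f2, ← mul_assoc, Units.inv_mul, one_mul]
  · refine R3_ext ?_ ?_ ?_
    · change ψ (φ r0) = r0
      rw [f0, g0]
    · change ψ (φ r1) = r1
      rw [f1, g1]
    · change ψ (φ r2) = r2
      rw [f2, map_mul, (hf ψ g0 g1).1, g2, ← mul_assoc, Units.mul_inv, one_mul]

/-- The matrices do not span on the special surfaces. -/
theorem not_span {K : Type} [Field K] (φ : R3 →+* K)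
    (h : φ r0 = 1 ∨ φ r1 = 1 ∨ (φ r0 ≠ 1 ∧ φ r0 ^ 6 * φ r1 ^ 6 * φ r2 = 1)) :
    Submodule.span K (Set.range fun x : Art CoxeterMatrix.F₄ => (rho3 x).1.map φ) ≠ ⊤ := by
  let ρ : Art CoxeterMatrix.F₄ →* GL (Fin 24) K :=
    (Units.map (RingHom.mapMatrix φ).toMonoidHom).comp rho3
  have hρ : ∀ s, (ρ (gn CoxeterMatrix.F₄ s)).1 = gm (φ r0) (φ r1) (φ r2) s := by
    intro s
    change (rho3 (gn CoxeterMatrix.F₄ s)).1.map φ = _
    rw [rho3_gn, gm_map]
  have main : ∀ W : Submodule K (Fin 24 → K), W ≠ ⊥ → W ≠ ⊤ →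
      (∀ s, ∀ v ∈ W, (gm (φ r0) (φ r1) (φ r2) s).mulVec v ∈ W) →
      Submodule.span K (Set.range fun x : Art CoxeterMatrix.F₄ => (rho3 x).1.map φ) ≠ ⊤ := by
    intro W hW0 hW1 hW
    refine Fin_span (fun x => (rho3 x).1.map φ) W hW0 hW1 fun x => ?_
    refine Fin_stab ρ W _ (pArt 4 CoxeterMatrix.F₄).2.2.2.1 ?_ x
    rintro _ ⟨s, rfl⟩ v hv
    rw [hρ s]
    exact hW s v hv
  rcases h with h | h | ⟨h0, h⟩
  · let W : Submodule K (Fin 24 → K) :=
      { carrier := {v | ∀ g : Fin 24, lg g = true → v g = 0}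
        add_mem' := by
          intro a b ha hb g hg
          rw [Pi.add_apply, ha g hg, hb g hg, add_zero]
        zero_mem' := fun g _ => rfl
        smul_mem' := by
          intro c a ha g hg
          rw [Pi.smul_apply, ha g hg, smul_zero] }
    refine main W ?_ ?_ ?_
    · intro hh
      have h7 : (Pi.single 2 1 : Fin 24 → K) ∈ W := by
        intro g hg
        refine Pi.single_eq_of_ne ?_ _
        rintro rfl
        exact absurd hg (by decide)
      rw [hh, Submodule.mem_bot] at h7
      have h8 := congrFun h7 2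
      rw [Pi.single_eq_same] at h8
      exact one_ne_zero h8
    · intro hh
      have h7 : (Pi.single 0 1 : Fin 24 → K) ∈ W := by rw [hh]; trivial
      have h8 := h7 0 (by decide)
      rw [Pi.single_eq_same] at h8
      exact one_ne_zero h8
    · intro s v hv g hg
      rw [Matrix.mulVec, dotProduct]
      refine Finset.sum_eq_zero fun b _ => ?_
      by_cases hb : lg b = true
      · rw [hv b hb, mul_zero]
      · rw [h, gm_p1 _ _ s g b hg (by simpa using hb), zero_mul]
  · let W : Submodule K (Fin 24 → K) :=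
      { carrier := {v | ∀ g : Fin 24, lg g = false → v g = 0}
        add_mem' := by
          intro a b ha hb g hg
          rw [Pi.add_apply, ha g hg, hb g hg, add_zero]
        zero_mem' := fun g _ => rfl
        smul_mem' := by
          intro c a ha g hg
          rw [Pi.smul_apply, ha g hg, smul_zero] }
    refine main W ?_ ?_ ?_
    · intro hh
      have h7 : (Pi.single 0 1 : Fin 24 → K) ∈ W := by
        intro g hg
        refine Pi.single_eq_of_ne ?_ _
        rintro rfl
        exact absurd hg (by decide)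
      rw [hh, Submodule.mem_bot] at h7
      have h8 := congrFun h7 0
      rw [Pi.single_eq_same] at h8
      exact one_ne_zero h8
    · intro hh
      have h7 : (Pi.single 2 1 : Fin 24 → K) ∈ W := by rw [hh]; trivial
      have h8 := h7 2 (by decide)
      rw [Pi.single_eq_same] at h8
      exact one_ne_zero h8
    · intro s v hv g hg
      rw [Matrix.mulVec, dotProduct]
      refine Finset.sum_eq_zero fun b _ => ?_
      by_cases hb : lg b = true
      · rw [h, gm_q1 _ _ s g b hg hb, zero_mul]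
      · rw [hv b (by simpa using hb), mul_zero]
  · have hw0 : wv (φ r0) (φ r1) 0 ≠ 0 := by
      have : wv (φ r0) (φ r1) 0 = 1 - φ r0 := rfl
      rw [this]
      exact sub_ne_zero.2 (Ne.symm h0)
    refine main (Submodule.span K {wv (φ r0) (φ r1)}) ?_ ?_ ?_
    · intro hh
      rw [Submodule.span_singleton_eq_bot] at hh
      exact hw0 (by rw [hh]; rfl)
    · intro hh
      have h7 : (Pi.single 1 1 : Fin 24 → K) ∈ Submodule.span K {wv (φ r0) (φ r1)} := by
        rw [hh]; trivial
      obtain ⟨c, hc⟩ := Submodule.mem_span_singleton.1 h7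
      have h8 := congrFun hc 0
      rw [Pi.smul_apply, smul_eq_mul, Pi.single_eq_of_ne (by decide)] at h8
      have h9 : c = 0 := (mul_eq_zero.1 h8).resolve_right hw0
      have h10 := congrFun hc 1
      rw [h9, zero_smul, Pi.single_eq_same] at h10
      exact zero_ne_one h10
    · intro s v hv
      obtain ⟨c, rfl⟩ := Submodule.mem_span_singleton.1 hv
      rw [Matrix.mulVec_smul, gm_w _ _ _ h s]
      exact Submodule.smul_mem _ c (Submodule.mem_span_singleton_self _)

theorem rho3_irr : Submodule.span (FractionRing R3)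
    (Set.range fun x : Art CoxeterMatrix.F₄ => mK rho3 x) = ⊤ := by
  obtain ⟨φ, h0, h1, h2⟩ := R3_lift (S := ℂ) (a := 2) (b := 4) (c := 2)
    (by simp) (by simp) (by simp)
  exact irrF4 rho3 rho3_gn φ.toRingHom h0 h1 h2

/-- **The special surfaces.** -/
theorem rho3_fin : FinP rho3 := by
  obtain ⟨α, a0, a1, a2⟩ := chg
  have hRf : SRf := pRf pRu pRs
  refine ⟨3, fun _ => J2 rho3, fun i => α (rr i - 1), fun i => ⟨?_, ?_, ?_, ?_⟩, ?_⟩
  · exact (pJst (Art CoxeterMatrix.F₄) R3 (Fin 24) rho3).2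
  · exact (pJnz (Art CoxeterMatrix.F₄) R3 (Fin 24) rho3 rho3_irr).2
  · obtain ⟨_, _, h, _⟩ := pRs i
    exact (MulEquiv.prime_iff (α : R3 ≃* R3)).2 h
  · obtain ⟨π, hker, -, h1, h2, h3⟩ := pRs i
    let φ : R3 →+* K2 := (π : R3 →+* K2).comp (α.symm : R3 →+* R3)
    refine (pJle (Art CoxeterMatrix.F₄) R3 (Fin 24) rho3 K2 φ (α (rr i - 1)) ?_).2.1 ?_
    · intro x hx
      have h4 := hker (α.symm x) hx
      rw [Ideal.mem_span_singleton] at h4 ⊢
      have h5 := map_dvd α h4
      rwa [AlgEquiv.apply_symm_apply] at h5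
    · refine not_span φ ?_
      have e0 : φ r0 = π r0 := by
        change π (α.symm r0) = π r0
        conv_lhs => rw [← a0]
        rw [AlgEquiv.symm_apply_apply]
      have e1 : φ r1 = π r1 := by
        change π (α.symm r1) = π r1
        conv_lhs => rw [← a1]
        rw [AlgEquiv.symm_apply_apply]
      have e2 : φ (r0 ^ 6 * r1 ^ 6 * r2) = π r2 := by
        change π (α.symm (r0 ^ 6 * r1 ^ 6 * r2)) = π r2
        rw [← a2, AlgEquiv.symm_apply_apply]
      have hi : i = 0 ∨ i = 1 ∨ i = 2 := by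
        fin_cases i <;> simp
      rcases hi with rfl | rfl | rfl
      · exact Or.inl (e0.trans h1)
      · exact Or.inr (Or.inl (e1.trans h1))
      · refine Or.inr (Or.inr ⟨?_, ?_⟩)
        · have h4 : π r0 = algebraMap R2 K2 qq := h2
          rw [e0, h4]
          intro h5
          rw [← map_one (algebraMap R2 K2)] at h5
          have h6 : qq = 1 := IsFractionRing.injective R2 K2 h5
          obtain ⟨χ, c0, -⟩ := R2_lift (S := ℂ) (a := 2) (b := 2) (by simp) (by simp)
          rw [h6, map_one] at c0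
          norm_num at c0
        · rw [← map_pow, ← map_pow, ← map_mul, ← map_mul, e2]
          exact h1
  · let c : (R3 ≃ₐ[ℂ] R3) → (R3 ≃ₐ[ℂ] R3) := fun θ => (α.trans θ).trans α.symm
    have hc : Function.Injective c := by
      intro θ θ' h
      ext x
      have h1 := congrArg (fun f : R3 ≃ₐ[ℂ] R3 => α (f (α.symm x))) h
      simpa [c] using h1
    refine (Set.Finite.preimage hc.injOn hRf).subset ?_
    intro θ hθ i
    have h1 := hθ i
    rw [Ideal.span_singleton_eq_span_singleton] at h1 ⊢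
    have h2 := h1.map (α.symm : R3 →* R3)
    change Associated (α.symm (θ (α (rr i - 1)))) (rr i - 1)
    have h3 : (α.symm (α (rr i - 1))) = rr i - 1 := α.symm_apply_apply _
    rw [← h3]
    simpa using h2

end Pool.Agent.Lib.MP_97567f_al.F4
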