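import Pool.Agent.Lib.MP_97567f_al.F4.Fam

/-!
# MP_97567f_al: type F4: invariant subspaces on the surfaces `p = 1`, `q = 1`, `p ^ 6 q ^ 6 m = 1`
-/

set_option autoImplicit false

namespace Pool.Agent.Lib.MP_97567f_al.F4

/-- The root with the number `i` is long. -/
def lg (i : ℕ) : Bool := [true, true, false, false, true, false, false, false, true, false, true,
  false, false, true, false, true, false, true, false, true, false, true, true, true].getD i false

/-- Vanishing of a polynomial, a sufficient condition. -/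
def zt (x : Pl) : Bool :=
  x.all (fun t => decide (t.2.1 < 16) && decide (t.2.2.1 < 16) && decide (t.2.2.2 < 4)) &&
    decide (nrm x < 2 ^ 12) && evZ 12 (12 * 16) (12 * (16 * 16)) x == 0

theorem zt_sound {x : Pl} (h : zt x = true) {R : Type*} [CommRing R] (p q m : R) :
    ev p q m x = 0 := by
  simp only [zt, Bool.and_eq_true, List.all_eq_true, decide_eq_true_eq, beq_iff_eq] at h
  obtain ⟨⟨h1, h2⟩, h3⟩ := h
  rw [evZ_eq] at h3
  refine ev_zero (A := 16) (B := 16) (C := 4) (X := 2 ^ 12)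
    (fun t ht => ⟨(h1 t ht).1.1, (h1 t ht).1.2, (h1 t ht).2⟩) h2 ?_ p q m
  have e1 : ((2 ^ 12 : ℕ) : ℤ) = (2 : ℤ) ^ 12 := Nat.cast_pow 2 12
  rw [e1, ← pow_mul, ← pow_mul]
  exact h3

/-- The value at `p = 1`. -/
def cp (x : Pl) : Pl := x.map fun t => (t.1, 0, t.2.2.1, t.2.2.2)

/-- The value at `q = 1`. -/
def cq (x : Pl) : Pl := x.map fun t => (t.1, t.2.1, 0, t.2.2.2)

theorem ev_cp {R : Type*} [CommRing R] (q m : R) (x : Pl) : ev 1 q m (cp x) = ev 1 q m x := by
  unfold ev cp
  rw [List.map_map]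
  congr 1
  refine List.map_congr_left fun t _ => ?_
  simp [evm]

theorem ev_cq {R : Type*} [CommRing R] (p m : R) (x : Pl) : ev p 1 m (cq x) = ev p 1 m x := by
  unfold ev cq
  rw [List.map_map]
  congr 1
  refine List.map_congr_left fun t _ => ?_
  simp [evm]

private theorem chk_p : ∀ (s : Fin 4) (i j : Fin 24), lg i = true → lg j = false →
    zt (cp (coef j ((D s).getD i []))) = true := by decide +kernel

private theorem chk_q : ∀ (s : Fin 4) (i j : Fin 24), lg i = false → lg j = true →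
    zt (cq (coef j ((D s).getD i []))) = true := by decide +kernel

theorem gm_p1 {R : Type*} [CommRing R] (q m : R) (s : Fin 4) (i j : Fin 24) (hi : lg i = true)
    (hj : lg j = false) : gm 1 q m s i j = 0 := by
  rw [gm_apply, ← ev_cp]
  exact zt_sound (chk_p s i j hi hj) 1 q m

theorem gm_q1 {R : Type*} [CommRing R] (p m : R) (s : Fin 4) (i j : Fin 24) (hi : lg i = false)
    (hj : lg j = true) : gm p 1 m s i j = 0 := by
  rw [gm_apply, ← ev_cq]
  exact zt_sound (chk_q s i j hi hj) p 1 m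

/-- The invariant vector. -/
def wP (i : ℕ) : Pl := if lg i then [(1, 0, 0, 0), (-1, 1, 0, 0)] else [(1, 0, 0, 0), (-1, 0, 1, 0)]

/-- The deviation. -/
def dP (s i : ℕ) : Pl :=
  if s = i then pmul (if lg s then [(1, 0, 0, 0), (-1, 1, 0, 0)] else [(1, 0, 0, 0), (-1, 0, 1, 0)])
    [(1, 6, 6, 1), (-1, 0, 0, 0)] else []

private theorem chk_w : ∀ (s : Fin 4) (i : Fin 24),
    zt ((List.range 24).flatMap (fun j => pmul (coef j ((D s).getD i [])) (wP j)) ++
      pneg (wP i) ++ pneg (dP s i)) = true := by decide +kernel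

/-- The value of the invariant vector. -/
def wv {R : Type*} [CommRing R] (p q : R) (i : Fin 24) : R := if lg i then 1 - p else 1 - q

theorem ev_wP {R : Type*} [CommRing R] (p q m : R) (i : Fin 24) : ev p q m (wP i) = wv p q i := by
  unfold wP wv
  split_ifs <;> simp [ev, evm, sub_eq_add_neg]

theorem gm_w {R : Type*} [CommRing R] (p q m : R) (h : p ^ 6 * q ^ 6 * m = 1) (s : Fin 4) :
    (gm p q m s).mulVec (wv p q) = wv p q := by
  ext i
  have h1 := zt_sound (chk_w s i) p q m
  rw [ev_append, ev_append, ev_pneg, ev_pneg, ev_flatMap, sum_range_fin, ev_wP] at h1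
  have h2 : ev p q m (dP s i) = 0 := by
    unfold dP
    split_ifs
    · rw [ev_pmul]
      have h3 : ev p q m [(1, 6, 6, 1), (-1, 0, 0, 0)] = 0 := by
        have : ev p q m [(1, 6, 6, 1), (-1, 0, 0, 0)] = p ^ 6 * q ^ 6 * m - 1 := by
          simp [ev, evm, sub_eq_add_neg]
        rw [this, h, sub_self]
      rw [h3, mul_zero]
    · rw [ev_pmul]
      have h3 : ev p q m [(1, 6, 6, 1), (-1, 0, 0, 0)] = 0 := by
        have : ev p q m [(1, 6, 6, 1), (-1, 0, 0, 0)] = p ^ 6 * q ^ 6 * m - 1 := by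
          simp [ev, evm, sub_eq_add_neg]
        rw [this, h, sub_self]
      rw [h3, mul_zero]
    · rfl
  rw [h2, neg_zero, add_zero] at h1
  rw [Matrix.mulVec, dotProduct, ← add_neg_eq_zero, ← h1]
  congr 1
  refine Finset.sum_congr rfl fun j _ => ?_
  rw [gm_apply, ev_pmul, ev_wP]

end Pool.Agent.Lib.MP_97567f_al.F4
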