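import Pool.Agent.Lib.MP_97567f_al.F4.Fai

/-!
# MP_97567f_al: type F4: `Good` from the properties of the representation
-/

set_option autoImplicit false

namespace Pool.Agent.Lib.MP_97567f_al.F4

open Pool.Agent.Lib.MP_97567f_al.U

/-- The sum of the coefficients. -/
private def sc (x : Pl) : ℤ := (x.map fun t => t.1).sum

private theorem ev_one {R : Type} [CommRing R] (x : Pl) : ev (1 : R) 1 1 x = (sc x : R) := by
  induction x with
  | nil => simp [ev, sc]
  | cons t x ih =>
    have h : sc (t :: x) = t.1 + sc x := by simp [sc]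
    rw [ev_cons, ih, h, Int.cast_add]
    simp [evm]

private theorem rows_one : ∀ (s : Fin 4) (i : Fin 24),
    ((List.range 24).map fun j => sc (ent (D s) i j)).sum = 1 := by
  decide +kernel

private theorem fix_one (s : Fin 4) :
    (matr (1 : ℂ) 1 1 24 (D s)).mulVec (fun _ => 1) = fun _ => 1 := by
  funext i
  have h1 : ∑ j : Fin 24, sc (ent (D s) i j) = 1 := by
    rw [← sum_range_fin 24 fun j => sc (ent (D s) i j)]
    exact rows_one s i
  have h2 : (matr (1 : ℂ) 1 1 24 (D s)).mulVec (fun _ => 1) i =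
      ∑ j : Fin 24, ev (1 : ℂ) 1 1 (ent (D s) i j) := by
    rw [Matrix.mulVec, dotProduct]
    exact Finset.sum_congr rfl fun j _ => mul_one _
  rw [h2, Finset.sum_congr rfl fun j _ => ev_one _, ← Int.cast_sum, h1, Int.cast_one]

/-- **The type F4.** -/
theorem good_F4 (g2 : SMach) (g4 : SAbO) (g5 : SAbI) {R : Type} [CommRing R] [IsDomain R]
    [IsNoetherianRing R] [Algebra ℂ R] {p q m : R} (ρ : Art CoxeterMatrix.F₄ →* GL (Fin 24) R)
    (hρ : ∀ s, (ρ (gn CoxeterMatrix.F₄ s)).1 = matr p q m 24 (D s)) (hT : TFam ρ)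
    (hj : ∃ j : R →+* KK, Function.Injective j) (f : R →+* FractionRing (Polynomial ℂ))
    (hp : f p = 1 / 2) (hq : f q = 1 / 2)
    (hm : f m = algebraMap (Polynomial ℂ) _ Polynomial.X) (φ : R →ₐ[ℂ] ℂ) (h1 : φ p = 1)
    (h2 : φ q = 1) (h3 : φ m = 1) : Good (Art CoxeterMatrix.F₄) := by
  have hinj : Function.Injective ρ := by
    have h := faithful (ρ := (Units.coeHom (Matrix (Fin 24) (Fin 24) R)).comp ρ) hρ f hp hq hm
    intro x y hxy
    exact h (congrArg Units.val hxy)
  refine g2 (Art CoxeterMatrix.F₄) R (Fin 24) ρ hT hj ?_ ?_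
  · rintro z ⟨a, ha⟩ b
    apply hinj
    rw [map_mul, map_mul]
    apply Units.ext
    have hmi : Function.Injective (fun Y : Matrix (Fin 24) (Fin 24) R =>
        Y.map (algebraMap R (FractionRing R))) :=
      Matrix.map_injective (IsFractionRing.injective R (FractionRing R))
    apply hmi
    simp only [Units.val_mul, Matrix.map_mul]
    have ha' : (ρ z).1.map (algebraMap R (FractionRing R)) =
        a • (1 : Matrix (Fin 24) (Fin 24) (FractionRing R)) := ha
    rw [ha', smul_mul_assoc, one_mul, mul_smul_comm, mul_one]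
  · intro z hz hφ
    refine g4 (Art CoxeterMatrix.F₄) R (Fin 24) ρ hinj hT.irr ?_ z hz (g5 4 _ z hφ)
    refine ⟨φ, fun _ => 1, fun h => one_ne_zero (congrFun h 0), fun b => ?_⟩
    have hs : ∀ s, ((ρ (gn CoxeterMatrix.F₄ s)).1.map φ).mulVec (fun _ => 1) = fun _ => 1 := by
      intro s
      have h := matr_map p q m 24 (φ : R →+* ℂ) (D s)
      have h' : (ρ (gn CoxeterMatrix.F₄ s)).1.map φ = matr (1 : ℂ) 1 1 24 (D s) := by
        rw [hρ]
        refine h.trans ?_
        have e1 : (φ : R →+* ℂ) p = 1 := h1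
        have e2 : (φ : R →+* ℂ) q = 1 := h2
        have e3 : (φ : R →+* ℂ) m = 1 := h3
        rw [e1, e2, e3]
      rw [h', fix_one]
    have hmul : ∀ x y, (ρ (x * y)).1.map φ = (ρ x).1.map φ * (ρ y).1.map φ := by
      intro x y
      rw [map_mul, Units.val_mul, Matrix.map_mul]
    induction b using art_induction with
    | h1 =>
      rw [map_one, Units.val_one, Matrix.map_one φ (map_zero φ) (map_one φ), Matrix.one_mulVec]
    | hg i x ih => rw [hmul, ← Matrix.mulVec_mulVec, ih, hs]
    | hi i x ih =>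
      rw [hmul, ← Matrix.mulVec_mulVec, ih]
      have h5 : ((ρ (gn CoxeterMatrix.F₄ i)⁻¹).1.map φ).mulVec
          (((ρ (gn CoxeterMatrix.F₄ i)).1.map φ).mulVec (fun _ => 1)) = fun _ => 1 := by
        rw [Matrix.mulVec_mulVec, ← hmul, inv_mul_cancel, map_one, Units.val_one,
          Matrix.map_one φ (map_zero φ) (map_one φ), Matrix.one_mulVec]
      rw [hs] at h5
      exact h5

end Pool.Agent.Lib.MP_97567f_al.F4
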