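import Pool.Agent.Lib.MP_97567f_al.F4.Rel

/-!
# MP_97567f_al: type F4: the equations for the eigenvalues, by computation
-/

set_option autoImplicit false

namespace Pool.Agent.Lib.MP_97567f_al.F4

/-- The zero matrix. -/
def zz : List Sv := List.replicate 24 []

/-- The factors of the equation of a long generator. -/
def e3 (C : List Sv) : List (List Sv) :=
  [addD [(-1, 0, 0, 0)] C, addD [(1, 1, 0, 0)] C, addD [(-1, 2, 0, 1)] C]

/-- The factors of the equation of a short generator. -/
def e4 (C : List Sv) : List (List Sv) :=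
  [addD [(-1, 0, 0, 0)] C, addD [(1, 0, 1, 0)] C, addD [(-1, 1, 1, 0)] C, addD [(-1, 0, 2, 1)] C]

theorem o0 : (e3 c0 ++ [zz]).all (okC 24 128 6 7 1) = true := by decide +kernel

theorem o1 : (e3 c1 ++ [zz]).all (okC 24 128 6 7 1) = true := by decide +kernel

theorem o2 : (e4 c2 ++ [zz]).all (okC 24 128 6 7 1) = true := by decide +kernel

theorem o3 : (e4 c3 ++ [zz]).all (okC 24 128 6 7 1) = true := by decide +kernel

theorem t0 : tst (e3 c0) [zz] := by decide +kernel

theorem t1 : tst (e3 c1) [zz] := by decide +kernel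

theorem t2 : tst (e4 c2) [zz] := by decide +kernel

theorem t3 : tst (e4 c3) [zz] := by decide +kernel

end Pool.Agent.Lib.MP_97567f_al.F4
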