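import Pool.Agent.Lib.MP_97567f_al.U.Base
import Pool.Agent.Lib.MP_97567f_al.F4.Rel2

/-!
# MP_97567f_al: type F4: absolute irreducibility

`(s - 1) (s + p)` has rank one for the generator `s = 0`; the vectors `g x` and the functionals `f h`, for the words `g`, `h`
in the list `ws`, are bases at the point `p = 2`, `q = 4`, `m = 2` modulo 101. `tV`, `tL`: the coordinates modulo 101,
`iV`, `iL`: the inverse matrices modulo 101.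
-/

set_option autoImplicit false

namespace Pool.Agent.Lib.MP_97567f_al.F4

open Pool.Agent.Lib.MP_97567f_al.U

/-- The rows of the transposed matrix. -/
def trp (C : List Sv) : List Sv :=
  (List.range 24).map fun j => (List.range 24).map fun i => (i, ent C i j)

theorem ev_trp {R : Type*} [CommRing R] (p q m : R) (C : List Sv) (i j : Fin 24) :
    ev p q m (ent (trp C) j i) = ev p q m (ent C i j) := by
  have h1 : (trp C).getD j [] = (List.range 24).map fun i => (i, ent C i j) := by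
    unfold trp
    rw [List.getD_eq_getElem?_getD, List.getElem?_map, List.getElem?_range j.2]
    rfl
  have h2 : ent (trp C) j i =
      (List.range 24).flatMap fun k : ℕ => if k = (i : ℕ) then ent C k j else [] := by
    unfold ent coef
    unfold ent at h1
    rw [h1, List.flatMap_map]
    rfl
  rw [h2, ev_flatMap, sum_range_fin 24 fun k : ℕ =>
    ev p q m (if k = (i : ℕ) then ent C k j else []),
    Finset.sum_eq_single i]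
  · rw [if_pos rfl]
  · intro k _ hk
    rw [if_neg fun h => hk (Fin.ext h), ev_nil]
  · intro h
    exact absurd (Finset.mem_univ _) h

theorem matr_trp {R : Type*} [CommRing R] (p q m : R) (C : List Sv) :
    matr p q m 24 (trp C) = (matr p q m 24 C).transpose := by
  ext j i
  exact ev_trp p q m C i j

/-- Adding a scalar matrix. -/
theorem irr_addD {R : Type*} [CommRing R] (p q m : R) (x : Pl) (C : List Sv)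
    (hC : C.length = 24) :
    matr p q m 24 (addD x C) = ev p q m x • (1 : Matrix (Fin 24) (Fin 24) R) + matr p q m 24 C := by
  ext i j
  have h1 : (addD x C).getD i [] = ((i : ℕ), x) :: C.getD i [] := by
    unfold addD
    rw [List.getD_eq_getElem?_getD, List.getElem?_mapIdx, List.getElem?_eq_getElem (by omega),
      List.getD_eq_getElem _ _ (by omega)]
    rfl
  have h2 : ent (addD x C) i j = (if (i : ℕ) = j then x else []) ++ ent C i j := by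
    unfold ent coef
    rw [h1, List.flatMap_cons]
  change ev p q m (ent (addD x C) i j) = _
  rw [h2, ev_append, Matrix.add_apply, Matrix.smul_apply, Matrix.one_apply, smul_eq_mul]
  congr 1
  by_cases h : i = j
  · rw [if_pos (congrArg Fin.val h), if_pos h, mul_one]
  · rw [if_neg fun h' => h (Fin.ext h'), if_neg h, mul_zero, ev_nil]

/-- The words. -/
def ws : List (List (Fin 4)) :=
    [[], [1], [0, 1], [2, 1], [2, 0, 1], [1, 2, 1], [2, 2, 1], [3, 2, 1], [1, 2, 0, 1], [2, 2,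
   0, 1], [3, 2, 0, 1], [3, 1, 2, 1], [3, 2, 2, 1], [3, 3, 2, 1], [3, 1, 2, 0, 1], [3, 2, 2, 0,
   1], [3, 3, 2, 0, 1], [2, 3, 1, 2, 1], [3, 3, 1, 2, 1], [3, 3, 2, 2, 1], [1, 2, 3, 1, 2, 1],
   [2, 2, 3, 1, 2, 1], [2, 3, 3, 1, 2, 1], [0, 1, 2, 3, 1, 2, 1]]

/-- The coordinates of the vectors. -/
def cV (w : List (Fin 4)) : List ℤ := runZ 1 2 1 (w.map D) [1]

/-- The factors for the functionals. -/
def fL : List (List Sv) := [trp (addD [(1, 1, 0, 0)] c0), trp (addD [(-1, 0, 0, 0)] c0)]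

/-- The coordinates of the functionals. -/
def cL (w : List (Fin 4)) : List ℤ := runZ 1 2 1 (w.map (fun s => trp (D s)) ++ fL) [1]

/-- Table of vectors. -/
def tV : List (List ℤ) :=
  [[1, 0, 0, 0, 0, 0, 0, 0, 0, 0, 0, 0, 0, 0, 0, 0, 0, 0, 0, 0, 0, 0, 0, 0], [100, 0, 0, 0, 1, 0,
   0, 0, 0, 0, 0, 0, 0, 0, 0, 0, 0, 0, 0, 0, 0, 0, 0, 0], [0, 2, 0, 0, 0, 0, 0, 0, 0, 0, 0, 0, 0,
   0, 0, 0, 0, 0, 0, 0, 0, 0, 0, 0], [100, 0, 0, 0, 3, 0, 0, 98, 0, 0, 1, 0, 0, 0, 0, 0, 0, 0, 0,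
   0, 0, 0, 0, 0], [0, 6, 0, 0, 0, 95, 0, 0, 2, 0, 0, 0, 0, 0, 0, 0, 0, 0, 0, 0, 0, 0, 0, 0], [7,
   0, 0, 0, 100, 0, 0, 98, 0, 0, 100, 0, 0, 1, 0, 0, 0, 0, 0, 0, 0, 0, 0, 0], [100, 0, 91, 0, 43,
   0, 0, 86, 0, 0, 3, 0, 0, 0, 0, 0, 0, 0, 0, 0, 0, 0, 0, 0], [100, 0, 0, 0, 3, 0, 0, 9, 0, 0, 3,
   98, 0, 0, 98, 0, 0, 1, 0, 0, 0, 0, 0, 0], [0, 0, 89, 0, 0, 0, 0, 0, 2, 0, 0, 0, 0, 0, 0, 0, 0,
   0, 0, 0, 0, 0, 0, 0], [0, 86, 91, 0, 0, 71, 0, 0, 6, 0, 0, 0, 0, 0, 0, 0, 0, 0, 0, 0, 0, 0, 0,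
   0], [0, 6, 0, 0, 0, 18, 0, 0, 6, 95, 0, 0, 95, 0, 0, 2, 0, 0, 0, 0, 0, 0, 0, 0], [7, 0, 0, 0,
   100, 0, 0, 9, 0, 0, 98, 98, 0, 3, 3, 0, 98, 100, 0, 1, 0, 0, 0, 0], [100, 0, 30, 0, 43, 0, 91,
   45, 0, 0, 9, 86, 0, 0, 92, 0, 0, 3, 0, 0, 0, 0, 0, 0], [100, 0, 0, 61, 3, 0, 0, 62, 0, 0, 43,
   9, 0, 0, 86, 0, 0, 3, 0, 0, 0, 0, 0, 0], [0, 0, 36, 0, 0, 0, 89, 0, 6, 0, 0, 0, 95, 0, 0, 2,
   0, 0, 0, 0, 0, 0, 0, 0], [0, 86, 30, 0, 0, 90, 91, 0, 18, 71, 0, 0, 83, 0, 0, 6, 0, 0, 0, 0,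
   0, 0, 0, 0], [0, 6, 0, 61, 0, 23, 0, 0, 86, 18, 0, 0, 71, 0, 0, 6, 0, 0, 0, 0, 0, 0, 0, 0],
   [7, 0, 0, 0, 97, 0, 0, 21, 0, 0, 100, 21, 0, 3, 98, 0, 9, 100, 98, 3, 98, 1, 0, 0], [7, 0, 0,
   61, 100, 0, 0, 62, 0, 0, 58, 9, 0, 43, 15, 0, 86, 98, 0, 3, 0, 0, 0, 0], [100, 0, 72, 50, 43,
   0, 30, 7, 0, 0, 28, 45, 0, 0, 56, 0, 0, 9, 0, 0, 0, 0, 0, 0], [86, 0, 0, 0, 7, 0, 0, 21, 0, 0,
   7, 21, 0, 100, 21, 0, 98, 7, 98, 100, 98, 100, 1, 0], [7, 0, 42, 0, 48, 0, 0, 54, 0, 0, 97,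
   26, 0, 3, 21, 0, 62, 100, 9, 43, 86, 3, 0, 0], [7, 0, 0, 19, 48, 0, 61, 26, 0, 0, 100, 33, 0,
   43, 9, 0, 45, 98, 86, 9, 92, 3, 0, 0], [0, 14, 0, 0, 0, 42, 0, 0, 14, 42, 0, 0, 42, 100, 0,
   14, 98, 0, 98, 100, 98, 100, 100, 1]]

/-- Inverse table. -/
def iV : List (List ℤ) :=
  [[1, 0, 0, 0, 0, 0, 0, 0, 0, 0, 0, 0, 0, 0, 0, 0, 0, 0, 0, 0, 0, 0, 0, 0], [0, 0, 51, 0, 0, 0,
   0, 0, 0, 0, 0, 0, 0, 0, 0, 0, 0, 0, 0, 0, 0, 0, 0, 0], [0, 0, 84, 0, 15, 0, 0, 0, 95, 98, 0,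
   0, 0, 0, 0, 0, 0, 0, 0, 0, 0, 0, 0, 0], [0, 0, 0, 88, 0, 0, 38, 35, 0, 0, 0, 0, 22, 79, 0, 0,
   0, 0, 0, 41, 0, 0, 0, 0], [1, 1, 0, 0, 0, 0, 0, 0, 0, 0, 0, 0, 0, 0, 0, 0, 0, 0, 0, 0, 0, 0,
   0, 0], [0, 0, 17, 0, 13, 0, 0, 0, 5, 95, 0, 0, 0, 0, 0, 0, 0, 0, 0, 0, 0, 0, 0, 0], [0, 0, 33,
   0, 45, 0, 0, 0, 83, 92, 15, 0, 0, 0, 95, 98, 0, 0, 0, 0, 0, 0, 0, 0], [6, 73, 62, 51, 76, 0,
   84, 0, 10, 5, 0, 0, 0, 0, 0, 0, 0, 0, 0, 0, 0, 0, 0, 0], [0, 0, 100, 0, 90, 0, 0, 0, 15, 83,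
   0, 0, 0, 0, 0, 0, 0, 0, 0, 0, 0, 0, 0, 0], [0, 0, 68, 0, 39, 0, 0, 0, 15, 83, 13, 0, 0, 0, 5,
   95, 0, 0, 0, 0, 0, 0, 0, 0], [16, 14, 85, 53, 26, 0, 50, 0, 30, 15, 0, 0, 0, 0, 0, 0, 0, 0, 0,
   0, 0, 0, 0, 0], [24, 90, 46, 52, 26, 0, 50, 51, 30, 15, 76, 0, 84, 0, 10, 5, 0, 0, 0, 0, 0, 0,
   0, 0], [0, 0, 95, 77, 80, 0, 8, 18, 75, 11, 14, 0, 95, 6, 15, 83, 42, 0, 0, 99, 0, 0, 0, 0],
   [28, 32, 69, 4, 52, 1, 100, 0, 60, 30, 0, 0, 0, 0, 0, 0, 0, 0, 0, 0, 0, 0, 0, 0], [96, 84, 5,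
   83, 29, 0, 64, 38, 49, 75, 26, 0, 38, 96, 30, 15, 0, 0, 0, 97, 0, 0, 0, 0], [0, 0, 85, 29, 71,
   0, 24, 54, 79, 87, 31, 0, 83, 18, 60, 29, 25, 0, 0, 95, 0, 0, 0, 0], [67, 91, 10, 93, 58, 73,
   27, 25, 98, 49, 52, 51, 76, 7, 60, 30, 0, 0, 84, 93, 0, 0, 0, 0], [54, 22, 47, 90, 9, 0, 42,
   66, 57, 79, 3, 0, 63, 86, 19, 60, 0, 0, 0, 89, 0, 0, 0, 0], [66, 6, 36, 20, 36, 90, 74, 28,
   26, 13, 57, 52, 59, 71, 58, 29, 0, 51, 50, 77, 0, 0, 84, 0], [44, 7, 94, 65, 18, 14, 84, 79,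
   13, 57, 6, 53, 25, 21, 38, 19, 0, 0, 50, 77, 0, 0, 0, 0], [62, 24, 43, 80, 33, 84, 24, 70, 7,
   54, 36, 30, 51, 23, 26, 13, 0, 2, 48, 58, 0, 84, 50, 0], [98, 63, 62, 10, 81, 22, 100, 52, 8,
   4, 96, 32, 4, 25, 2, 1, 0, 59, 95, 20, 0, 50, 99, 0], [51, 69, 23, 94, 61, 71, 99, 88, 16, 8,
   91, 80, 8, 54, 4, 2, 0, 16, 85, 40, 1, 100, 97, 0], [99, 29, 54, 41, 67, 41, 86, 86, 32, 27,
   70, 59, 89, 0, 8, 32, 7, 32, 69, 80, 1, 99, 93, 1]]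

/-- Table of functionals. -/
def tL : List (List ℤ) :=
  [[70, 8, 0, 0, 72, 48, 0, 28, 27, 91, 41, 11, 61, 18, 44, 28, 7, 50, 28, 86, 11, 63, 81, 45],
   [2, 64, 48, 0, 2, 91, 91, 18, 7, 61, 58, 72, 42, 9, 45, 11, 54, 19, 10, 43, 40, 40, 19, 59],
   [16, 39, 48, 0, 43, 28, 91, 76, 51, 11, 68, 1, 3, 53, 4, 8, 15, 78, 56, 40, 22, 93, 48, 35],
   [2, 27, 21, 91, 10, 21, 63, 66, 39, 23, 82, 56, 66, 84, 33, 8, 21, 13, 93, 40, 78, 28, 44, 8],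
    [16, 84, 21, 91, 70, 45, 63, 37, 43, 33, 31, 26, 68, 27, 52, 5, 83, 72, 38, 37, 60, 81, 73,
   85], [8, 14, 0, 91, 18, 84, 61, 7, 22, 92, 86, 22, 65, 6, 88, 39, 27, 58, 7, 23, 37, 65, 61,
   30], [2, 57, 66, 93, 15, 47, 57, 2, 20, 94, 43, 59, 52, 60, 43, 13, 11, 23, 87, 30, 28, 23,
   36, 93], [2, 27, 0, 84, 10, 61, 33, 60, 28, 83, 59, 60, 29, 27, 38, 2, 62, 68, 46, 68, 4, 78,
   43, 6], [54, 66, 24, 91, 98, 38, 71, 33, 35, 9, 89, 10, 20, 53, 84, 79, 50, 39, 51, 0, 11, 21,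
   99, 30], [16, 59, 66, 93, 29, 56, 57, 89, 23, 66, 94, 67, 92, 3, 24, 10, 73, 82, 32, 27, 10,
   76, 65, 69], [16, 84, 0, 84, 70, 100, 33, 16, 31, 78, 9, 45, 9, 71, 79, 66, 23, 60, 92, 65,
   87, 30, 72, 83], [8, 14, 61, 84, 18, 42, 50, 1, 11, 32, 52, 26, 28, 61, 23, 33, 37, 31, 61,
   32, 64, 14, 60, 28], [2, 57, 61, 47, 15, 54, 1, 53, 18, 66, 23, 67, 8, 76, 78, 85, 61, 16, 5,
   20, 94, 63, 15, 51], [2, 27, 33, 62, 10, 1, 85, 82, 100, 10, 30, 75, 42, 64, 26, 37, 65, 21,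
   94, 0, 23, 62, 11, 43], [54, 66, 100, 84, 98, 97, 45, 12, 23, 50, 54, 29, 62, 9, 98, 39, 3,
   79, 4, 77, 38, 71, 98, 28], [16, 59, 61, 47, 29, 100, 1, 2, 5, 1, 90, 11, 70, 19, 37, 32, 22,
   24, 51, 17, 76, 15, 44, 27], [16, 84, 33, 62, 70, 81, 85, 98, 31, 65, 52, 0, 85, 7, 4, 85, 26,
   29, 39, 98, 5, 14, 40, 19], [8, 28, 33, 0, 2, 33, 31, 61, 18, 31, 78, 42, 7, 49, 64, 86, 92,
   36, 99, 77, 93, 52, 56, 20], [8, 14, 69, 62, 18, 7, 26, 23, 83, 35, 17, 41, 41, 3, 38, 68, 13,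
   10, 8, 39, 83, 99, 28, 65], [2, 57, 20, 90, 15, 5, 9, 9, 14, 49, 53, 80, 70, 65, 39, 40, 11,
   74, 19, 22, 73, 30, 50, 20], [95, 22, 0, 0, 38, 31, 0, 26, 49, 23, 2, 3, 92, 52, 12, 77, 9,
   32, 36, 24, 43, 81, 83, 69], [8, 3, 46, 31, 2, 45, 37, 0, 17, 52, 79, 12, 90, 69, 100, 65, 24,
   95, 12, 42, 1, 46, 29, 67], [8, 3, 87, 42, 2, 17, 4, 11, 39, 96, 19, 33, 23, 54, 31, 70, 22,
   14, 33, 74, 98, 54, 45, 99], [53, 16, 0, 0, 97, 96, 0, 77, 54, 81, 37, 5, 21, 21, 20, 56, 25,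
   87, 100, 33, 97, 23, 63, 74]]

/-- Inverse table. -/
def iL : List (List ℤ) :=
  [[28, 48, 98, 94, 65, 28, 93, 20, 68, 88, 55, 60, 72, 37, 17, 22, 16, 12, 89, 69, 37, 75, 98,
   45], [12, 24, 26, 79, 93, 96, 90, 95, 88, 91, 17, 18, 46, 63, 22, 48, 30, 36, 49, 69, 90, 75,
   98, 69], [27, 33, 40, 90, 56, 3, 35, 85, 93, 15, 49, 92, 99, 24, 97, 58, 99, 75, 68, 4, 10,
   83, 72, 5], [27, 18, 9, 64, 13, 24, 54, 96, 73, 98, 13, 2, 13, 41, 8, 5, 4, 72, 43, 84, 10,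
   71, 80, 5], [50, 26, 24, 26, 45, 96, 93, 62, 88, 88, 50, 18, 72, 77, 22, 22, 16, 36, 49, 69,
   13, 75, 98, 45], [36, 24, 0, 7, 36, 86, 35, 92, 12, 15, 32, 85, 99, 26, 13, 58, 99, 17, 66, 4,
   68, 83, 72, 5], [27, 33, 40, 89, 90, 24, 83, 31, 91, 44, 38, 52, 76, 79, 99, 29, 76, 75, 87,
   80, 10, 18, 36, 5], [49, 24, 0, 62, 82, 86, 38, 94, 12, 12, 30, 85, 91, 53, 13, 66, 72, 17,
   66, 4, 39, 83, 72, 34], [12, 61, 35, 95, 22, 96, 33, 49, 68, 36, 58, 7, 77, 32, 46, 5, 85, 23,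
   59, 18, 90, 99, 88, 69], [36, 24, 0, 36, 58, 77, 83, 80, 22, 44, 33, 3, 76, 9, 3, 29, 76, 17,
   56, 80, 68, 18, 36, 5], [50, 87, 9, 53, 64, 96, 1, 16, 68, 68, 91, 7, 60, 89, 46, 22, 28, 23,
   59, 18, 13, 99, 88, 45], [49, 24, 0, 62, 32, 77, 52, 39, 22, 75, 74, 3, 1, 7, 3, 3, 78, 17,
   56, 80, 39, 18, 36, 34], [36, 82, 4, 28, 29, 77, 37, 25, 60, 100, 93, 28, 14, 71, 80, 23, 70,
   69, 78, 30, 68, 42, 14, 5], [44, 93, 41, 1, 44, 47, 1, 5, 88, 68, 14, 18, 60, 99, 22, 22, 28,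
   47, 49, 18, 90, 99, 88, 45], [49, 59, 27, 59, 99, 77, 24, 85, 60, 12, 33, 28, 82, 27, 80, 56,
   13, 69, 78, 30, 39, 42, 14, 34], [12, 61, 35, 13, 74, 65, 53, 92, 97, 32, 53, 43, 6, 71, 17,
   9, 38, 23, 54, 69, 90, 22, 64, 69], [31, 77, 22, 3, 97, 32, 24, 97, 62, 12, 47, 16, 82, 13,
   66, 56, 13, 40, 92, 30, 68, 42, 14, 34], [50, 87, 9, 7, 80, 65, 12, 82, 97, 73, 63, 43, 99,
   69, 17, 17, 40, 23, 54, 69, 13, 22, 64, 45], [31, 10, 75, 68, 81, 32, 16, 83, 52, 2, 99, 38,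
   57, 38, 25, 68, 31, 6, 83, 54, 68, 54, 23, 34], [44, 93, 41, 1, 89, 71, 12, 46, 88, 73, 58,
   79, 99, 58, 22, 17, 40, 47, 65, 69, 90, 22, 64, 45], [31, 10, 75, 45, 13, 11, 53, 46, 64, 19,
   54, 3, 70, 98, 13, 51, 43, 6, 38, 4, 68, 31, 46, 34], [44, 61, 12, 84, 69, 71, 58, 0, 83, 68,
   99, 90, 36, 20, 46, 17, 52, 35, 37, 18, 90, 23, 92, 45], [38, 67, 20, 71, 64, 84, 58, 11, 88,
   68, 22, 79, 36, 93, 22, 17, 52, 36, 65, 18, 89, 23, 92, 45], [73, 84, 3, 93, 42, 84, 94, 76,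
   88, 32, 58, 79, 45, 70, 22, 8, 75, 36, 65, 18, 39, 23, 92, 95]]

/-- The vector with 24 coordinates modulo 101. -/
def red (v : List ℤ) : List ℤ := (List.range 24).map fun i => v.getD i 0 % 101

theorem kV : (ws.map fun w => red (cV w)) = tV := by decide +kernel

theorem kL : (ws.map fun w => red (cL w)) = tL := by decide +kernel

/-- The test for the inverse matrix modulo 101. -/
def tinv (T W : List (List ℤ)) : Prop :=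
  ∀ i j : Fin 24, ((List.range 24).map fun k => (T.getD i []).getD k 0 * (W.getD k []).getD j 0).sum
    % 101 = if i = j then 1 else 0

instance (T W : List (List ℤ)) : Decidable (tinv T W) := by
  unfold tinv
  infer_instance

theorem nV : tinv tV iV := by decide +kernel

theorem nL : tinv tL iL := by decide +kernel

end Pool.Agent.Lib.MP_97567f_al.F4
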