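import Pool.Agent.Lib.MP_97567f_al.F4.Pl

/-!
# MP_97567f_al: identities between products of matrices of polynomials from one integer computation

`kron`: an identity between products of matrices of integer polynomials holds if it holds for the images of one vector
at one point, whose coordinates are large powers of two.
-/

set_option autoImplicit false

namespace Pool.Agent.Lib.MP_97567f_al.F4

/-- Digits: a vanishing sum of small multiples of the powers of a large number. -/
theorem digits_zero (X : ℤ) (n : ℕ) (f : ℕ → ℤ) (hf : ∀ i, i < n → |f i| < X)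
    (h : ∑ i ∈ Finset.range n, f i * X ^ i = 0) : ∀ i, i < n → f i = 0 := by
  induction n generalizing f with
  | zero =>
    intro i hi
    omega
  | succ n ih =>
    have hX : 0 < X := lt_of_le_of_lt (abs_nonneg _) (hf 0 (by omega))
    rw [Finset.sum_range_succ'] at h
    have h1 : ∑ i ∈ Finset.range n, f (i + 1) * X ^ (i + 1) =
        X * ∑ i ∈ Finset.range n, f (i + 1) * X ^ i := by
      rw [Finset.mul_sum]
      exact Finset.sum_congr rfl fun i _ => by ring
    rw [h1, pow_zero, mul_one] at h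
    have h2 : X ∣ f 0 := ⟨-∑ i ∈ Finset.range n, f (i + 1) * X ^ i, by linarith⟩
    have h0 : f 0 = 0 := Int.eq_zero_of_abs_lt_dvd h2 (hf 0 (by omega))
    rw [h0, add_zero] at h
    have h3 := ih (fun i => f (i + 1)) (fun i hi => hf (i + 1) (by omega))
      ((mul_eq_zero.mp h).resolve_left hX.ne')
    intro i hi
    rcases i with _ | i
    · exact h0
    · exact h3 i (by omega)

/-- The packed exponent. -/
def pack (A B : ℕ) (t : ℕ × ℕ × ℕ) : ℕ := t.1 + A * t.2.1 + A * B * t.2.2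

/-- The coefficient with the packed exponent `e`. -/
def cf (A B : ℕ) (x : Pl) (e : ℕ) : ℤ := (x.map fun t => if pack A B t.2 = e then t.1 else 0).sum

theorem cf_cons (A B : ℕ) (t : ℤ × ℕ × ℕ × ℕ) (x : Pl) (e : ℕ) :
    cf A B (t :: x) e = (if pack A B t.2 = e then t.1 else 0) + cf A B x e := by
  simp [cf]

theorem abs_cf_le (A B : ℕ) (x : Pl) (e : ℕ) : |cf A B x e| ≤ nrm x := by
  induction x with
  | nil => simp [cf, nrm]
  | cons t x ih =>
    rw [cf_cons]
    have h2 : nrm (t :: x) = t.1.natAbs + nrm x := by simp [nrm]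
    rw [h2, Nat.cast_add, Int.natCast_natAbs]
    refine (abs_add_le _ _).trans (add_le_add ?_ ih)
    split_ifs
    · exact le_refl _
    · simp

theorem sum_cf {S : Type*} [CommRing S] (A B M : ℕ) (F : ℕ → S) (x : Pl)
    (hx : ∀ t ∈ x, pack A B t.2 < M) :
    (x.map fun t => (t.1 : S) * F (pack A B t.2)).sum =
      ∑ e ∈ Finset.range M, (cf A B x e : S) * F e := by
  induction x with
  | nil => simp [cf]
  | cons t x ih =>
    rw [List.map_cons, List.sum_cons, ih fun t ht => hx t (by simp [ht])]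
    simp only [cf_cons, Int.cast_add, add_mul, Finset.sum_add_distrib]
    congr 1
    have h : ∀ e ∈ Finset.range M, (((if pack A B t.2 = e then t.1 else 0 : ℤ)) : S) * F e =
        if pack A B t.2 = e then (t.1 : S) * F e else 0 := by
      intro e _
      split_ifs <;> simp
    rw [Finset.sum_congr rfl h, Finset.sum_ite_eq, if_pos]
    exact Finset.mem_range.mpr (hx t (by simp))

theorem pack_lt {A B C : ℕ} {t : ℕ × ℕ × ℕ} (h1 : t.1 < A) (h2 : t.2.1 < B) (h3 : t.2.2 < C) :
    pack A B t < A * B * C := by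
  unfold pack
  have e1 : A * t.2.1 + A ≤ A * B := by
    calc A * t.2.1 + A = A * (t.2.1 + 1) := by ring
      _ ≤ A * B := Nat.mul_le_mul_left _ h2
  have e2 : A * B * t.2.2 + A * B ≤ A * B * C := by
    calc A * B * t.2.2 + A * B = A * B * (t.2.2 + 1) := by ring
      _ ≤ A * B * C := Nat.mul_le_mul_left _ h3
  omega

theorem unpack {A B : ℕ} {t : ℕ × ℕ × ℕ} (h1 : t.1 < A) (h2 : t.2.1 < B) :
    pack A B t % A = t.1 ∧ pack A B t / A % B = t.2.1 ∧ pack A B t / A / B = t.2.2 := by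
  have hA : 0 < A := by omega
  have hB : 0 < B := by omega
  have e1 : pack A B t = t.1 + A * (t.2.1 + B * t.2.2) := by
    unfold pack
    ring
  have e2 : pack A B t / A = t.2.1 + B * t.2.2 := by
    rw [e1, Nat.add_mul_div_left _ _ hA, Nat.div_eq_of_lt h1, zero_add]
  refine ⟨?_, ?_, ?_⟩
  · rw [e1, Nat.add_mul_mod_self_left, Nat.mod_eq_of_lt h1]
  · rw [e2, Nat.add_mul_mod_self_left, Nat.mod_eq_of_lt h2]
  · rw [e2, Nat.add_mul_div_left _ _ hB, Nat.div_eq_of_lt h2, zero_add]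

/-- A polynomial with small coefficients is determined by its value at one point. -/
theorem ev_zero {A B C X : ℕ} {x : Pl} (hx : ∀ t ∈ x, t.2.1 < A ∧ t.2.2.1 < B ∧ t.2.2.2 < C)
    (hn : nrm x < X) (h : ev (X : ℤ) ((X : ℤ) ^ A) ((X : ℤ) ^ (A * B)) x = 0) {R : Type*}
    [CommRing R] (p q m : R) : ev p q m x = 0 := by
  have hp : ∀ t ∈ x, pack A B t.2 < A * B * C := fun t ht =>
    pack_lt (hx t ht).1 (hx t ht).2.1 (hx t ht).2.2
  have h1 : ev (X : ℤ) ((X : ℤ) ^ A) ((X : ℤ) ^ (A * B)) x =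
      (x.map fun t => (t.1 : ℤ) * (X : ℤ) ^ (pack A B t.2)).sum := by
    unfold ev
    congr 1
    refine List.map_congr_left fun t _ => ?_
    simp only [evm, Int.cast_id, pack, pow_add, pow_mul]
  have h1' := sum_cf (S := ℤ) A B (A * B * C) (fun e => (X : ℤ) ^ e) x hp
  simp only [Int.cast_id] at h1'
  rw [h1, h1'] at h
  have h2 : ∀ e, e < A * B * C → cf A B x e = 0 := by
    refine digits_zero (X : ℤ) _ _ (fun e _ => lt_of_le_of_lt (abs_cf_le A B x e) ?_) h
    exact_mod_cast hn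
  have h3 : ev p q m x = (x.map fun t => (t.1 : R) * (fun e : ℕ =>
      p ^ (e % A) * q ^ (e / A % B) * m ^ (e / A / B)) (pack A B t.2)).sum := by
    unfold ev
    congr 1
    refine List.map_congr_left fun t ht => ?_
    obtain ⟨e1, e2, e3⟩ := unpack (hx t ht).1 (hx t ht).2.1
    simp only [evm, e1, e2, e3]
  rw [h3, sum_cf A B (A * B * C) (fun e : ℕ => p ^ (e % A) * q ^ (e / A % B) * m ^ (e / A / B))
    x hp]
  exact Finset.sum_eq_zero fun e he => by rw [h2 e (Finset.mem_range.mp he)]; simp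

theorem abs_ev_le (P Q M : ℕ) {a b c : ℕ} (hP : 1 ≤ P) (hQ : 1 ≤ Q) (hM : 1 ≤ M) {x : Pl}
    (hx : dgl a b c x) : |ev (P : ℤ) (Q : ℤ) (M : ℤ) x| ≤ nrm x * (P ^ a * Q ^ b * M ^ c : ℕ) := by
  induction x with
  | nil => simp [ev, nrm]
  | cons t x ih =>
    have ih := ih fun s hs => hx s (by simp [hs])
    have h2 : nrm (t :: x) = t.1.natAbs + nrm x := by simp [nrm]
    rw [ev_cons, h2, Nat.cast_add, add_mul]
    refine (abs_add_le _ _).trans (add_le_add ?_ ih)
    have h3 := hx t (by simp)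
    unfold evm
    rw [abs_mul, Int.natCast_natAbs, Int.cast_id]
    refine mul_le_mul_of_nonneg_left ?_ (abs_nonneg _)
    have h4 : P ^ t.2.1 * Q ^ t.2.2.1 * M ^ t.2.2.2 ≤ P ^ a * Q ^ b * M ^ c :=
      Nat.mul_le_mul (Nat.mul_le_mul (Nat.pow_le_pow_right hP h3.1)
        (Nat.pow_le_pow_right hQ h3.2.1)) (Nat.pow_le_pow_right hM h3.2.2)
    have h5 : |(P : ℤ) ^ t.2.1 * (Q : ℤ) ^ t.2.2.1 * (M : ℤ) ^ t.2.2.2| =
        ((P ^ t.2.1 * Q ^ t.2.2.1 * M ^ t.2.2.2 : ℕ) : ℤ) := by
      push_cast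
      exact abs_of_nonneg (by positivity)
    rw [h5]
    exact_mod_cast h4

/-- The value of a polynomial at powers of two. -/
def evZ (k1 k2 k3 : ℕ) (x : Pl) : ℤ :=
  x.foldr (fun t z => t.1 * ((2 ^ (k1 * t.2.1 + k2 * t.2.2.1 + k3 * t.2.2.2) : ℕ) : ℤ) + z) 0

/-- The scalar product. -/
def dotZ (k1 k2 k3 : ℕ) (r : Sv) (v : List ℤ) : ℤ :=
  r.foldr (fun t z => evZ k1 k2 k3 t.2 * v.getD t.1 0 + z) 0

/-- The product of a matrix and a vector. -/
def stepZ (k1 k2 k3 : ℕ) (C : List Sv) (v : List ℤ) : List ℤ := C.map fun r => dotZ k1 k2 k3 r v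

/-- The product of matrices and a vector. -/
def runZ (k1 k2 k3 : ℕ) (W : List (List Sv)) (v : List ℤ) : List ℤ :=
  W.foldr (fun C v => stepZ k1 k2 k3 C v) v

/-- The vector of the powers of a power of two. -/
def v0 (N K : ℕ) : List ℤ := (List.range N).map fun j => ((2 ^ (K * j) : ℕ) : ℤ)

/-- The bounds for the entries of a matrix. -/
def okC (N κ a b c : ℕ) (C : List Sv) : Bool :=
  Nat.ble C.length N && C.all fun r => Nat.ble (r.foldr (fun t z => nrm t.2 + z) 0) κ &&
    r.all fun t => t.2.all fun u => Nat.ble u.2.1 a && (Nat.ble u.2.2.1 b && Nat.ble u.2.2.2 c)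

theorem evZ_eq (k1 k2 k3 : ℕ) (x : Pl) :
    evZ k1 k2 k3 x = ev ((2 : ℤ) ^ k1) ((2 : ℤ) ^ k2) ((2 : ℤ) ^ k3) x := by
  induction x with
  | nil => rfl
  | cons t x ih =>
    rw [ev_cons, ← ih]
    change t.1 * ((2 ^ (k1 * t.2.1 + k2 * t.2.2.1 + k3 * t.2.2.2) : ℕ) : ℤ) + evZ k1 k2 k3 x = _
    congr 1
    simp only [evm, Int.cast_id]
    push_cast
    rw [pow_add, pow_add, pow_mul, pow_mul, pow_mul]

theorem dotZ_eq (k1 k2 k3 : ℕ) {N : ℕ} (r : Sv) (v : List ℤ) (hv : v.length ≤ N) :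
    dotZ k1 k2 k3 r v = ∑ j : Fin N,
      ev ((2 : ℤ) ^ k1) ((2 : ℤ) ^ k2) ((2 : ℤ) ^ k3) (coef j r) * v.getD j 0 := by
  induction r with
  | nil => simp [dotZ, coef, ev]
  | cons t r ih =>
    have h1 : dotZ k1 k2 k3 (t :: r) v = evZ k1 k2 k3 t.2 * v.getD t.1 0 + dotZ k1 k2 k3 r v := rfl
    have h2 : ∀ j : Fin N, coef j (t :: r) = (if t.1 = j then t.2 else []) ++ coef j r :=
      fun j => rfl
    simp only [h2, ev_append, add_mul, Finset.sum_add_distrib]
    rw [h1, ih, evZ_eq]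
    congr 1
    by_cases ht : t.1 < N
    · rw [Finset.sum_eq_single (⟨t.1, ht⟩ : Fin N)]
      · rw [if_pos rfl]
      · intro j _ hj
        rw [if_neg fun h => hj (Fin.ext h.symm), ev_nil, zero_mul]
      · intro h
        exact absurd (Finset.mem_univ _) h
    · rw [Finset.sum_eq_zero, List.getD_eq_default _ _ (by omega), mul_zero]
      intro j _
      have hj : t.1 ≠ j := fun h => ht (by rw [h]; exact j.2)
      rw [if_neg hj, ev_nil, zero_mul]

theorem stepZ_eq (k1 k2 k3 : ℕ) {N : ℕ} (C : List Sv) (v : List ℤ) (hv : v.length ≤ N) :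
    (fun i : Fin N => (stepZ k1 k2 k3 C v).getD i 0) =
      (matr ((2 : ℤ) ^ k1) ((2 : ℤ) ^ k2) ((2 : ℤ) ^ k3) N C).mulVec fun i => v.getD i 0 := by
  funext i
  have h1 : (stepZ k1 k2 k3 C v).getD i 0 = dotZ k1 k2 k3 (C.getD i []) v := by
    unfold stepZ
    rw [List.getD_eq_getElem?_getD, List.getD_eq_getElem?_getD, List.getElem?_map]
    cases C[(i : ℕ)]? <;> rfl
  rw [h1, dotZ_eq k1 k2 k3 _ v hv]
  rfl

theorem runZ_eq (k1 k2 k3 : ℕ) {N : ℕ} {W : List (List Sv)} (hW : ∀ C ∈ W, C.length ≤ N)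
    {v : List ℤ} (hv : v.length ≤ N) :
    (runZ k1 k2 k3 W v).length ≤ N ∧ (fun i : Fin N => (runZ k1 k2 k3 W v).getD i 0) =
      (W.map (matr ((2 : ℤ) ^ k1) ((2 : ℤ) ^ k2) ((2 : ℤ) ^ k3) N)).prod.mulVec
        fun i => v.getD i 0 := by
  induction W with
  | nil => simpa [runZ] using hv
  | cons C W ih =>
    obtain ⟨h1, h2⟩ := ih fun C hC => hW C (by simp [hC])
    have h3 : runZ k1 k2 k3 (C :: W) v = stepZ k1 k2 k3 C (runZ k1 k2 k3 W v) := rfl
    refine ⟨?_, ?_⟩
    · rw [h3]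
      unfold stepZ
      rw [List.length_map]
      exact hW C (by simp)
    · rw [h3, stepZ_eq k1 k2 k3 C _ h1, h2, List.map_cons, List.prod_cons, Matrix.mulVec_mulVec]

theorem v0_getD (N K : ℕ) (j : Fin N) : (v0 N K).getD j 0 = ((2 : ℤ) ^ K) ^ (j : ℕ) := by
  unfold v0
  rw [List.getD_eq_getElem?_getD, List.getElem?_map, List.getElem?_range j.2]
  simp [pow_mul]

theorem okC_length {N κ a b c : ℕ} {C : List Sv} (h : okC N κ a b c C = true) : C.length ≤ N := by
  unfold okC at h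
  rw [Bool.and_eq_true] at h
  exact Nat.le_of_ble_eq_true h.1

theorem nrm_coef_le {N : ℕ} (r : Sv) :
    ∑ j : Fin N, nrm (coef j r) ≤ r.foldr (fun t z => nrm t.2 + z) 0 := by
  induction r with
  | nil => simp [coef, nrm]
  | cons t r ih =>
    have h2 : ∀ j : Fin N, coef j (t :: r) = (if t.1 = j then t.2 else []) ++ coef j r :=
      fun j => rfl
    simp only [h2, nrm_append, Finset.sum_add_distrib, List.foldr_cons]
    refine add_le_add ?_ ih
    by_cases ht : t.1 < N
    · rw [Finset.sum_eq_single (⟨t.1, ht⟩ : Fin N)]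
      · rw [if_pos rfl]
      · intro j _ hj
        rw [if_neg fun h => hj (Fin.ext h.symm)]
        rfl
      · intro h
        exact absurd (Finset.mem_univ _) h
    · rw [Finset.sum_eq_zero]
      · exact Nat.zero_le _
      · intro j _
        have hj : t.1 ≠ j := fun h => ht (by rw [h]; exact j.2)
        rw [if_neg hj]
        rfl

theorem okC_nrm {N κ a b c : ℕ} {C : List Sv} (h : okC N κ a b c C = true) (i : ℕ) :
    ∑ j : Fin N, nrm (ent C i j) ≤ κ := by
  refine (nrm_coef_le _).trans ?_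
  unfold okC at h
  rw [Bool.and_eq_true] at h
  by_cases hi : i < C.length
  · have h1 := (List.all_eq_true.mp h.2) (C.getD i []) (by
      rw [List.getD_eq_getElem _ _ hi]
      exact List.getElem_mem hi)
    rw [Bool.and_eq_true] at h1
    exact Nat.le_of_ble_eq_true h1.1
  · rw [List.getD_eq_default _ _ (by omega)]
    exact Nat.zero_le _

theorem okC_dgl {N κ a b c : ℕ} {C : List Sv} (h : okC N κ a b c C = true) (i j : ℕ) :
    dgl a b c (ent C i j) := by
  intro u hu
  unfold okC at h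
  rw [Bool.and_eq_true] at h
  unfold ent coef at hu
  obtain ⟨t, ht, hu⟩ := List.mem_flatMap.mp hu
  by_cases hi : i < C.length
  · have h1 := (List.all_eq_true.mp h.2) (C.getD i []) (by
      rw [List.getD_eq_getElem _ _ hi]
      exact List.getElem_mem hi)
    rw [Bool.and_eq_true] at h1
    have h2 := (List.all_eq_true.mp h1.2) t ht
    split_ifs at hu
    · have h3 := (List.all_eq_true.mp h2) u hu
      rw [Bool.and_eq_true, Bool.and_eq_true] at h3
      exact ⟨Nat.le_of_ble_eq_true h3.1, Nat.le_of_ble_eq_true h3.2.1,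
        Nat.le_of_ble_eq_true h3.2.2⟩
    · simp at hu
  · rw [List.getD_eq_default _ _ (by omega)] at ht
    simp at ht

/-- **Identities from one integer computation.** -/
theorem kron (N κ a b c L k K : ℕ) {W W' : List (List Sv)}
    (hW : (W ++ W').all (okC N κ a b c) = true) (hL : W.length ≤ L) (hL' : W'.length ≤ L)
    (hκ : 1 ≤ κ) (hk : 2 * κ ^ L < 2 ^ k)
    (hK : k * ((L * a + 1) * (L * b + 1) * (L * c + 1)) ≤ K)
    (h : runZ k (k * (L * a + 1)) (k * ((L * a + 1) * (L * b + 1))) W (v0 N K) =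
      runZ k (k * (L * a + 1)) (k * ((L * a + 1) * (L * b + 1))) W' (v0 N K))
    {R : Type*} [CommRing R] (p q m : R) :
    (W.map (matr p q m N)).prod = (W'.map (matr p q m N)).prod := by
  set A := L * a + 1 with hA
  set B := L * b + 1 with hB
  set C' := L * c + 1 with hC'
  have hW1 : ∀ C ∈ W, okC N κ a b c C = true := fun C hC =>
    (List.all_eq_true.mp hW) C (by simp [hC])
  have hW2 : ∀ C ∈ W', okC N κ a b c C = true := fun C hC =>
    (List.all_eq_true.mp hW) C (by simp [hC])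
  have hlen : (v0 N K).length ≤ N := by simp [v0]
  have r1 := (runZ_eq k (k * A) (k * (A * B)) (fun C hC => okC_length (hW1 C hC)) hlen).2
  have r2 := (runZ_eq k (k * A) (k * (A * B)) (fun C hC => okC_length (hW2 C hC)) hlen).2
  rw [h, r2] at r1
  rw [← evM_prP, ← evM_prP] at r1 ⊢
  ext i j
  -- the polynomial
  let x : ℕ → Pl := fun j => prP N W i j ++ pneg (prP N W' i j)
  have hd : ∀ j : ℕ, dgl (L * a) (L * b) (L * c) (x j) := by
    intro j
    have e1 := dgl_prP (fun C hC => okC_dgl (hW1 C hC)) i j (N := N)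
    have e2 := dgl_prP (fun C hC => okC_dgl (hW2 C hC)) i j (N := N)
    refine dgl_append (fun t ht => ?_) (dgl_pneg fun t ht => ?_)
    · have := e1 t ht
      exact ⟨this.1.trans (Nat.mul_le_mul_right _ hL), this.2.1.trans (Nat.mul_le_mul_right _ hL),
        this.2.2.trans (Nat.mul_le_mul_right _ hL)⟩
    · have := e2 t ht
      exact ⟨this.1.trans (Nat.mul_le_mul_right _ hL'),
        this.2.1.trans (Nat.mul_le_mul_right _ hL'), this.2.2.trans (Nat.mul_le_mul_right _ hL')⟩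
  have hn : ∀ j : Fin N, nrm (x j) ≤ 2 * κ ^ L := by
    intro j
    have e1 := nrm_prP (fun C hC i _ => okC_nrm (hW1 C hC) i) i i.2
    have e2 := nrm_prP (fun C hC i _ => okC_nrm (hW2 C hC) i) i i.2
    have e3 : nrm (prP N W i j) ≤ κ ^ L :=
      ((Finset.single_le_sum (f := fun j : Fin N => nrm (prP N W i j)) (fun _ _ => Nat.zero_le _)
        (Finset.mem_univ j)).trans e1).trans (Nat.pow_le_pow_right hκ hL)
    have e4 : nrm (prP N W' i j) ≤ κ ^ L :=
      ((Finset.single_le_sum (f := fun j : Fin N => nrm (prP N W' i j)) (fun _ _ => Nat.zero_le _)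
        (Finset.mem_univ j)).trans e2).trans (Nat.pow_le_pow_right hκ hL')
    change nrm (prP N W i j ++ pneg (prP N W' i j)) ≤ _
    rw [nrm_append, nrm_pneg]
    omega
  -- the integers
  let z : ℕ → ℤ := fun j => ev ((2 : ℤ) ^ k) ((2 : ℤ) ^ (k * A)) ((2 : ℤ) ^ (k * (A * B))) (x j)
  have hz : ∀ j, j < N → |z j| < (2 : ℤ) ^ K := by
    intro j hj
    have e1 := abs_ev_le (2 ^ k) (2 ^ (k * A)) (2 ^ (k * (A * B))) Nat.one_le_two_pow
      Nat.one_le_two_pow Nat.one_le_two_pow (hd j)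
    have e2 : (2 ^ k) ^ (L * a) * (2 ^ (k * A)) ^ (L * b) * (2 ^ (k * (A * B))) ^ (L * c) * 2 ^ k =
        2 ^ (k * (A * B * C')) := by
      rw [← pow_mul, ← pow_mul, ← pow_mul, ← pow_add, ← pow_add, ← pow_add]
      congr 1
      rw [hA, hB, hC']
      ring
    have e3 : nrm (x j) * ((2 ^ k) ^ (L * a) * (2 ^ (k * A)) ^ (L * b) *
        (2 ^ (k * (A * B))) ^ (L * c)) < 2 ^ K := by
      have e4 := hn ⟨j, hj⟩
      calc nrm (x j) * ((2 ^ k) ^ (L * a) * (2 ^ (k * A)) ^ (L * b) *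
            (2 ^ (k * (A * B))) ^ (L * c))
          < 2 ^ k * ((2 ^ k) ^ (L * a) * (2 ^ (k * A)) ^ (L * b) *
            (2 ^ (k * (A * B))) ^ (L * c)) :=
            Nat.mul_lt_mul_of_pos_right (lt_of_le_of_lt e4 hk) (by positivity)
        _ = 2 ^ (k * (A * B * C')) := by rw [← e2]; ring
        _ ≤ 2 ^ K := Nat.pow_le_pow_right (by norm_num) hK
    have e5 : |z j| ≤ ((nrm (x j) * ((2 ^ k) ^ (L * a) * (2 ^ (k * A)) ^ (L * b) *
        (2 ^ (k * (A * B))) ^ (L * c)) : ℕ) : ℤ) := by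
      have := e1
      push_cast at this ⊢
      exact this
    refine lt_of_le_of_lt e5 ?_
    exact_mod_cast e3
  have hs : ∑ j ∈ Finset.range N, z j * ((2 : ℤ) ^ K) ^ j = 0 := by
    have e1 := congrFun r1 i
    simp only [Matrix.mulVec, dotProduct, evM, v0_getD] at e1
    rw [Finset.sum_range]
    have e2 : ∀ j : Fin N, z j * ((2 : ℤ) ^ K) ^ (j : ℕ) =
        ev ((2 : ℤ) ^ k) ((2 : ℤ) ^ (k * A)) ((2 : ℤ) ^ (k * (A * B))) (prP N W i j) *
          ((2 : ℤ) ^ K) ^ (j : ℕ) -
        ev ((2 : ℤ) ^ k) ((2 : ℤ) ^ (k * A)) ((2 : ℤ) ^ (k * (A * B))) (prP N W' i j) *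
          ((2 : ℤ) ^ K) ^ (j : ℕ) := by
      intro j
      change ev _ _ _ (prP N W i j ++ pneg (prP N W' i j)) * _ = _
      rw [ev_append, ev_pneg]
      ring
    rw [Finset.sum_congr rfl fun j _ => e2 j, Finset.sum_sub_distrib, sub_eq_zero]
    exact e1.symm
  have hz0 := digits_zero ((2 : ℤ) ^ K) N z hz hs j j.2
  have key := ev_zero (A := A) (B := B) (C := C') (X := 2 ^ k) (x := x j)
    (fun t ht => by
      have := hd j t ht
      exact ⟨by omega, by omega, by omega⟩)
    (lt_of_le_of_lt (hn j) hk)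
    (by
      have : z j = 0 := hz0
      change ev ((2 : ℤ) ^ k) ((2 : ℤ) ^ (k * A)) ((2 : ℤ) ^ (k * (A * B))) (x j) = 0 at this
      push_cast
      rw [← pow_mul, ← pow_mul]
      exact this) p q m
  change ev p q m (prP N W i j ++ pneg (prP N W' i j)) = 0 at key
  rw [ev_append, ev_pneg] at key
  change ev p q m (prP N W i j) = ev p q m (prP N W' i j)
  linear_combination key

end Pool.Agent.Lib.MP_97567f_al.F4
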