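import Mathlib

/-!
# MP_97567f_al: integer polynomials in three variables and matrices of such polynomials

`Pl`: polynomials, as lists of monomials. `Sv`: sparse vectors of polynomials. `ev`: the value in a commutative ring with
three parameters. `matr`: the matrix with given rows. `mulP`, `prP`: products of matrices of polynomials; they are only
used in proofs: `nrm` and `dgl` are bounds for the coefficients and for the degrees of the entries.
-/

set_option autoImplicit false

namespace Pool.Agent.Lib.MP_97567f_al.F4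

/-- Polynomials with integer coefficients in three variables: lists of pairs (coefficient, exponents). -/
abbrev Pl : Type := List (ℤ × ℕ × ℕ × ℕ)

/-- Sparse vectors of polynomials. -/
abbrev Sv : Type := List (ℕ × Pl)

/-- The product. -/
def pmul (x y : Pl) : Pl :=
  x.flatMap fun s => y.map fun t => (s.1 * t.1, s.2.1 + t.2.1, s.2.2.1 + t.2.2.1, s.2.2.2 + t.2.2.2)

/-- The negative. -/
def pneg (x : Pl) : Pl := x.map fun t => (-t.1, t.2)

/-- The coefficient with index `d` of a sparse vector. -/
def coef (d : ℕ) (v : Sv) : Pl := v.flatMap fun t => if t.1 = d then t.2 else []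

/-- The product of matrices of polynomials. -/
def mulP (N : ℕ) (A B : ℕ → ℕ → Pl) : ℕ → ℕ → Pl := fun i j =>
  (List.range N).flatMap fun k => pmul (A i k) (B k j)

/-- The matrix of polynomials with the given rows. -/
def ent (C : List Sv) : ℕ → ℕ → Pl := fun i k => coef k (C.getD i [])

/-- The product of a list of matrices of polynomials. -/
def prP (N : ℕ) : List (List Sv) → ℕ → ℕ → Pl
  | [] => fun i j => if i = j then [(1, 0, 0, 0)] else []
  | C :: W => mulP N (ent C) (prP N W)

/-- The sum of the absolute values of the coefficients. -/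
def nrm (x : Pl) : ℕ := (x.map fun t => t.1.natAbs).sum

/-- A bound for the degrees. -/
def dgl (a b c : ℕ) (x : Pl) : Prop := ∀ t ∈ x, t.2.1 ≤ a ∧ t.2.2.1 ≤ b ∧ t.2.2.2 ≤ c

section

variable {R : Type*} [CommRing R] (p q m : R) (N : ℕ)

/-- The value of a monomial. -/
def evm (t : ℤ × ℕ × ℕ × ℕ) : R := (t.1 : R) * (p ^ t.2.1 * q ^ t.2.2.1 * m ^ t.2.2.2)

/-- The value of a polynomial. -/
def ev (x : Pl) : R := (x.map (evm p q m)).sum

/-- The matrix of the values. -/
def evM (A : ℕ → ℕ → Pl) : Matrix (Fin N) (Fin N) R := fun i j => ev p q m (A i j)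

/-- The matrix with the given rows. -/
def matr (C : List Sv) : Matrix (Fin N) (Fin N) R := evM p q m N (ent C)

theorem ev_nil : ev p q m [] = 0 := rfl

theorem ev_cons (t : ℤ × ℕ × ℕ × ℕ) (x : Pl) : ev p q m (t :: x) = evm p q m t + ev p q m x := by
  simp [ev]

theorem ev_append (x y : Pl) : ev p q m (x ++ y) = ev p q m x + ev p q m y := by
  simp [ev]

theorem ev_pneg (x : Pl) : ev p q m (pneg x) = -ev p q m x := by
  induction x with
  | nil => simp [pneg, ev]
  | cons t x ih =>
    have h : pneg (t :: x) = (-t.1, t.2) :: pneg x := rfl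
    rw [h, ev_cons, ev_cons, ih]
    have h2 : evm p q m (-t.1, t.2) = -evm p q m t := by simp [evm]
    rw [h2]
    ring

theorem ev_pmul (x y : Pl) : ev p q m (pmul x y) = ev p q m x * ev p q m y := by
  induction x with
  | nil => simp [pmul, ev]
  | cons s x ih =>
    have h : pmul (s :: x) y =
        (y.map fun t => (s.1 * t.1, s.2.1 + t.2.1, s.2.2.1 + t.2.2.1, s.2.2.2 + t.2.2.2)) ++
          pmul x y := rfl
    rw [h, ev_append, ev_cons, ih, add_mul]
    congr 1
    clear h ih
    induction y with
    | nil => simp [ev]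
    | cons t y ih =>
      rw [List.map_cons, ev_cons, ev_cons, ih, mul_add]
      congr 1
      simp only [evm, Int.cast_mul, pow_add]
      ring

theorem ev_flatMap (l : List ℕ) (f : ℕ → Pl) :
    ev p q m (l.flatMap f) = (l.map fun k => ev p q m (f k)).sum := by
  induction l with
  | nil => rfl
  | cons k l ih => rw [List.flatMap_cons, ev_append, ih, List.map_cons, List.sum_cons]

theorem sum_range_fin {M : Type*} [AddCommMonoid M] (f : ℕ → M) :
    ((List.range N).map f).sum = ∑ k : Fin N, f k := by
  rw [← Finset.sum_range, Finset.sum_eq_multiset_sum]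
  rfl

theorem evM_mulP (A B : ℕ → ℕ → Pl) :
    evM p q m N (mulP N A B) = evM p q m N A * evM p q m N B := by
  ext i j
  simp only [evM, mulP, Matrix.mul_apply]
  rw [ev_flatMap, sum_range_fin N fun k => ev p q m (pmul (A i k) (B k j))]
  exact Finset.sum_congr rfl fun k _ => ev_pmul p q m _ _

theorem evM_prP (W : List (List Sv)) :
    evM p q m N (prP N W) = (W.map (matr p q m N)).prod := by
  induction W with
  | nil =>
    ext i j
    simp only [evM, prP, List.map_nil, List.prod_nil, Matrix.one_apply, Fin.val_inj]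
    split_ifs
    · simp [ev, evm]
    · rfl
  | cons C W ih =>
    rw [List.map_cons, List.prod_cons, ← ih]
    exact evM_mulP p q m N _ _

/-- Change of the ring. -/
theorem ev_map {S : Type*} [CommRing S] (f : R →+* S) (x : Pl) :
    f (ev p q m x) = ev (f p) (f q) (f m) x := by
  induction x with
  | nil => simp [ev]
  | cons t x ih => rw [ev_cons, ev_cons, map_add, ih]; simp [evm]

theorem matr_map {S : Type*} [CommRing S] (f : R →+* S) (C : List Sv) :
    (matr p q m N C).map f = matr (f p) (f q) (f m) N C := by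
  ext i j
  exact ev_map p q m f _

end

theorem nrm_append (x y : Pl) : nrm (x ++ y) = nrm x + nrm y := by simp [nrm]

theorem nrm_pneg (x : Pl) : nrm (pneg x) = nrm x := by simp [nrm, pneg, Function.comp_def]

theorem nrm_pmul (x y : Pl) : nrm (pmul x y) = nrm x * nrm y := by
  induction x with
  | nil => simp [pmul, nrm]
  | cons s x ih =>
    have h : pmul (s :: x) y =
        (y.map fun t => (s.1 * t.1, s.2.1 + t.2.1, s.2.2.1 + t.2.2.1, s.2.2.2 + t.2.2.2)) ++
          pmul x y := rfl
    have h2 : nrm (s :: x) = s.1.natAbs + nrm x := by simp [nrm]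
    rw [h, nrm_append, ih, h2, add_mul]
    congr 1
    simp only [nrm, List.map_map, Function.comp_def, Int.natAbs_mul]
    rw [List.sum_map_mul_left]

theorem nrm_flatMap (l : List ℕ) (f : ℕ → Pl) :
    nrm (l.flatMap f) = (l.map fun k => nrm (f k)).sum := by
  induction l with
  | nil => rfl
  | cons k l ih => rw [List.flatMap_cons, nrm_append, ih, List.map_cons, List.sum_cons]

theorem nrm_mulP {N : ℕ} {A B : ℕ → ℕ → Pl} {κ κ' : ℕ}
    (hA : ∀ i, i < N → ∑ j : Fin N, nrm (A i j) ≤ κ)
    (hB : ∀ i, i < N → ∑ j : Fin N, nrm (B i j) ≤ κ') (i : ℕ) (hi : i < N) :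
    ∑ j : Fin N, nrm (mulP N A B i j) ≤ κ * κ' := by
  have h1 : ∀ j : Fin N, nrm (mulP N A B i j) = ∑ k : Fin N, nrm (A i k) * nrm (B k j) := by
    intro j
    unfold mulP
    rw [nrm_flatMap, sum_range_fin N fun k => nrm (pmul (A i k) (B k j))]
    exact Finset.sum_congr rfl fun k _ => nrm_pmul _ _
  rw [Finset.sum_congr rfl fun j _ => h1 j, Finset.sum_comm]
  calc ∑ k : Fin N, ∑ j : Fin N, nrm (A i k) * nrm (B k j)
      = ∑ k : Fin N, nrm (A i k) * ∑ j : Fin N, nrm (B k j) :=
        Finset.sum_congr rfl fun k _ => (Finset.mul_sum _ _ _).symm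
    _ ≤ ∑ k : Fin N, nrm (A i k) * κ' :=
        Finset.sum_le_sum fun k _ => Nat.mul_le_mul_left _ (hB k k.2)
    _ = (∑ k : Fin N, nrm (A i k)) * κ' := (Finset.sum_mul _ _ _).symm
    _ ≤ κ * κ' := Nat.mul_le_mul_right _ (hA i hi)

theorem nrm_prP {N κ : ℕ} {W : List (List Sv)} (h : ∀ C ∈ W, ∀ i, i < N →
    ∑ j : Fin N, nrm (ent C i j) ≤ κ) (i : ℕ) (hi : i < N) :
    ∑ j : Fin N, nrm (prP N W i j) ≤ κ ^ W.length := by
  induction W generalizing i with
  | nil =>
    simp only [prP, List.length_nil, pow_zero]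
    have h2 : ∀ j : Fin N, nrm (if i = (j : ℕ) then [(1, 0, 0, 0)] else []) =
        if (⟨i, hi⟩ : Fin N) = j then 1 else 0 := by
      intro j
      by_cases hj : i = (j : ℕ)
      · rw [if_pos hj, if_pos (Fin.ext hj)]
        simp [nrm]
      · rw [if_neg hj, if_neg fun h' => hj (congrArg Fin.val h')]
        rfl
    rw [Finset.sum_congr rfl fun j _ => h2 j, Finset.sum_ite_eq]
    simp
  | cons C W ih =>
    rw [List.length_cons, pow_succ, mul_comm]
    exact nrm_mulP (h C (by simp)) (fun i hi => ih (fun C hC => h C (by simp [hC])) i hi) i hi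

theorem dgl_append {a b c : ℕ} {x y : Pl} (hx : dgl a b c x) (hy : dgl a b c y) :
    dgl a b c (x ++ y) := by
  intro t ht
  rcases List.mem_append.mp ht with h | h
  · exact hx t h
  · exact hy t h

theorem dgl_pneg {a b c : ℕ} {x : Pl} (hx : dgl a b c x) : dgl a b c (pneg x) := by
  intro t ht
  obtain ⟨s, hs, rfl⟩ := List.mem_map.mp ht
  exact hx s hs

theorem dgl_pmul {a b c a' b' c' : ℕ} {x y : Pl} (hx : dgl a b c x) (hy : dgl a' b' c' y) :
    dgl (a + a') (b + b') (c + c') (pmul x y) := by
  intro t ht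
  obtain ⟨s, hs, ht⟩ := List.mem_flatMap.mp ht
  obtain ⟨u, hu, rfl⟩ := List.mem_map.mp ht
  have h1 := hx s hs
  have h2 := hy u hu
  exact ⟨by simp only; omega, by simp only; omega, by simp only; omega⟩

theorem dgl_prP {N a b c : ℕ} {W : List (List Sv)} (h : ∀ C ∈ W, ∀ i j, dgl a b c (ent C i j))
    (i j : ℕ) : dgl (W.length * a) (W.length * b) (W.length * c) (prP N W i j) := by
  induction W generalizing i j with
  | nil =>
    intro t ht
    simp only [prP] at ht
    split_ifs at ht
    · rw [List.mem_singleton] at ht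
      subst ht
      simp
    · simp at ht
  | cons C W ih =>
    intro t ht
    simp only [prP, mulP] at ht
    obtain ⟨k, -, ht⟩ := List.mem_flatMap.mp ht
    have h1 := dgl_pmul (h C (by simp) i k) (ih (fun C hC => h C (by simp [hC])) k j) t ht
    rw [List.length_cons]
    refine ⟨?_, ?_, ?_⟩
    · linarith [h1.1]
    · linarith [h1.2.1]
    · linarith [h1.2.2]

end Pool.Agent.Lib.MP_97567f_al.F4
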