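import Pool.Agent.Lib.MP_97567f_al.F4.Dat

/-!
# MP_97567f_al: type F4: the relations of the matrices, by computation
-/

set_option autoImplicit false

namespace Pool.Agent.Lib.MP_97567f_al.F4

/-- The identity test for products of at most 4 matrices. -/
def tst (W W' : List (List Sv)) : Prop :=
  runZ 30 (30 * 25) (30 * (25 * 29)) W (v0 24 108750) =
    runZ 30 (30 * 25) (30 * (25 * 29)) W' (v0 24 108750)

instance (W W' : List (List Sv)) : Decidable (tst W W') := by
  unfold tst
  infer_instance

theorem of_tst {W W' : List (List Sv)} (hW : (W ++ W').all (okC 24 128 6 7 1) = true)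
    (hL : W.length ≤ 4) (hL' : W'.length ≤ 4) (h : tst W W') {R : Type*} [CommRing R]
    (p q m : R) : (W.map (matr p q m 24)).prod = (W'.map (matr p q m 24)).prod :=
  kron 24 128 6 7 1 4 30 108750 hW hL hL' (by norm_num) (by norm_num) (by norm_num) h p q m

theorem t01 : tst [c0, c1, c0] [c1, c0, c1] := by decide +kernel

theorem t23 : tst [c2, c3, c2] [c3, c2, c3] := by decide +kernel

theorem t02 : tst [c0, c2] [c2, c0] := by decide +kernel

theorem t03 : tst [c0, c3] [c3, c0] := by decide +kernel

theorem t13 : tst [c1, c3] [c3, c1] := by decide +kernel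

theorem t12 : tst [c1, c2, c1, c2] [c2, c1, c2, c1] := by decide +kernel

end Pool.Agent.Lib.MP_97567f_al.F4
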