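import Pool.Agent.Lib.MP_97567f_al.F4.Wp
import Pool.Agent.Lib.MP_97567f_al.F4.Good
import Pool.Agent.Lib.MP_97567f_al.Pad.Spec
import Pool.Agent.Lib.MP_97567f_al.U.TB.Rk

/-!
# MP_97567f_al: type F4: from the properties of the representation to `Good`
-/

set_option autoImplicit false

namespace Pool.Agent.Lib.MP_97567f_al.F4

open Pool.Agent.Lib.MP_97567f_al.U

theorem th3_ind : AlgebraicIndependent ℂ (fun j => (th3 j : R3)) := by
  have h : (fun j => (th3 j : R3)) = algebraMap P3 R3 ∘ MvPolynomial.X := by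
    funext j
    fin_cases j
    · rfl
    · rfl
    · rfl
  rw [h]
  have h2 : AlgebraicIndependent ℂ (MvPolynomial.X : Fin 3 → P3) :=
    MvPolynomial.algebraicIndependent_X _ _
  exact h2.map' (f := IsScalarTower.toAlgHom ℂ P3 R3) algebraMap3_injective

theorem th3_lift (a : Fin 3 → R3ˣ) : ∃ θ : R3 →ₐ[ℂ] R3, ∀ j, θ (th3 j) = a j := by
  obtain ⟨φ, h0, h1, h2⟩ := R3_lift (a 0).isUnit (a 1).isUnit (a 2).isUnit
  refine ⟨φ, fun j => ?_⟩
  fin_cases j
  · exact h0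
  · exact h1
  · exact h2

/-- The degrees for the classes of generators. -/
theorem dg_exists (cl : Fin 4 → Fin 2) (h01 : cl 0 = cl 1) (h23 : cl 2 = cl 3) :
    ∃ dg : Fin 2 → Art CoxeterMatrix.F₄ →* Multiplicative ℤ, ∀ c s,
      dg c (gn CoxeterMatrix.F₄ s) = Multiplicative.ofAdd (if cl s = c then 1 else 0) := by
  have h : ∀ c : Fin 2, ∃ φ : Art CoxeterMatrix.F₄ →* Multiplicative ℤ, ∀ s,
      φ (gn CoxeterMatrix.F₄ s) = Multiplicative.ofAdd (if cl s = c then 1 else 0) := by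
    intro c
    refine (pArt 4 CoxeterMatrix.F₄).2.1 (Multiplicative ℤ)
      (fun s => Multiplicative.ofAdd (if cl s = c then 1 else 0)) fun i j => ?_
    refine f4_rel (fun s => Multiplicative.ofAdd (if cl s = c then (1 : ℤ) else 0)) ?_ ?_ ?_ ?_ ?_ ?_
      i j
    · simp only [h01]
    · simp only [h23]
    · simp only [mul_comm, mul_left_comm]
    · exact mul_comm _ _
    · exact mul_comm _ _
    · exact mul_comm _ _
  choose dg hdg using h
  exact ⟨dg, hdg⟩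

/-- **The properties of the family.** -/
theorem tfam3 [Fact (Nat.Prime 7)] (hS : Pad.STFa) (hR : Pad.SThR) (u : Fin 3 → ZMod 7) (cl : Fin 4 → Fin 2)
    (h01 : cl 0 = cl 1) (h23 : cl 2 = cl 3)
    (hC : ∀ π : Art CoxeterMatrix.F₄ →* Equiv.Perm (Fin 24),
      (∀ s, π (gn CoxeterMatrix.F₄ s) = pg s) → Pad.CertC 7 cl (gn CoxeterMatrix.F₄) π T0 u)
    (hirr : Submodule.span (FractionRing R3) (Set.range fun x => mK rho3 x) = ⊤)
    (huni : Pad.UniP rho3)
    (heig : Pad.EigU 7 fam (gn CoxeterMatrix.F₄) u)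
    (htr : ∀ s, (rho3 (gn CoxeterMatrix.F₄ s)).1.trace ≠ 0) (hfin : FinP rho3) : TFam rho3 := by
  obtain ⟨π, hπ⟩ := pi_exists
  obtain ⟨dg, hdg⟩ := dg_exists cl h01 h23
  have hThm : Pad.ThmR 7 fam u := hR 7 (Art CoxeterMatrix.F₄) (Fin 24) (Fin 3) (Fin 4) (Fin 2) cl
    dg fam (gn CoxeterMatrix.F₄) π T0 u (by norm_num) hdg (wpt hπ) (hC π hπ)
  exact hS 7 (Art CoxeterMatrix.F₄) (Fin 24) 3 (Fin 4) fam (gn CoxeterMatrix.F₄) u R3 th3 rho3
    th3_ind th3_lift (fun x => rfl) (pArt 4 CoxeterMatrix.F₄).2.2.2.1 hirr huni hThm heig htr hfin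

/-- **The type F4.** -/
theorem good3 (g2 : SMach) (g4 : SAbO) (g5 : SAbI) (hT : TFam rho3) :
    Good (Art CoxeterMatrix.F₄) := by
  obtain ⟨f, f0, f1, f2⟩ := R3_lift (S := FractionRing (Polynomial ℂ))
    (a := 1 / 2) (b := 1 / 2) (c := algebraMap (Polynomial ℂ) _ Polynomial.X)
    (IsUnit.mk0 _ (by norm_num)) (IsUnit.mk0 _ (by norm_num))
    (IsUnit.mk0 _ (by
      rw [Ne, FaithfulSMul.algebraMap_eq_zero_iff]
      exact Polynomial.X_ne_zero))
  obtain ⟨φ, p0, p1, p2⟩ := R3_lift (S := ℂ) (a := 1) (b := 1) (c := 1) isUnit_one isUnit_one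
    isUnit_one
  exact good_F4 g2 g4 g5 rho3 (fun s => rho3_gn s) hT TB.pRk (f : R3 →+* _) f0 f1 f2 φ p0 p1 p2

end Pool.Agent.Lib.MP_97567f_al.F4
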