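import Pool.Agent.Lib.MP_97567f_al.F4.Chp
import Pool.Agent.Lib.MP_97567f_al.Pad.Spec

/-!
# MP_97567f_al: type F4: the parameters are determined by the characteristic polynomials
-/

set_option autoImplicit false

namespace Pool.Agent.Lib.MP_97567f_al.F4

open Polynomial Pool.Agent.Lib.MP_97567f_al.U

section Un

variable {K : Type} [Field K]

private theorem Un_count [DecidableEq K] {k : ℕ} (v : Fin k → K) (m : Fin k → ℕ) (w : K) :
    ((∏ j, (X - C (v j)) ^ m j : K[X]).roots.count w) = ∑ j, m j * (if w = v j then 1 else 0) := by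
  have key : ∀ S : Finset (Fin k), (∏ j ∈ S, (X - C (v j)) ^ m j : K[X]).roots.count w =
      ∑ j ∈ S, m j * (if w = v j then 1 else 0) := by
    intro S
    induction S using Finset.induction_on with
    | empty => simp
    | insert a S ha ih =>
      rw [Finset.prod_insert ha, Finset.sum_insert ha]
      have h1 : ((X - C (v a)) ^ m a : K[X]) ≠ 0 := pow_ne_zero _ (X_sub_C_ne_zero _)
      have h2 : (∏ j ∈ S, (X - C (v j)) ^ m j : K[X]) ≠ 0 :=
        Finset.prod_ne_zero_iff.2 fun j _ => pow_ne_zero _ (X_sub_C_ne_zero _)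
      rw [roots_mul (mul_ne_zero h1 h2), Multiset.count_add, ih, roots_pow, roots_X_sub_C,
        Multiset.count_nsmul, Multiset.count_singleton]
  exact key Finset.univ

omit [Field K] in
/-- Comparing the multiplicities. -/
private theorem Un_cmp [DecidableEq K] {k : ℕ} (v w : Fin k → K) (m : Fin k → ℕ)
    (hv : Function.Injective v) (hm : ∀ i j : Fin k, i < j → m j < m i) (hpos : ∀ j, 0 < m j)
    (h : ∀ z : K, ∑ j, m j * (if z = v j then 1 else 0) = ∑ j, m j * (if z = w j then 1 else 0)) :
    ∀ j, w j = v j := by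
  have key : ∀ (n : ℕ) (j : Fin k), (j : ℕ) < n → w j = v j := by
    intro n
    induction n with
    | zero => intro j hj; omega
    | succ n ih =>
      intro j hj
      have h1 := h (w j)
      have h2 : m j ≤ ∑ i, m i * (if w j = w i then 1 else 0) := by
        have := Finset.single_le_sum (f := fun i => m i * (if w j = w i then 1 else 0))
          (fun _ _ => Nat.zero_le _) (Finset.mem_univ j)
        simpa using this
      have h3 : ∃ l, w j = v l := by
        by_contra hcon
        push Not at hcon
        rw [Finset.sum_eq_zero fun i _ => by rw [if_neg (hcon i), mul_zero]] at h1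
        have := hpos j
        omega
      obtain ⟨l, hl⟩ := h3
      have h4 : ∑ i, m i * (if w j = v i then 1 else 0) = m l := by
        rw [Finset.sum_eq_single l]
        · rw [if_pos hl, mul_one]
        · intro i _ hi
          rw [if_neg fun h' => hi (hv (h'.symm.trans hl)), mul_zero]
        · intro h'
          exact absurd (Finset.mem_univ _) h'
      rw [h4] at h1
      rcases lt_trichotomy l j with hlj | hlj | hlj
      · exfalso
        have h5 : w l = v l := ih l (by omega)
        have h6 : m l + m j ≤ ∑ i, m i * (if w j = w i then 1 else 0) := by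
          have h7 := Finset.add_le_sum (f := fun i => m i * (if w j = w i then 1 else 0))
            (fun _ _ => Nat.zero_le _) (Finset.mem_univ l) (Finset.mem_univ j) hlj.ne
          simpa [hl, h5] using h7
        have := hpos j
        omega
      · rw [hl, hlj]
      · exfalso
        have := hm j l hlj
        omega
  exact fun j => key (j + 1) j (Nat.lt_succ_self _)

variable {ι : Type} [Fintype ι] [DecidableEq ι]

/-- The characteristic polynomial of a multiple. -/
theorem chp_scale [Infinite K] (A : Matrix ι ι K) (c : K) (hc : c ≠ 0) {k : ℕ}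
    (u : Fin k → K) (m : Fin k → ℕ) (h : A.charpoly = ∏ j, (X - C (u j)) ^ m j) :
    (c • A).charpoly = ∏ j, (X - C (c * u j)) ^ m j := by
  have hN : Fintype.card ι = ∑ j, m j := by
    have h1 := A.charpoly_natDegree_eq_dim
    rw [h, natDegree_prod _ _ fun j _ => pow_ne_zero _ (X_sub_C_ne_zero _)] at h1
    rw [← h1]
    refine Finset.sum_congr rfl fun j _ => ?_
    rw [natDegree_pow, natDegree_X_sub_C, mul_one]
  apply Polynomial.funext
  intro t
  have e1 : (c • A).charpoly.eval t = (Matrix.scalar ι t - c • A).det := by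
    rw [Matrix.eval_charpoly]
  have e2 : A.charpoly.eval (c⁻¹ * t) = (Matrix.scalar ι (c⁻¹ * t) - A).det := by
    rw [Matrix.eval_charpoly]
  have e3 : Matrix.scalar ι t - c • A = c • (Matrix.scalar ι (c⁻¹ * t) - A) := by
    rw [smul_sub]
    congr 1
    ext i j
    rw [Matrix.smul_apply, Matrix.scalar_apply, Matrix.scalar_apply]
    by_cases hij : i = j
    · subst hij
      rw [Matrix.diagonal_apply_eq, Matrix.diagonal_apply_eq, smul_eq_mul, mul_inv_cancel_left₀ hc]
    · rw [Matrix.diagonal_apply_ne _ hij, Matrix.diagonal_apply_ne _ hij, smul_zero]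
  rw [e1, e3, Matrix.det_smul, ← e2, h, hN, eval_prod, eval_prod, ← Finset.prod_pow_eq_pow_sum,
    ← Finset.prod_mul_distrib]
  refine Finset.prod_congr rfl fun j _ => ?_
  simp only [eval_pow, eval_sub, eval_X, eval_C]
  rw [← mul_pow, mul_sub, mul_inv_cancel_left₀ hc]

end Un

/-- One generator. -/
private theorem Un_gen {ι : Type} [Fintype ι] [DecidableEq ι] {R : Type} [CommRing R] [IsDomain R]
    [Algebra ℂ R] (A : Matrix ι ι R) (θ : R →ₐ[ℂ] R) (χ : Rˣ) {k : ℕ} (v : Fin k → R) (m : Fin k → ℕ)
    (hv : Function.Injective v) (hm : ∀ i j : Fin k, i < j → m j < m i) (hpos : ∀ j, 0 < m j)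
    (hA : A.charpoly = ∏ j, (X - C (v j)) ^ m j)
    (h : ((χ : R) • A.map θ).charpoly = A.charpoly) : ∀ j, (χ : R) * θ (v j) = v j := by
  classical
  let K := FractionRing R
  have hinj : Function.Injective (algebraMap R K) := IsFractionRing.injective R K
  have hinf : Infinite K :=
    Infinite.of_injective ((algebraMap R K).comp (algebraMap ℂ R))
      ((algebraMap R K).comp (algebraMap ℂ R)).injective
  have c1 : (A.map (algebraMap R K)).charpoly = ∏ j, (X - C (algebraMap R K (v j))) ^ m j := by
    rw [Matrix.charpoly_map, hA, Polynomial.map_prod]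
    refine Finset.prod_congr rfl fun j _ => ?_
    rw [Polynomial.map_pow, Polynomial.map_sub, map_X, map_C]
  have c2 : ((A.map θ).map (algebraMap R K)).charpoly =
      ∏ j, (X - C (algebraMap R K (θ (v j)))) ^ m j := by
    have h1 : ((A.map θ).map (algebraMap R K)).charpoly =
        (A.charpoly.map (θ : R →+* R)).map (algebraMap R K) := by
      rw [Matrix.charpoly_map]
      congr 1
      exact Matrix.charpoly_map A (θ : R →+* R)
    rw [h1, hA, Polynomial.map_prod, Polynomial.map_prod]
    refine Finset.prod_congr rfl fun j _ => ?_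
    rw [Polynomial.map_pow, Polynomial.map_sub, map_X, map_C, Polynomial.map_pow,
      Polynomial.map_sub, map_X, map_C]
    rfl
  set e : K := algebraMap R K (χ : R) with he
  have he0 : e ≠ 0 := (χ.isUnit.map (algebraMap R K)).ne_zero
  have e1 : (e • (A.map θ).map (algebraMap R K)).charpoly =
      (A.map (algebraMap R K)).charpoly := by
    have h1 : e • (A.map θ).map (algebraMap R K) =
        ((χ : R) • A.map θ).map (algebraMap R K) := by
      ext i j
      simp [he]
    rw [h1, Matrix.charpoly_map, h, Matrix.charpoly_map]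
  rw [c1, chp_scale _ e he0 _ m c2] at e1
  have hcount : ∀ z : K,
      ∑ j, m j * (if z = algebraMap R K (v j) then 1 else 0) =
      ∑ j, m j * (if z = e * algebraMap R K (θ (v j)) then 1 else 0) := by
    intro z
    have h1 := Un_count (fun j => algebraMap R K (v j)) m z
    have h2 := Un_count (fun j => e * algebraMap R K (θ (v j))) m z
    rw [← h1, ← h2, e1]
  have h3 := Un_cmp (fun j => algebraMap R K (v j))
    (fun j => e * algebraMap R K (θ (v j))) m (fun i j hij => hv (hinj hij)) hm hpos hcount
  intro j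
  apply hinj
  rw [map_mul]
  exact h3 j

/-- **The parameters are determined by the characteristic polynomials.** -/
theorem uniF4 : Pad.UniP rho3 := by
  intro θ χ hθ
  obtain ⟨φ, f0, f1, f2⟩ := R3_lift (S := ℂ) (a := 2) (b := 3) (c := 5) (by norm_num)
    (by norm_num) (by norm_num)
  -- the long generator 0
  have hl : (rho3 (gn CoxeterMatrix.F₄ 0)).1.charpoly =
      ∏ j : Fin 3, (X - C ((![1, -r0, r0 ^ 2 * r2] : Fin 3 → R3) j)) ^
        ((![16, 7, 1] : Fin 3 → ℕ) j) := by
    rw [rho3_gn, chp_long r0 r1 r2 0 (Or.inl rfl), Fin.prod_univ_three]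
    simp
  have hl1 := Un_gen _ θ (χ (gn CoxeterMatrix.F₄ 0)) _ _ (by
      intro i j hij
      have h1 := congrArg φ hij
      fin_cases i <;> fin_cases j <;> first | rfl | (exfalso; simp [f0, f1, f2] at h1; norm_num at h1))
    (by
      intro i j hij
      fin_cases i <;> fin_cases j <;> first | (exfalso; revert hij; decide) | decide)
    (by intro j; fin_cases j <;> decide) hl (hθ _)
  -- the short generator 2
  have hs : (rho3 (gn CoxeterMatrix.F₄ 2)).1.charpoly =
      ∏ j : Fin 4, (X - C ((![1, -r1, r0 * r1, r1 ^ 2 * r2] : Fin 4 → R3) j)) ^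
        ((![13, 7, 3, 1] : Fin 4 → ℕ) j) := by
    rw [rho3_gn, chp_short r0 r1 r2 2 (Or.inl rfl), Fin.prod_univ_four]
    simp
  have hs1 := Un_gen _ θ (χ (gn CoxeterMatrix.F₄ 2)) _ _ (by
      intro i j hij
      have h1 := congrArg φ hij
      fin_cases i <;> fin_cases j <;> first | rfl | (exfalso; simp [f0, f1, f2] at h1; norm_num at h1))
    (by
      intro i j hij
      fin_cases i <;> fin_cases j <;> first | (exfalso; revert hij; decide) | decide)
    (by intro j; fin_cases j <;> decide) hs (hθ _)
  have a0 : (χ (gn CoxeterMatrix.F₄ 0) : R3) * θ 1 = 1 := hl1 0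
  have a1 : (χ (gn CoxeterMatrix.F₄ 0) : R3) * θ (-r0) = -r0 := hl1 1
  have a2 : (χ (gn CoxeterMatrix.F₄ 0) : R3) * θ (r0 ^ 2 * r2) = r0 ^ 2 * r2 := hl1 2
  have b0 : (χ (gn CoxeterMatrix.F₄ 2) : R3) * θ 1 = 1 := hs1 0
  have b1 : (χ (gn CoxeterMatrix.F₄ 2) : R3) * θ (-r1) = -r1 := hs1 1
  rw [map_one, mul_one] at a0 b0
  rw [a0, one_mul, map_neg, neg_inj] at a1
  rw [b0, one_mul, map_neg, neg_inj] at b1
  rw [a0, one_mul, map_mul, map_pow, a1] at a2
  have hr0 : r0 ^ 2 ≠ 0 := (r0_unit.pow 2).ne_zero
  exact R3_ext a1 b1 (mul_left_cancel₀ hr0 a2)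

end Pool.Agent.Lib.MP_97567f_al.F4
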