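import Pool.Agent.Lib.MP_97567f_al.F4.Tf
import Pool.Agent.Lib.MP_97567f_al.F4.Eg
import Pool.Agent.Lib.MP_97567f_al.F4.Un
import Pool.Agent.Lib.MP_97567f_al.F4.Fin
import Pool.Agent.Lib.MP_97567f_al.F4.CertG
import Pool.Agent.Lib.MP_97567f_al.Pad.Ali
import Pool.Agent.Lib.MP_97567f_al.Pad.Cob
import Pool.Agent.Lib.MP_97567f_al.Pad.Dif
import Pool.Agent.Lib.MP_97567f_al.Pad.Ext
import Pool.Agent.Lib.MP_97567f_al.Pad.Fam
import Pool.Agent.Lib.MP_97567f_al.Pad.Hol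
import Pool.Agent.Lib.MP_97567f_al.Pad.Hom
import Pool.Agent.Lib.MP_97567f_al.Pad.Inj
import Pool.Agent.Lib.MP_97567f_al.Pad.Irp
import Pool.Agent.Lib.MP_97567f_al.Pad.Lau
import Pool.Agent.Lib.MP_97567f_al.Pad.Lim
import Pool.Agent.Lib.MP_97567f_al.Pad.Pad
import Pool.Agent.Lib.MP_97567f_al.Pad.Stp
import Pool.Agent.Lib.MP_97567f_al.Pad.TFa
import Pool.Agent.Lib.MP_97567f_al.Pad.ThR
import Pool.Agent.Lib.MP_97567f_al.Pad.Tng
import Pool.Agent.Lib.MP_97567f_al.Pad.TwL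
import Pool.Agent.Lib.MP_97567f_al.Pad.TwR
import Pool.Agent.Lib.MP_97567f_al.U.Top

/-!
# MP_97567f_al: type F4
-/

set_option autoImplicit false

namespace Pool.Agent.Lib.MP_97567f_al.F4

open Pool.Agent.Lib.MP_97567f_al.U

/-- The traces of the generators are not zero. -/
theorem tr_ne (s : Fin 4) : (rho3 (gn CoxeterMatrix.F₄ s)).1.trace ≠ 0 := by
  intro h
  obtain ⟨φ, p0, p1, p2⟩ := R3_lift (S := ℂ) (a := 1) (b := 1) (c := 1) isUnit_one isUnit_one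
    isUnit_one
  have key : ∀ s : Fin 4, (List.map (fun i => sw (fun _ => 1) (en s i i)) (List.range 24)).sum ≠
      0 := by decide +kernel
  apply key s
  rw [sum_range_fin 24 fun i => sw (fun _ => 1) (en s i i)]
  have h1 : φ (rho3 (gn CoxeterMatrix.F₄ s)).1.trace = ∑ i : Fin 24, gm (1 : ℂ) 1 1 s i i := by
    rw [rho3_gn, Matrix.trace, map_sum]
    refine Finset.sum_congr rfl fun i _ => ?_
    have h2 := congrFun (congrFun (gm_map r0 r1 r2 (φ : R3 →+* ℂ) s) i) i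
    have e1 : (φ : R3 →+* ℂ) r0 = 1 := p0
    have e2 : (φ : R3 →+* ℂ) r1 = 1 := p1
    have e3 : (φ : R3 →+* ℂ) r2 = 1 := p2
    rw [e1, e2, e3] at h2
    exact h2
  rw [h, map_zero] at h1
  have h3 : (((∑ i : Fin 24, sw (fun _ => 1) (en s i i) : ℤ)) : ℂ) = 0 := by
    rw [h1, Int.cast_sum]
    exact Finset.sum_congr rfl fun i _ => (ev_one_one _).symm
  exact_mod_cast h3

private theorem n1 : (2 * 1 + 1 : ZMod 7) ≠ 0 := by decide

private theorem n2 : (1 + 1 : ZMod 7) ≠ 0 := by decide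

private theorem n3 : (1 : ZMod 7) ≠ 1 + 1 := by decide

/-- **The type F4.** -/
theorem goodF4 : Good (Art CoxeterMatrix.F₄) := by
  have : Fact (Nat.Prime 7) := ⟨by norm_num⟩
  have hR : Pad.SThR := Pad.pThR (Pad.pLim Pad.pFam (Pad.pStp Pad.pDif (Pad.pTng Pad.pDif Pad.pHol)
    Pad.pCob Pad.pFam))
  have hS : Pad.STFa := Pad.pTFa (Pad.pPad Pad.pAli Pad.pHom Pad.pLau (Pad.pIrp Pad.pLau) Pad.pExt
    (Pad.pTwL pDesc) Pad.pTwR Pad.pInj)
  refine good3 uMach pAbO uAbI (tfam3 hS hR (fun _ => 1) clF4 rfl rfl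
    (fun π hπ => certF4_fam hπ) rho3_irr uniF4 (eigF4 7 (by norm_num) (fun _ => 1) ?_ ?_ ?_ ?_)
    tr_ne rho3_fin)
  · exact n1
  · exact n2
  · exact n1
  · exact n3

end Pool.Agent.Lib.MP_97567f_al.F4
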