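import Pool.Agent.Lib.MP_97567f_al.F4.CertG
import Pool.Agent.Lib.MP_97567f_al.F4.Eg
import Pool.Agent.Lib.MP_97567f_al.F4.Fin
import Pool.Agent.Lib.MP_97567f_al.F4.Tf
import Pool.Agent.Lib.MP_97567f_al.F4.Un
import Pool.Agent.Lib.MP_97567f_al.U.TopH

/-!
# MP_97567f_al: the type `F₄`: assembly
-/

set_option autoImplicit false

namespace Pool.Agent.Lib.MP_97567f_al.F4

open Pool.Agent.Lib.MP_97567f_al.U Pool.Agent.Lib.MP_97567f_al.Pad

theorem rho3_trace (s : Fin 4) : (rho3 (gn CoxeterMatrix.F₄ s)).1.trace ≠ 0 := by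
  rw [rho3_gn]
  intro h
  obtain ⟨φ, h0, h1, h2⟩ := R3_lift (S := ℂ) (a := 1) (b := 1) (c := 1) isUnit_one isUnit_one
    isUnit_one
  have hs : (s = 0 ∨ s = 1) ∨ (s = 2 ∨ s = 3) := by
    fin_cases s <;> simp
  rcases hs with hs | hs
  · rw [tr_long _ _ _ s hs] at h
    have h3 := congrArg φ h
    simp only [map_add, map_sub, map_mul, map_pow, map_ofNat, map_zero, h0, h1, h2] at h3
    norm_num at h3
  · rw [tr_short _ _ _ s hs] at h
    have h3 := congrArg φ h
    simp only [map_add, map_sub, map_mul, map_pow, map_ofNat, map_zero, h0, h1, h2] at h3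
    norm_num at h3

private theorem z7a : (2 : ZMod 7) * 1 + 1 ≠ 0 := by decide

private theorem z7b : (1 : ZMod 7) + 1 ≠ 0 := by decide

private theorem z7c : (1 : ZMod 7) ≠ 1 + 1 := by decide

theorem tfam_F4 : TFam rho3 := by
  have h7 : Fact (Nat.Prime 7) := ⟨by norm_num⟩
  exact tfam3 rTFa rThR (fun _ => 1) clF4 rfl rfl (fun π hπ => certF4_fam hπ) rho3_irr uniF4
    (eigF4 7 (by norm_num) (fun _ => 1) z7a z7b z7a z7c) rho3_trace rho3_fin

/-- **The type `F₄`.** -/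
theorem good_F4' : Good (Art CoxeterMatrix.F₄) := good3 uMach pAbO uAbI tfam_F4

end Pool.Agent.Lib.MP_97567f_al.F4
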